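import Pool.Agent.Lib.MP_10e784_agTR.Defs
import Pool.Agent.Lib.MP_10e784_ag.TW.TWRtLow
import Pool.Agent.Lib.MP_10e784_ag.TW.TWDbl

/-!
# MP_10e784_ag: the primes with a nonresidue at a root, from below on all intervals
-/

set_option autoImplicit false

namespace TR

open NumberField Finset Polynomial TW

open Classical in
/-- the prime ideals of norm `p` -/
noncomputable def pri (E : Type) [Field E] [NumberField E] (p : ℕ) : Finset (Ideal (𝓞 E)) :=
  (Ideal.finite_setOfPred_absNorm_eq (S := 𝓞 E) p).toFinset.filter fun P => P.IsPrime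

theorem mem_pri (E : Type) [Field E] [NumberField E] (p : ℕ) (P : Ideal (𝓞 E)) :
    P ∈ pri E p ↔ P.IsPrime ∧ Ideal.absNorm P = p := by
  classical
  unfold pri
  rw [Finset.mem_filter, Set.Finite.mem_toFinset, and_comm]
  rfl

theorem pri_le (E : Type) [Field E] [NumberField E] (p : ℕ) (hp : p.Prime) : (pri E p).card ≤ Module.finrank ℚ E := by
  refine PT.primes_above_le E p hp _ fun P hP => ?_
  rw [mem_pri] at hP
  refine ⟨hP.1, ?_⟩
  have := Ideal.absNorm_mem P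
  rwa [hP.2] at this

theorem pri_upper (E : Type) [Field E] [NumberField E] :
    ∃ C : ℝ, ∀ x : ℝ, 2 ≤ x → PT.PS (fun p => ((pri E p).card : ℝ)) x ≤ Real.log (Real.log x) + C := by
  classical
  obtain ⟨C, hC⟩ := PT.zeta_upper E
  obtain ⟨C', hC'⟩ := PT.conv_upper (fun p => ((pri E p).card : ℝ)) (Module.finrank ℚ E) 1 C
    (fun p _ => by positivity) (fun p hp => by exact_mod_cast pri_le E p hp) zero_le_one (by
      intro s T hs1 hs2 hT
      rw [one_mul]
      have h1 : ∑ p ∈ T, ((pri E p).card : ℝ) * (p : ℝ) ^ (-s)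
          = ∑ P ∈ T.biUnion (pri E), ((Ideal.absNorm P : ℕ) : ℝ) ^ (-s) := by
        rw [Finset.sum_biUnion]
        · refine Finset.sum_congr rfl (fun p hp => ?_)
          have h2 : ∀ P ∈ pri E p, ((Ideal.absNorm P : ℕ) : ℝ) ^ (-s) = (p : ℝ) ^ (-s) := by
            intro P hP
            rw [((mem_pri E p P).1 hP).2]
          rw [Finset.sum_congr rfl h2, Finset.sum_const, nsmul_eq_mul]
        · intro p hp q hq hpq
          rw [Function.onFun, Finset.disjoint_left]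
          intro P hP1 hP2
          apply hpq
          rw [← ((mem_pri E p P).1 hP1).2, ← ((mem_pri E q P).1 hP2).2]
      rw [h1]
      refine hC s _ hs1 hs2 ?_
      intro P hP
      rw [Finset.mem_biUnion] at hP
      obtain ⟨p, hp, hPE⟩ := hP
      have h3 := (mem_pri E p P).1 hPE
      refine ⟨h3.1, ?_⟩
      intro h4
      have h5 := h3.2
      rw [h4, Ideal.absNorm_bot] at h5
      exact (hT p hp).ne_zero h5.symm)
  refine ⟨C', fun x hx => ?_⟩
  have h := hC' x hx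
  rwa [one_mul] at h

/-- the prime ideals above one prime number -/
private theorem pri_fiber (E : Type) [Field E] [NumberField E]
    (s : ℝ) (hs : 1 < s) (p : ℕ) (hp : p.Prime) (F : Finset (Ideal (𝓞 E)))
    (hF : ∀ P ∈ F, P.IsPrime ∧ (p : 𝓞 E) ∈ P ∧ (Ideal.absNorm P = p ∨ p ^ 2 ≤ Ideal.absNorm P)) :
    ∑ P ∈ F, ((Ideal.absNorm P : ℕ) : ℝ) ^ (-s) ≤ ((pri E p).card : ℝ) * (p : ℝ) ^ (-s)
      + (Module.finrank ℚ E : ℝ) * (1 / (p : ℝ) ^ 2) := by
  classical
  have hp1 : (1 : ℝ) ≤ p := by exact_mod_cast hp.one_lt.le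
  have hp0 : (0 : ℝ) < p := by linarith
  have h0 : 0 ≤ (p : ℝ) ^ (-s) := Real.rpow_nonneg hp0.le _
  rw [← Finset.sum_filter_add_sum_filter_not F (fun P => Ideal.absNorm P = p)]
  have ha : ∑ P ∈ F.filter (fun P => Ideal.absNorm P = p), ((Ideal.absNorm P : ℕ) : ℝ) ^ (-s)
      ≤ ((pri E p).card : ℝ) * (p : ℝ) ^ (-s) := by
    have h2 : ∑ P ∈ F.filter (fun P => Ideal.absNorm P = p), ((Ideal.absNorm P : ℕ) : ℝ) ^ (-s)
        = ((F.filter (fun P => Ideal.absNorm P = p)).card : ℝ) * (p : ℝ) ^ (-s) := by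
      rw [Finset.sum_congr rfl (g := fun _ => (p : ℝ) ^ (-s))
        (fun P hP => by rw [(Finset.mem_filter.1 hP).2]), Finset.sum_const, nsmul_eq_mul]
    rw [h2]
    have h3 : F.filter (fun P => Ideal.absNorm P = p) ⊆ pri E p := by
      intro P hP
      rw [Finset.mem_filter] at hP
      exact (mem_pri E p P).2 ⟨(hF P hP.1).1, hP.2⟩
    have h4 : ((F.filter (fun P => Ideal.absNorm P = p)).card : ℝ) ≤ ((pri E p).card : ℝ) := by
      exact_mod_cast Finset.card_le_card h3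
    exact mul_le_mul_of_nonneg_right h4 h0
  have hb : ∑ P ∈ F.filter (fun P => ¬ Ideal.absNorm P = p), ((Ideal.absNorm P : ℕ) : ℝ) ^ (-s)
      ≤ (Module.finrank ℚ E : ℝ) * (1 / (p : ℝ) ^ 2) := by
    have h2 : ∀ P ∈ F.filter (fun P => ¬ Ideal.absNorm P = p),
        ((Ideal.absNorm P : ℕ) : ℝ) ^ (-s) ≤ 1 / (p : ℝ) ^ 2 := by
      intro P hP
      rw [Finset.mem_filter] at hP
      have h := ((hF P hP.1).2.2).resolve_left hP.2
      have hN1 : ((p : ℝ)) ^ 2 ≤ ((Ideal.absNorm P : ℕ) : ℝ) := by exact_mod_cast h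
      have hN2 : (1 : ℝ) ≤ ((Ideal.absNorm P : ℕ) : ℝ) := le_trans (one_le_pow₀ hp1) hN1
      have h3 : ((Ideal.absNorm P : ℕ) : ℝ) ^ (-s) ≤ ((Ideal.absNorm P : ℕ) : ℝ) ^ (-1 : ℝ) :=
        Real.rpow_le_rpow_of_exponent_le hN2 (by linarith)
      have h4 : ((Ideal.absNorm P : ℕ) : ℝ) ^ (-1 : ℝ) ≤ 1 / (p : ℝ) ^ 2 := by
        rw [Real.rpow_neg_one, one_div]
        exact inv_anti₀ (by positivity) hN1
      exact h3.trans h4
    refine (Finset.sum_le_sum h2).trans ?_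
    rw [Finset.sum_const, nsmul_eq_mul]
    have h5 := PT.primes_above_le E p hp (F.filter (fun P => ¬ Ideal.absNorm P = p)) fun P hP =>
      ⟨(hF P (Finset.mem_filter.1 hP).1).1, (hF P (Finset.mem_filter.1 hP).1).2.1⟩
    exact mul_le_mul_of_nonneg_right (by exact_mod_cast h5) (by positivity)
  linarith

theorem pri_lower (E : Type) [Field E] [NumberField E] :
    ∃ C : ℝ, ∀ x : ℝ, 2 ≤ x → Real.log (Real.log x) - C ≤ PT.PS (fun p => ((pri E p).card : ℝ)) x := by
  classical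
  obtain ⟨C, hC⟩ := PT.zeta_lower E
  set n : ℕ := Module.finrank ℚ E with hn
  set C2 : ℝ := ∑' k : ℕ, 1 / (k : ℝ) ^ 2 with hC2
  obtain ⟨C', hC'⟩ := PT.conv_lower (fun p => ((pri E p).card : ℝ)) n 1 (C + n * C2)
    (fun p _ => by positivity) (fun p hp => by exact_mod_cast pri_le E p hp) zero_le_one (by
      intro s hs1 hs2
      obtain ⟨G, hG, hsum⟩ := hC s hs1 hs2
      have hex : ∀ P : Ideal (𝓞 E), ∃ p : ℕ, P ∈ G →
          (p.Prime ∧ (p : 𝓞 E) ∈ P ∧ (Ideal.absNorm P = p ∨ p ^ 2 ≤ Ideal.absNorm P)) := by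
        intro P
        by_cases hP : P ∈ G
        · obtain ⟨p, hp⟩ := PT.ptsplit_char E P (hG P hP).1 (hG P hP).2
          exact ⟨p, fun _ => hp⟩
        · exact ⟨0, fun h => absurd h hP⟩
      choose q hq using hex
      have hT : ∀ p ∈ G.image q, p.Prime := by
        intro p hp
        rw [Finset.mem_image] at hp
        obtain ⟨P, hP, rfl⟩ := hp
        exact (hq P hP).1
      refine ⟨G.image q, hT, ?_⟩
      have h1 : ∑ P ∈ G, ((Ideal.absNorm P : ℕ) : ℝ) ^ (-s)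
          ≤ ∑ p ∈ G.image q, (((pri E p).card : ℝ) * (p : ℝ) ^ (-s) + (n : ℝ) * (1 / (p : ℝ) ^ 2)) := by
        rw [← Finset.sum_fiberwise_of_maps_to (fun P hP => Finset.mem_image_of_mem q hP)
          (fun P => ((Ideal.absNorm P : ℕ) : ℝ) ^ (-s))]
        refine Finset.sum_le_sum fun p hp => ?_
        refine pri_fiber E s hs1 p (hT p hp) _ fun P hP => ?_
        rw [Finset.mem_filter] at hP
        have h2 := hq P hP.1
        rw [hP.2] at h2
        exact ⟨(hG P hP.1).1, h2.2.1, h2.2.2⟩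
      have h5 : ∑ p ∈ G.image q, 1 / (p : ℝ) ^ 2 ≤ C2 :=
        (Real.summable_one_div_nat_pow.2 (by norm_num)).sum_le_tsum _ (fun k _ => by positivity)
      rw [Finset.sum_add_distrib, ← Finset.mul_sum] at h1
      have hn0 : (0 : ℝ) ≤ n := Nat.cast_nonneg _
      have h8 := mul_le_mul_of_nonneg_left h5 hn0
      linarith)
  refine ⟨C', fun x hx => ?_⟩
  have h := hC' x hx
  rwa [one_mul] at h

theorem PS_mono (h : ℕ → ℝ) (hh : ∀ p, p.Prime → 0 ≤ h p) {x y : ℝ} (hxy : x ≤ y) : PT.PS h x ≤ PT.PS h y := by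
  unfold PT.PS
  refine Finset.sum_le_sum_of_subset_of_nonneg ?_ fun p hp _ => ?_
  · refine Finset.filter_subset_filter _ (Finset.Icc_subset_Icc le_rfl (Nat.floor_le_floor hxy))
  · exact div_nonneg (hh p (Finset.mem_filter.1 hp).2) (Nat.cast_nonneg _)

theorem nonres_inc (g : ℤ[X]) (hm : g.Monic) (hirr : Irreducible (g.map (Int.castRingHom ℚ))) (d : ℤ[X])
    (hd : ¬ ∃ B : ℚ[X], qq g ∣ d.map (Int.castRingHom ℚ) - B ^ 2) :
    ∃ c C : ℝ, 0 < c ∧ Inc {p | p.Prime ∧ ∃ t : ZMod p, (red p g).eval t = 0 ∧ ¬ IsSquare ((red p d).eval t)} c C := by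
  classical
  set T0 : Set ℕ :=
    {p | p.Prime ∧ ∃ t : ZMod p, (red p g).eval t = 0 ∧ ¬ IsSquare ((red p d).eval t)} with hT0
  obtain ⟨M, hM⟩ := PT.rt_le g hm.ne_zero
  obtain ⟨C1, hC1⟩ := rt_low g hm hirr
  obtain ⟨C2, hC2⟩ := PT.rt_sum g hirr
  obtain ⟨E, iF, iN, B2, hB2, hE⟩ := sqrt_primes g hm hirr d hd
  obtain ⟨C3, hC3⟩ := pri_upper E
  obtain ⟨C4, hC4⟩ := pri_lower E
  have hM0 : (0 : ℝ) ≤ M := Nat.cast_nonneg _
  -- the pointwise inequality
  have hpt : ∀ p : ℕ, p.Prime → 0 ≤ ((pri E p).card : ℝ) + 2 * (M + 1) * PT.ind T0 p + 2 * (M + 1) * PT.ind {q | q ∣ B2} p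
      - 2 * (PT.rt g p : ℝ) := by
    intro p hp
    have h1 : (PT.rt g p : ℝ) ≤ M := by exact_mod_cast hM p hp
    have h2 : (0 : ℝ) ≤ ((pri E p).card : ℝ) := Nat.cast_nonneg _
    by_cases h3 : p ∈ T0
    · have h4 : PT.ind T0 p = 1 := by simp [PT.ind, h3]
      have h5 : 0 ≤ PT.ind {q | q ∣ B2} p := by
        unfold PT.ind
        split_ifs <;> norm_num
      rw [h4]
      nlinarith
    · by_cases h4 : p ∣ B2
      · have h5 : PT.ind {q | q ∣ B2} p = 1 := by simp [PT.ind, h4]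
        have h6 : PT.ind T0 p = 0 := by simp [PT.ind, h3]
        rw [h5, h6]
        nlinarith
      · have h5 : PT.ind {q | q ∣ B2} p = 0 := by simp [PT.ind, h4]
        have h6 : PT.ind T0 p = 0 := by simp [PT.ind, h3]
        have h7 : ∀ t : ZMod p, (red p g).eval t = 0 → IsSquare ((red p d).eval t) := by
          intro t ht
          by_contra h8
          exact h3 ⟨hp, t, ht, h8⟩
        obtain ⟨F, hF1, hF2⟩ := hE p hp h4 h7
        have h8 : F ⊆ pri E p := fun P hP => (mem_pri E p P).2 (hF2 P hP)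
        have h9 : ((2 * PT.rt g p : ℕ) : ℝ) ≤ ((pri E p).card : ℝ) := by
          rw [← hF1]
          exact_mod_cast Finset.card_le_card h8
        push_cast at h9
        rw [h5, h6]
        linarith
  have hlin : ∀ x : ℝ, PT.PS (fun p => ((pri E p).card : ℝ) + 2 * (M + 1) * PT.ind T0 p + 2 * (M + 1) * PT.ind {q | q ∣ B2} p
      - 2 * (PT.rt g p : ℝ)) x = PT.PS (fun p => ((pri E p).card : ℝ)) x + 2 * (M + 1) * PT.PS (PT.ind T0) x
      + 2 * (M + 1) * PT.PS (PT.ind {q | q ∣ B2}) x - 2 * PT.PS (fun p => (PT.rt g p : ℝ)) x := by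
    intro x
    unfold PT.PS
    rw [Finset.mul_sum, Finset.mul_sum, Finset.mul_sum, ← Finset.sum_add_distrib, ← Finset.sum_add_distrib, ← Finset.sum_sub_distrib]
    refine Finset.sum_congr rfl fun p _ => ?_
    ring
  have hB : ∀ x : ℝ, PT.PS (PT.ind {q | q ∣ B2}) x ≤ B2 := by
    intro x
    unfold PT.PS
    have h1 : ∑ p ∈ (Icc 1 ⌊x⌋₊).filter Nat.Prime, PT.ind {q | q ∣ B2} p / p
        ≤ ∑ p ∈ (Icc 1 ⌊x⌋₊).filter Nat.Prime, if p ∣ B2 then (1 : ℝ) else 0 := by
      refine Finset.sum_le_sum fun p hp => ?_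
      have hp1 : (1 : ℝ) ≤ p := by exact_mod_cast (Finset.mem_Icc.1 (Finset.mem_filter.1 hp).1).1
      unfold PT.ind
      by_cases h : p ∣ B2
      · rw [if_pos (show p ∈ {q | q ∣ B2} from h), if_pos h]
        exact (div_le_one (by linarith)).2 hp1
      · rw [if_neg (show ¬ p ∈ {q | q ∣ B2} from h), if_neg h]
        simp
    refine h1.trans ?_
    rw [← Finset.sum_filter, Finset.sum_const, nsmul_eq_mul, mul_one]
    have h5 : ((Icc 1 ⌊x⌋₊).filter Nat.Prime).filter (· ∣ B2) ⊆ B2.divisors := by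
      intro p hp
      rw [Finset.mem_filter] at hp
      exact Nat.mem_divisors.2 ⟨hp.2, hB2⟩
    have h6 := (Finset.card_le_card h5).trans (Nat.card_divisors_le_self B2)
    exact_mod_cast h6
  have hB0 : ∀ x : ℝ, 0 ≤ PT.PS (PT.ind {q | q ∣ B2}) x := by
    intro x
    unfold PT.PS
    refine Finset.sum_nonneg fun p _ => div_nonneg ?_ (Nat.cast_nonneg _)
    unfold PT.ind
    split_ifs <;> norm_num
  have hK : (0 : ℝ) < 2 * (M + 1) := by positivity
  refine ⟨1 / (2 * (M + 1)), (2 * C1 + 2 * C2 + C3 + C4 + 2 * (M + 1) * B2) / (2 * (M + 1)), by positivity, ?_⟩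
  intro x y hx hxy
  have hy : 2 ≤ y := hx.trans hxy
  have h1 := PS_mono _ hpt hxy
  rw [hlin, hlin] at h1
  have h2 := hC1 y hy
  have h3 := hC2 x hx
  have h4 := hC3 y hy
  have h5 := hC4 x hx
  have h6 := mul_le_mul_of_nonneg_left (hB y) hK.le
  have h7 := mul_nonneg hK.le (hB0 x)
  rw [div_mul_eq_mul_div, ← sub_div, div_le_iff₀ hK]
  nlinarith
end TR
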