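import Pool.Agent.Lib.MP_10e784_ag.TW.TWDesc1
import Pool.Agent.Lib.MP_10e784_agTR.TWGood
import Pool.Agent.Lib.MP_10e784_ag.PT.PTLocal
import Pool.Agent.Lib.MP_10e784_ag.PT.PTDec
import Pool.Agent.Lib.MP_10e784_ag.PT.PTBad

/-! The descent for the family.

`M1` from `good_exists`, `M i` from `desc1` for `g i` (`hg.monic i`, `hg.irr i`), `B = M1 * ∏ M i * a.natAbs`; this `B` is the `M` of the theorem.  `C i` from `desc1` for `B`, `C₀ = 1 + ∑ C i`.
`hsep` for `PT.dec_PT` (`c = a`, `H i = PT.hom (g i) u v`): let `p ∤ B` be prime, `p ∣ H i`, `p ∣ H j`, `i ≠ j`.  `p ∤ v` (`PT.hom_unit`, leading coefficient `1`), so there is `r` with `p ∣ r v - u` (`PT.ptlocal_inv` or Bezout) and `p ∣ (g i).eval r`, `p ∣ (g j).eval r` (`PT.hom_mod`), so `(X - C r) ^ 2 ∣ red p (∏ g)`, against `GoodP.sqf`.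
`PT.dec_PT` gives `g0, s, e, w`.  `desc1` for every `i` (`e i` squarefree as a divisor of `∏ e`) gives `A i`; put `x ⟨i, k⟩ = (A i).coeff k`.  Then `pol g x i = A i` over `ℤ`, hence `pol g (fun c => (x c : ZMod p)) i = red p (A i)` and the same over `ℚ` with `qq`.
Let `ℓ = red p (C u - C v * X)` for a prime `p ∤ B`; `ℓ ≠ 0` since `u, v` are coprime.  (*) If a monic irreducible `h` divides `ℓ` then `h` has degree `1`, `h = X - C t`, `v ≠ 0` and `v t = u` in `ZMod p`, so `ℓ = C v * (C t - X)`; and the only monic irreducible divisor of `ℓ` is `X - C t`.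
`Loc`: suppose the first alternative of `Al` fails: `h ∣ red p (g i₀)`, `h ∣ red p (A i₀)`.  The second part of the last conjunct of `desc1` shows `h ∣ ℓ`, so `h = X - C t` as in (*); take `s = v`.  For all `i` and `h' ≠ X - C t` with `h' ∣ red p (g i)`: `h' ∤ ℓ` by (*), so `desc1` gives `¬ h' ∣ red p (A i)` and `h' ∣ red p (A i) * ℓ - Q ^ 2`.
`p ∣ e i ↔ ..`: (⇐) `h ∣ red p (A i)` forces `h ∣ ℓ` (as above), so `p ∣ e i` by the first part.  (⇒) `p ∣ e i` implies `p ∣ H i`, so `p ∤ v`, `t = u / v` is a root of `red p (g i)` (`hom_mod`), `h = X - C t` divides `ℓ` and `red p (g i)`, so it divides `red p (A i)` by the first part. -/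

namespace TR

open TW

open Polynomial Finset

theorem desc_red_lin (p : ℕ) (u v : ℤ) :
    red p (C u - C v * X) = C (u : ZMod p) - C (v : ZMod p) * X := by
  unfold red
  simp

/-- the monic irreducible divisors of the linear form -/
theorem desc_lin (p : ℕ) [Fact p.Prime] (u v : ℤ) (huv : IsCoprime u v) (h : (ZMod p)[X])
    (hm : h.Monic) (hi : Irreducible h) (hd : h ∣ red p (C u - C v * X)) :
    (v : ZMod p) ≠ 0 ∧ h = X - C ((u : ZMod p) / v) ∧
      red p (C u - C v * X) = C (v : ZMod p) * (C ((u : ZMod p) / v) - X) := by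
  rw [desc_red_lin] at hd ⊢
  have hv : (v : ZMod p) ≠ 0 := by
    intro hv0
    obtain ⟨α, β, hαβ⟩ := huv
    have h1 : (α : ZMod p) * (u : ZMod p) = 1 := by
      have h2 := congrArg (fun z : ℤ => (z : ZMod p)) hαβ
      push_cast at h2
      rw [hv0, mul_zero, add_zero] at h2
      exact h2
    have hu0 : (u : ZMod p) ≠ 0 := by
      intro h0
      rw [h0, mul_zero] at h1
      exact zero_ne_one h1
    rw [hv0, C_0, zero_mul, sub_zero] at hd
    exact hi.not_isUnit (isUnit_of_dvd_unit hd (isUnit_C.2 (isUnit_iff_ne_zero.2 hu0)))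
  have hl : C (u : ZMod p) - C (v : ZMod p) * X
      = C (v : ZMod p) * (C ((u : ZMod p) / v) - X) := by
    rw [mul_sub, ← C_mul, mul_div_cancel₀ _ hv]
  refine ⟨hv, ?_, hl⟩
  rw [hl] at hd
  have hunit : IsUnit (C (v : ZMod p)) := isUnit_C.2 (isUnit_iff_ne_zero.2 hv)
  have hd2 : h ∣ C ((u : ZMod p) / v) - X := (hunit.dvd_mul_left).1 hd
  have hd3 : h ∣ X - C ((u : ZMod p) / v) := by
    have h4 : X - C ((u : ZMod p) / v) = -(C ((u : ZMod p) / v) - X) := by ring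
    rw [h4]
    exact (dvd_neg).2 hd2
  exact eq_of_monic_of_associated hm (monic_X_sub_C _)
    (hi.associated_of_dvd (irreducible_X_sub_C _) hd3)

theorem desc_pol {ι R : Type} [CommRing R] (g : ι → ℤ[X]) (A : ι → ℤ[X])
    (hA : ∀ i, (A i).natDegree < (g i).natDegree) (i : ι) :
    pol g (fun c : Co g => (((A c.1).coeff (c.2 : ℕ) : ℤ) : R)) i
      = (A i).map (Int.castRingHom R) := by
  unfold pol
  conv_rhs => rw [(A i).as_sum_range_C_mul_X_pow' (hA i)]
  rw [Polynomial.map_sum, Finset.sum_range]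
  exact Finset.sum_congr rfl (fun k _ => by simp)

/-- a common root modulo a prime -/
theorem desc_root (G : ℤ[X]) (hG : G.Monic) (p : ℕ) (hp : p.Prime) (u v : ℤ)
    (huv : IsCoprime u v) (h : (p : ℤ) ∣ PT.hom G u v) :
    ¬ (p : ℤ) ∣ v ∧ ∀ r : ℤ, (p : ℤ) ∣ r * v - u → (p : ℤ) ∣ G.eval r := by
  have hpz : Prime (p : ℤ) := Nat.prime_iff_prime_int.mp hp
  have hv : ¬ (p : ℤ) ∣ v := by
    intro hb
    refine PT.hom_unit G p hp u v huv ?_ hb h
    rw [hG.leadingCoeff]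
    exact fun h1 => hpz.not_isUnit (isUnit_of_dvd_one h1)
  refine ⟨hv, fun r hr => ?_⟩
  have h1 := PT.hom_mod G p u v r hr
  have h2 : (p : ℤ) ∣ v ^ G.natDegree * G.eval r := by
    have h3 := dvd_sub h h1
    rwa [sub_sub_cancel] at h3
  rcases hpz.dvd_or_dvd h2 with h3 | h3
  · exact absurd (hpz.dvd_of_dvd_pow h3) hv
  · exact h3

theorem desc_eval_red (G : ℤ[X]) (p : ℕ) (r : ℤ) :
    (red p G).eval (r : ZMod p) = ((G.eval r : ℤ) : ZMod p) := by
  unfold red
  rw [Polynomial.eval_intCast_map]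
  simp

theorem desc {ι : Type} [Fintype ι] [DecidableEq ι] {g : ι → ℤ[X]} (hg : Fam g) (a : ℤ) (ha : a ≠ 0) :
    ∃ (C₀ : ℝ) (M : ℕ), 1 ≤ C₀ ∧ M ≠ 0 ∧ ∀ D : ℤ, Squarefree D → ∀ u v : ℤ, IsCoprime u v →
      (∀ i, PT.hom (g i) u v ≠ 0) → IsSquare (D * a * ∏ i, PT.hom (g i) u v) →
      ∃ (g0 : ℤ) (e : ι → ℕ) (x : Co g → ℤ), g0.natAbs ∣ M ∧ D = g0 * ∏ i, (e i : ℤ) ∧ Squarefree (∏ i, e i) ∧
        (∀ p : ℕ, p.Prime → p ∣ ∏ i, e i → ¬ p ∣ M) ∧
        (∀ c : Co g, |(x c : ℝ)| ≤ C₀ * (e c.1 : ℝ) ^ ((1 : ℝ) / (g c.1).natDegree)) ∧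
        Loc g M x ∧
        (∀ p : ℕ, p.Prime → ¬ p ∣ M → ∀ i, (p ∣ e i ↔ ∃ h : (ZMod p)[X], h.Monic ∧ Irreducible h ∧ h ∣ red p (g i) ∧
          h ∣ pol g (fun c => (x c : ZMod p)) i)) ∧
        (∀ i, ∃ κ : ℚ[X], ¬ qq (g i) ∣ κ ∧
          qq (g i) ∣ pol g (fun c => (x c : ℚ)) i - (C (u : ℚ) - C (v : ℚ) * X) * κ ^ 2) := by
  obtain ⟨M1, hM1, hgood⟩ := good_exists hg
  choose M hM0 hM using fun i => desc1 (g i) (hg.monic i) (hg.irr i)
  set B : ℕ := M1 * (∏ i, M i) * a.natAbs with hB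
  have hB0 : B ≠ 0 := by
    rw [hB]
    exact mul_ne_zero (mul_ne_zero hM1 (Finset.prod_ne_zero_iff.2 fun i _ => hM0 i))
      (Int.natAbs_ne_zero.2 ha)
  have hM1B : M1 ∣ B := by
    rw [hB, mul_assoc]
    exact dvd_mul_right _ _
  have hMB : ∀ i, M i ∣ B := by
    intro i
    rw [hB]
    exact Dvd.dvd.mul_right (Dvd.dvd.mul_left (Finset.dvd_prod_of_mem M (mem_univ i)) _) _
  have haB : a.natAbs ∣ B := by
    rw [hB]
    exact dvd_mul_left _ _
  choose Cc hCc0 hCc using fun i => hM i B hB0 (hMB i)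
  have hCsum : ∀ i, Cc i ≤ 1 + ∑ j, Cc j := by
    intro i
    have := Finset.single_le_sum (f := Cc) (fun j _ => (hCc0 j).le) (mem_univ i)
    linarith
  refine ⟨1 + ∑ i, Cc i, B, ?_, hB0, ?_⟩
  · have : 0 ≤ ∑ i, Cc i := Finset.sum_nonneg (fun i _ => (hCc0 i).le)
    linarith
  intro D hD u v huv hne hsq
  have hsep : ∀ p : ℕ, p.Prime → ¬ p ∣ B → ∀ i j, i ≠ j → (p : ℤ) ∣ PT.hom (g i) u v →
      ¬ (p : ℤ) ∣ PT.hom (g j) u v := by
    intro p hp hpB i j hij hi hj
    have : Fact p.Prime := ⟨hp⟩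
    obtain ⟨hv, hri⟩ := desc_root (g i) (hg.monic i) p hp u v huv hi
    obtain ⟨-, hrj⟩ := desc_root (g j) (hg.monic j) p hp u v huv hj
    obtain ⟨r, hr⟩ := PT.ptlocal_inv p hp u v hv
    have hroot : ∀ k, (p : ℤ) ∣ (g k).eval r → X - C (r : ZMod p) ∣ red p (g k) := by
      intro k hk
      rw [dvd_iff_isRoot, IsRoot.def, desc_eval_red]
      exact (ZMod.intCast_zmod_eq_zero_iff_dvd _ p).2 hk
    have hpM1 : ¬ p ∣ M1 := fun h => hpB (h.trans hM1B)
    have hsqf := (hgood p hp hpM1).sqf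
    have hdd : (X - C (r : ZMod p)) * (X - C (r : ZMod p)) ∣ red p (∏ k, g k) := by
      have h1 : red p (∏ k, g k) = ∏ k, red p (g k) := by
        unfold red
        rw [Polynomial.map_prod]
      rw [h1, ← Finset.mul_prod_erase univ _ (mem_univ i),
        ← Finset.mul_prod_erase (univ.erase i) _ (Finset.mem_erase.2 ⟨hij.symm, mem_univ j⟩),
        ← mul_assoc]
      exact Dvd.dvd.mul_right (mul_dvd_mul (hroot i (hri r hr)) (hroot j (hrj r hr))) _
    exact (irreducible_X_sub_C (r : ZMod p)).not_isUnit (hsqf _ hdd)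
  obtain ⟨g0, s, e, w, hg0, hs, hDe, hE, hEp, hH⟩ :=
    PT.dec_PT B hB0 D a (fun i => PT.hom (g i) u v) hD ha haB hne hsq hsep
  have hei : ∀ i, e i ∣ ∏ i, e i := fun i => Finset.dvd_prod_of_mem e (mem_univ i)
  choose A hAdeg hAc hAk hAloc using fun i =>
    hCc i u v huv (hne i) (s i) (e i) (w i) (hH i) (hs i) (hE.squarefree_of_dvd (hei i))
      (fun p hp hpe => hEp p hp (hpe.trans (hei i)))
  have hpolZ : ∀ (p : ℕ) (i : ι),
      pol g (fun c : Co g => (((A c.1).coeff (c.2 : ℕ) : ℤ) : ZMod p)) i = red p (A i) :=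
    fun p i => desc_pol g A hAdeg i
  have hpolQ : ∀ (i : ι),
      pol g (fun c : Co g => (((A c.1).coeff (c.2 : ℕ) : ℤ) : ℚ)) i = qq (A i) :=
    fun i => desc_pol g A hAdeg i
  refine ⟨g0, e, fun c => (A c.1).coeff (c.2 : ℕ), hg0, hDe, hE, hEp, ?_, ?_, ?_, ?_⟩
  · intro c
    refine (hAc c.1 (c.2 : ℕ)).trans ?_
    exact mul_le_mul_of_nonneg_right (hCsum c.1) (by positivity)
  · intro p hp hpB
    have : Fact p.Prime := ⟨hp⟩
    unfold Al
    simp only [hpolZ p]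
    by_cases hall : ∀ i, ∀ h : (ZMod p)[X], h.Monic → Irreducible h → h ∣ red p (g i) →
        ¬ h ∣ red p (A i)
    · exact Or.inl hall
    · right
      push Not at hall
      obtain ⟨i₀, h, hm, hi, hhg, hhA⟩ := hall
      have hhl : h ∣ red p (C u - C v * X) := by
        by_contra hnl
        exact ((hAloc i₀ p hp hpB h hm hi hhg).2 hnl).1 hhA
      obtain ⟨hv, ht, hl⟩ := desc_lin p u v huv h hm hi hhl
      refine ⟨i₀, (u : ZMod p) / v, (v : ZMod p), hv, ?_, ?_, ?_⟩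
      · rw [← IsRoot.def, ← dvd_iff_isRoot, ← ht]
        exact hhg
      · rw [← IsRoot.def, ← dvd_iff_isRoot, ← ht]
        exact hhA
      · intro i h' hm' hi' hhg' hne'
        have hnl : ¬ h' ∣ red p (C u - C v * X) := by
          intro hd
          exact hne' (desc_lin p u v huv h' hm' hi' hd).2.1
        obtain ⟨h1, Q, hQ⟩ := (hAloc i p hp hpB h' hm' hi' hhg').2 hnl
        refine ⟨h1, Q, ?_⟩
        rw [mul_assoc, ← hl]
        exact hQ
  · intro p hp hpB i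
    have : Fact p.Prime := ⟨hp⟩
    simp only [hpolZ p]
    constructor
    · intro hpe
      have hpH : (p : ℤ) ∣ PT.hom (g i) u v := by
        have h1 := hH i
        rw [h1]
        have h2 : (p : ℤ) ∣ (e i : ℤ) := by exact_mod_cast hpe
        exact Dvd.dvd.mul_right (Dvd.dvd.mul_left h2 _) _
      obtain ⟨hv, hri⟩ := desc_root (g i) (hg.monic i) p hp u v huv hpH
      obtain ⟨r, hr⟩ := PT.ptlocal_inv p hp u v hv
      have hhg : X - C (r : ZMod p) ∣ red p (g i) := by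
        rw [dvd_iff_isRoot, IsRoot.def, desc_eval_red]
        exact (ZMod.intCast_zmod_eq_zero_iff_dvd _ p).2 (hri r hr)
      have hhl : X - C (r : ZMod p) ∣ red p (C u - C v * X) := by
        rw [dvd_iff_isRoot, IsRoot.def, desc_red_lin]
        have h1 : ((r * v - u : ℤ) : ZMod p) = 0 :=
          (ZMod.intCast_zmod_eq_zero_iff_dvd _ p).2 hr
        push_cast at h1
        simp only [eval_sub, eval_C, eval_mul, eval_X]
        linear_combination -h1
      exact ⟨X - C (r : ZMod p), monic_X_sub_C _, irreducible_X_sub_C _, hhg,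
        ((hAloc i p hp hpB _ (monic_X_sub_C _) (irreducible_X_sub_C _) hhg).1 hhl).2 hpe⟩
    · rintro ⟨h, hm, hi, hhg, hhA⟩
      have hhl : h ∣ red p (C u - C v * X) := by
        by_contra hnl
        exact ((hAloc i p hp hpB h hm hi hhg).2 hnl).1 hhA
      exact ((hAloc i p hp hpB h hm hi hhg).1 hhl).1 hhA
  · intro i
    rw [hpolQ i]
    exact hAk i

end TR
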