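import Pool.Agent.Lib.MP_10e784_agTR.Defs

/-! JOB TWVol.  The box and its volume.

With `R c = C 2 ^ (j / n) ≥ 1` (`C ≥ 1`), `⌊R⌋₊ = r`: `|x| ≤ R ↔ |x| ≤ r ↔ -r ≤ x < -r + (2 r + 1)` for integers `x`; `H = 2 r + 1`, `H ≤ 2 R + 1 ≤ 3 R` and `H ≥ 2 (R - 1) + 1 = 2 R - 1 ≥ R`.  The product of `3 C 2 ^ (j i / n i)` over `c : Co g` is `∏ i, (3 C 2 ^ (j i / n i)) ^ n i = (3 C) ^ N * 2 ^ (∑ j i)`
(`Finset.prod_sigma'`/`Fintype.prod_sigma`, `n i ≥ 1` by irreducibility). -/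

namespace TR

open TW

open Polynomial Finset

/-- the lower corner of the box -/
noncomputable def ba {ι : Type} (g : ι → ℤ[X]) (C : ℝ) (j : ι → ℕ) (c : Co g) : ℤ :=
  -(⌊C * (2 : ℝ) ^ ((j c.1 : ℝ) / ((g c.1).natDegree : ℝ))⌋₊ : ℤ)

/-- the side lengths of the box -/
noncomputable def bH {ι : Type} (g : ι → ℤ[X]) (C : ℝ) (j : ι → ℕ) (c : Co g) : ℕ :=
  2 * ⌊C * (2 : ℝ) ^ ((j c.1 : ℝ) / ((g c.1).natDegree : ℝ))⌋₊ + 1

theorem bx_iff {ι : Type} (g : ι → ℤ[X]) (C : ℝ) (hC : 1 ≤ C) (j : ι → ℕ) (x : Co g → ℤ) :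
    Bx g C j x ↔ ∀ c, ba g C j c ≤ x c ∧ x c < ba g C j c + bH g C j c := by
  unfold Bx ba bH
  refine forall_congr' fun c => ?_
  have hR0 : 0 ≤ C * (2 : ℝ) ^ ((j c.1 : ℝ) / ((g c.1).natDegree : ℝ)) := by positivity
  have h1 : |(x c : ℝ)| = ((x c).natAbs : ℝ) := by
    rw [← Int.cast_abs, Int.abs_eq_natAbs, Int.cast_natCast]
  rw [h1, ← Nat.le_floor_iff hR0]
  generalize ⌊C * (2 : ℝ) ^ ((j c.1 : ℝ) / ((g c.1).natDegree : ℝ))⌋₊ = r
  push_cast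
  omega

private theorem twvol_one_le {ι : Type} (g : ι → ℤ[X]) (j : ι → ℕ) (c : Co g) :
    1 ≤ (2 : ℝ) ^ ((j c.1 : ℝ) / ((g c.1).natDegree : ℝ)) :=
  Real.one_le_rpow (by norm_num) (by positivity)

theorem bH_low {ι : Type} (g : ι → ℤ[X]) (C : ℝ) (hC : 1 ≤ C) (j : ι → ℕ) (c : Co g) :
    (2 : ℝ) ^ ((j c.1 : ℝ) / ((g c.1).natDegree : ℝ)) ≤ bH g C j c := by
  have h1 := twvol_one_le g j c
  have h2 := Nat.lt_floor_add_one (C * (2 : ℝ) ^ ((j c.1 : ℝ) / ((g c.1).natDegree : ℝ)))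
  unfold bH
  push_cast
  nlinarith

private theorem twvol_up {ι : Type} (g : ι → ℤ[X]) (C : ℝ) (hC : 1 ≤ C) (j : ι → ℕ) (c : Co g) :
    (bH g C j c : ℝ) ≤ 3 * C * (2 : ℝ) ^ ((j c.1 : ℝ) / ((g c.1).natDegree : ℝ)) := by
  have h1 := twvol_one_le g j c
  have hR0 : 0 ≤ C * (2 : ℝ) ^ ((j c.1 : ℝ) / ((g c.1).natDegree : ℝ)) := by positivity
  have h2 := Nat.floor_le hR0
  unfold bH
  push_cast
  nlinarith

theorem bH_prod {ι : Type} [Fintype ι] {g : ι → ℤ[X]} (hg : Fam g) (C : ℝ) (hC : 1 ≤ C) (j : ι → ℕ) :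
    (∏ c, (bH g C j c : ℝ)) ≤ (3 * C) ^ (∑ i, (g i).natDegree) * 2 ^ (∑ i, j i) := by
  have hn : ∀ i, (g i).natDegree ≠ 0 := by
    intro i
    have h := (hg.irr i).natDegree_pos
    have h2 : ((g i).map (Int.castRingHom ℚ)).natDegree = (g i).natDegree :=
      (hg.monic i).natDegree_map _
    omega
  calc (∏ c, (bH g C j c : ℝ))
      ≤ ∏ c : Co g, (3 * C * (2 : ℝ) ^ ((j c.1 : ℝ) / ((g c.1).natDegree : ℝ))) :=
        Finset.prod_le_prod (fun c _ => Nat.cast_nonneg _) fun c _ => twvol_up g C hC j c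
    _ = ∏ i, ∏ _k : Fin (g i).natDegree, (3 * C * (2 : ℝ) ^ ((j i : ℝ) / ((g i).natDegree : ℝ))) :=
        Fintype.prod_sigma _
    _ = ∏ i, ((3 * C) ^ (g i).natDegree * 2 ^ (j i)) := by
        refine Finset.prod_congr rfl fun i _ => ?_
        rw [Finset.prod_const, Finset.card_univ, Fintype.card_fin, mul_pow]
        congr 1
        rw [← Real.rpow_natCast, ← Real.rpow_mul (by norm_num),
          div_mul_cancel₀ _ (Nat.cast_ne_zero.2 (hn i)), Real.rpow_natCast]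
    _ = (3 * C) ^ (∑ i, (g i).natDegree) * 2 ^ (∑ i, j i) := by
        rw [Finset.prod_mul_distrib, Finset.prod_pow_eq_pow_sum, Finset.prod_pow_eq_pow_sum]

theorem bx_card {ι : Type} [Fintype ι] {g : ι → ℤ[X]} (hg : Fam g) (C : ℝ) (hC : 1 ≤ C) (j : ι → ℕ) :
    Finite {x : Co g → ℤ // Bx g C j x} ∧
    (Nat.card {x : Co g → ℤ // Bx g C j x} : ℝ) ≤ (3 * C) ^ (∑ i, (g i).natDegree) * 2 ^ (∑ i, j i) := by
  classical
  have e : {x : Co g → ℤ // Bx g C j x} ≃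
      {x : Co g → ℤ // x ∈ Fintype.piFinset fun c => Finset.Ico (ba g C j c)
        (ba g C j c + bH g C j c)} := by
    refine Equiv.subtypeEquivRight fun x => ?_
    rw [bx_iff g C hC j x, Fintype.mem_piFinset]
    simp only [Finset.mem_Ico]
  refine ⟨Finite.of_equiv _ e.symm, ?_⟩
  rw [Nat.card_congr e, Nat.card_eq_fintype_card, Fintype.card_coe, Fintype.card_piFinset]
  push_cast
  refine le_trans (le_of_eq ?_) (bH_prod hg C hC j)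
  refine Finset.prod_congr rfl fun c _ => ?_
  rw [Int.card_Ico]
  simp

end TR
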