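import Pool.Agent.Lib.MP_10e784_agTR.TWPw
import Pool.Agent.Lib.MP_10e784_agTR.TWVol

/-! JOB TWLayer.  The layers.

`SS g M C j` is finite (subset of the box: `bx_card`).
`pwS`: for `x ∈ SS g M C (Function.update k i₀ m)` let `y` be the vector which agrees with `x` at the coordinates `c` with `c.1 ≠ i₀` and is `0` at the others: it is an element of the finite set `Y` of the integral vectors with `|y c| ≤ C 2 ^ (k c.1 / n)` for `c.1 ≠ i₀` and `y c = 0` for `c.1 = i₀` (a subset of `{y | Bx g C k y}`), which does not depend on `m`.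
`pol g y i = pol g x i` for `i ≠ i₀`, so `pol g y i ≠ 0` for `i ≠ i₀` and `¬ Triv g i₀ (pol g y)` (`Triv g i₀` only involves the indices `i ≠ i₀`).  So `Nat.card (SS ..)` is at most the sum over the `y ∈ Y` with these two properties of the cardinals in `pw` (for `c.1 = i₀` the box condition of `Bx` with `j i₀ = m` is the one in `pw`; rewrite along `c.1 = i₀`), and each quotient by `2 ^ m` tends to `0` (`tendsto_finset_sum`, squeeze). -/

namespace TR

open TW

open Polynomial Finset Filter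

/-- the relevant vectors in the box -/
def SS {ι : Type} (g : ι → ℤ[X]) (M : ℕ) (C : ℝ) (j : ι → ℕ) : Set (Co g → ℤ) :=
  {x | Bx g C j x ∧ Loc g M x ∧ (∀ i, pol g x i ≠ 0) ∧ ∀ i₀, ¬ Triv g i₀ (fun i => pol g (fun c => (x c : ℚ)) i)}

theorem ss_le {ι : Type} [Fintype ι] [DecidableEq ι] {g : ι → ℤ[X]} (hg : Fam g) (M : ℕ) (C : ℝ) (hC : 1 ≤ C) (j : ι → ℕ) :
    (SS g M C j).Finite ∧ Nat.card (SS g M C j) ≤ Nat.card {x : Co g → ℤ // Bx g C j x ∧ Loc g M x} := by
  have hfin : {x : Co g → ℤ | Bx g C j x}.Finite := (bx_card hg C hC j).1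
  have hfin2 : {x : Co g → ℤ | Bx g C j x ∧ Loc g M x}.Finite := hfin.subset fun x hx => hx.1
  have hsub : SS g M C j ⊆ {x : Co g → ℤ | Bx g C j x ∧ Loc g M x} := fun x hx => ⟨hx.1, hx.2.1⟩
  refine ⟨hfin2.subset hsub, ?_⟩
  have h1 : (SS g M C j).ncard ≤ {x : Co g → ℤ | Bx g C j x ∧ Loc g M x}.ncard :=
    Set.ncard_le_ncard hsub hfin2
  rw [← Nat.card_coe_set_eq, ← Nat.card_coe_set_eq] at h1
  exact h1

/-- the part of a vector away from `i₀` -/
private def twlayer_y {ι : Type} [DecidableEq ι] {g : ι → ℤ[X]} (i₀ : ι) (x : Co g → ℤ) : Co g → ℤ :=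
  fun c => if c.1 = i₀ then 0 else x c

private theorem twlayer_pol {ι : Type} [DecidableEq ι] {g : ι → ℤ[X]} (i₀ : ι) (x : Co g → ℤ) (i : ι)
    (hi : i ≠ i₀) : pol g (twlayer_y i₀ x) i = pol g x i := by
  unfold pol
  refine Finset.sum_congr rfl fun c _ => ?_
  have h1 : twlayer_y i₀ x ⟨i, c⟩ = x ⟨i, c⟩ := if_neg hi
  rw [h1]

private theorem twlayer_polq {ι : Type} [DecidableEq ι] {g : ι → ℤ[X]} (i₀ : ι) (x : Co g → ℤ) (i : ι)
    (hi : i ≠ i₀) : pol g (fun c => (twlayer_y i₀ x c : ℚ)) i = pol g (fun c => (x c : ℚ)) i := by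
  unfold pol
  refine Finset.sum_congr rfl fun c _ => ?_
  have h1 : twlayer_y i₀ x ⟨i, c⟩ = x ⟨i, c⟩ := if_neg hi
  simp only [h1]

private theorem twlayer_triv {ι : Type} [DecidableEq ι] {g : ι → ℤ[X]} (i₀ : ι) (x : Co g → ℤ)
    (h : Triv g i₀ (fun i => pol g (fun c => (twlayer_y i₀ x c : ℚ)) i)) :
    Triv g i₀ (fun i => pol g (fun c => (x c : ℚ)) i) := by
  obtain ⟨h1, c, hc, h2⟩ := h
  refine ⟨h1, c, hc, fun i hi => ?_⟩
  have h3 := h2 i hi
  simp only at h3 ⊢
  rw [twlayer_polq i₀ x i hi] at h3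
  exact h3

theorem pwS {ι : Type} [Fintype ι] [DecidableEq ι] {g : ι → ℤ[X]} (hg : Fam g) (M : ℕ) (hM : M ≠ 0) (C : ℝ) (hC : 1 ≤ C)
    (i₀ : ι) (k : ι → ℕ) :
    Tendsto (fun m : ℕ => (Nat.card (SS g M C (Function.update k i₀ m)) : ℝ) / 2 ^ m) atTop (nhds 0) := by
  classical
  let Y : Set (Co g → ℤ) := {y | Bx g C k y ∧ (∀ i, i ≠ i₀ → pol g y i ≠ 0) ∧
    ¬ Triv g i₀ (fun i => pol g (fun c => (y c : ℚ)) i)}
  have hYfin : Y.Finite := by
    have hfin : {x : Co g → ℤ | Bx g C k x}.Finite := (bx_card hg C hC k).1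
    exact hfin.subset fun x hx => hx.1
  let T : (Co g → ℤ) → ℕ → Set (Co g → ℤ) := fun y m =>
    {x : Co g → ℤ | (∀ c : Co g, c.1 ≠ i₀ → x c = y c) ∧
      (∀ c : Co g, c.1 = i₀ → |(x c : ℝ)| ≤ C * (2 : ℝ) ^ ((m : ℝ) / (g i₀).natDegree)) ∧ Loc g M x}
  have hlim : Tendsto (fun m : ℕ => ∑ y ∈ hYfin.toFinset, ((T y m).ncard : ℝ) / 2 ^ m) atTop (nhds 0) := by
    have h1 : (0 : ℝ) = ∑ y ∈ hYfin.toFinset, (0 : ℝ) := by simp
    rw [h1]
    refine tendsto_finsetSum _ fun y hy => ?_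
    rw [Set.Finite.mem_toFinset] at hy
    have h2 := pw hg M hM C hC i₀ y hy.2.1 hy.2.2
    refine h2.congr fun m => ?_
    rw [← Nat.card_coe_set_eq]
    rfl
  refine squeeze_zero (fun m => by positivity) (fun m => ?_) hlim
  have hTfin : ∀ y ∈ Y, (T y m).Finite := by
    intro y hy
    have hfin : {x : Co g → ℤ | Bx g C (Function.update k i₀ m) x}.Finite :=
      (bx_card hg C hC (Function.update k i₀ m)).1
    refine hfin.subset fun x hx c => ?_
    by_cases hc : c.1 = i₀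
    · have h1 := hx.2.1 c hc
      rw [hc, Function.update_self]
      exact h1
    · rw [hx.1 c hc, Function.update_of_ne hc]
      exact hy.1 c
  have hcover : SS g M C (Function.update k i₀ m) ⊆ ⋃ y ∈ hYfin.toFinset, T y m := by
    intro x hx
    obtain ⟨hx1, hx2, hx3, hx4⟩ := hx
    simp only [Set.mem_iUnion]
    refine ⟨twlayer_y i₀ x, ?_, ?_⟩
    · rw [Set.Finite.mem_toFinset]
      refine ⟨fun c => ?_, fun i hi => ?_, fun h => hx4 i₀ (twlayer_triv i₀ x h)⟩
      · by_cases hc : c.1 = i₀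
        · have h1 : twlayer_y i₀ x c = 0 := if_pos hc
          rw [h1, Int.cast_zero, abs_zero]
          positivity
        · have h1 : twlayer_y i₀ x c = x c := if_neg hc
          have h2 := hx1 c
          rw [Function.update_of_ne hc] at h2
          rw [h1]
          exact h2
      · rw [twlayer_pol i₀ x i hi]
        exact hx3 i
    · refine ⟨fun c hc => ?_, fun c hc => ?_, hx2⟩
      · have h1 : twlayer_y i₀ x c = x c := if_neg hc
        exact h1.symm
      · have h2 := hx1 c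
        rw [hc, Function.update_self] at h2
        exact h2
  have hle : (SS g M C (Function.update k i₀ m)).ncard ≤ ∑ y ∈ hYfin.toFinset, (T y m).ncard := by
    have h1 : (⋃ y ∈ hYfin.toFinset, T y m).Finite := by
      refine Set.Finite.biUnion (Finset.finite_toSet _) fun y hy => ?_
      exact hTfin y (by simpa using hy)
    refine (Set.ncard_le_ncard hcover h1).trans ?_
    exact Finset.set_ncard_biUnion_le _ _
  rw [← Finset.sum_div, Nat.card_coe_set_eq]
  refine div_le_div_of_nonneg_right ?_ (by positivity)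
  exact_mod_cast hle

end TR
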