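import Pool.Agent.Lib.MP_10e784_agTR.Defs

/-! JOB TWFacs.  Irreducible factors modulo `p`.

`mem_facs`: `UniqueFactorizationMonoid.mem_normalizedFactors_iff'` or (`irreducible_of_normalized_factor`, `normalize_normalized_factor`, `dvd_of_mem_normalizedFactors`, and conversely `exists_mem_normalizedFactors_of_dvd` with two monic associated polynomials being equal: `Polynomial.eq_of_monic_of_associated`).
`prod_facs`: `UniqueFactorizationMonoid.prod_normalizedFactors` (associated), both sides monic; squarefree ⇒ `normalizedFactors` has no duplicates (`squarefree_iff_nodup_normalizedFactors`), so the product over the Finset is the multiset product.  `sum_facs`: `natDegree` of the product of monic polynomials (`Polynomial.natDegree_prod_of_monic`).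
`facs_disjoint`: a common irreducible factor `h` of `red p (g i)` and `red p (g j)`, `i ≠ j`, gives `h * h ∣ red p (∏ g)` (`Polynomial.map_prod`, `Finset.mul_prod_erase` twice), contradicting `sqf`.  `red_sqf`: a divisor of a squarefree polynomial is squarefree. -/

namespace TR

open TW

open Polynomial Finset

/-- the set of monic irreducible factors -/
noncomputable def facs {F : Type} [Field F] (f : F[X]) : Finset F[X] := by
  classical exact (UniqueFactorizationMonoid.normalizedFactors f).toFinset

theorem mem_facs {F : Type} [Field F] {f : F[X]} (hf : f ≠ 0) {h : F[X]} :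
    h ∈ facs f ↔ h.Monic ∧ Irreducible h ∧ h ∣ f := by
  classical
  unfold facs
  rw [Multiset.mem_toFinset, UniqueFactorizationMonoid.mem_normalizedFactors_iff' hf]
  constructor
  · rintro ⟨h1, h2, h3⟩
    refine ⟨?_, h1, h3⟩
    rw [← h2]
    exact Polynomial.monic_normalize h1.ne_zero
  · rintro ⟨h1, h2, h3⟩
    exact ⟨h2, h1.normalize_eq_self, h3⟩

theorem prod_facs {F : Type} [Field F] {f : F[X]} (hm : f.Monic) (hs : Squarefree f) : ∏ h ∈ facs f, h = f := by
  classical
  have hf : f ≠ 0 := hm.ne_zero
  have h1 : (∏ h ∈ facs f, h).Monic :=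
    Polynomial.monic_prod_of_monic _ _ (fun h hh => ((mem_facs hf).1 hh).1)
  refine Polynomial.eq_of_monic_of_associated h1 hm ?_
  have h2 : ∏ h ∈ facs f, h = (UniqueFactorizationMonoid.normalizedFactors f).prod := by
    have h3 : (UniqueFactorizationMonoid.normalizedFactors f).Nodup :=
      (UniqueFactorizationMonoid.squarefree_iff_nodup_normalizedFactors hf).1 hs
    unfold facs
    rw [Finset.prod_eq_multiset_prod, Multiset.toFinset_val, h3.dedup, Multiset.map_id']
  rw [h2]
  exact UniqueFactorizationMonoid.prod_normalizedFactors hf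

theorem sum_facs {F : Type} [Field F] {f : F[X]} (hm : f.Monic) (hs : Squarefree f) :
    ∑ h ∈ facs f, h.natDegree = f.natDegree := by
  have hf : f ≠ 0 := hm.ne_zero
  rw [← Polynomial.natDegree_prod_of_monic _ _ (fun h hh => ((mem_facs hf).1 hh).1),
    prod_facs hm hs]

theorem red_monic {ι : Type} [Fintype ι] {g : ι → ℤ[X]} (hg : Fam g) (p : ℕ) [Fact p.Prime] (i : ι) :
    (red p (g i)).Monic ∧ (red p (g i)).natDegree = (g i).natDegree := by
  exact ⟨(hg.monic i).map _, (hg.monic i).natDegree_map _⟩

theorem red_sqf {ι : Type} [Fintype ι] {g : ι → ℤ[X]} (hg : Fam g) (p : ℕ) [Fact p.Prime] (hp : GoodP g p) (i : ι) :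
    Squarefree (red p (g i)) := by
  refine Squarefree.squarefree_of_dvd ?_ hp.sqf
  unfold red
  rw [Polynomial.map_prod]
  exact Finset.dvd_prod_of_mem _ (Finset.mem_univ i)

theorem facs_disjoint {ι : Type} [Fintype ι] {g : ι → ℤ[X]} (hg : Fam g) (p : ℕ) [Fact p.Prime] (hp : GoodP g p)
    {i j : ι} (hij : i ≠ j) {h : (ZMod p)[X]} (h1 : h ∈ facs (red p (g i))) : h ∉ facs (red p (g j)) := by
  classical
  intro h2
  have hi : red p (g i) ≠ 0 := (red_monic hg p i).1.ne_zero
  have hj : red p (g j) ≠ 0 := (red_monic hg p j).1.ne_zero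
  obtain ⟨_, hirr, hd1⟩ := (mem_facs hi).1 h1
  obtain ⟨_, _, hd2⟩ := (mem_facs hj).1 h2
  have h3 : red p (∏ i, g i) = ∏ i, red p (g i) := by
    unfold red
    rw [Polynomial.map_prod]
  have h4 : ∏ i, red p (g i) = red p (g i) * (red p (g j) *
      ∏ k ∈ (Finset.univ.erase i).erase j, red p (g k)) := by
    rw [Finset.mul_prod_erase (Finset.univ.erase i) (fun k => red p (g k))
      (Finset.mem_erase.2 ⟨hij.symm, Finset.mem_univ j⟩),
      Finset.mul_prod_erase Finset.univ (fun k => red p (g k)) (Finset.mem_univ i)]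
  have h5 : h * h ∣ red p (∏ i, g i) := by
    rw [h3, h4]
    exact mul_dvd_mul hd1 (hd2.mul_right _)
  exact hirr.not_isUnit (hp.sqf h h5)

end TR
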