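import Pool.Agent.Lib.MP_10e784_agTR.TWTriv
import Pool.Agent.Lib.MP_10e784_agTR.TWFacs

/-! JOB TWNrm.  The twist class at the rational Weierstrass point is determined by a norm.

`res_sq` (over a field): `resultant f D f.natDegree n = ∏ h ∈ facs f, resultant h D h.natDegree n` (`prod_facs`, `Polynomial.resultant_prod_left` or induction with `resultant_mul_left`); `h ∣ D - B ^ 2`, so `resultant h D h.natDegree n = resultant h (B ^ 2) h.natDegree n'` for large `n'` (`h` monic: the formal degree of the second argument does not matter, and adding a multiple of `h` to it does not matter: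
`resultant_add_mul_right`, `resultant_add_right_deg` etc.), and this is `(resultant h B) ^ 2` (`resultant_mul_right`).  (Alternatively: for monic `f`, `resultant f D = Algebra.norm F (AdjoinRoot.mk f D)` up to nothing, or the product of `D` over the roots in a splitting field.)
`norm_class`: let `r = -(g i₀).coeff 0`, `d i = pol g y i * (C r - X) ∈ ℤ[X]`, `i ≠ i₀`.  `resultant (g i) (d i)` (formal degrees `natDegree`) is nonzero: `qq (g i)` is irreducible of degree `n i ≥ 2` (by `hg.lin`, since `natDegree (g i₀) = 1`), `pol g y i ≠ 0` has smaller degree, and `C r - X` has degree `1`, so `d i` is coprime to `g i` over `ℚ` (`isUnit_resultant_iff_isCoprime`, `resultant_map_map`).  `c = ∏_{i ≠ i₀} resultant (g i) (d i)`.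
Let `p` be good, `p ∤ c`.  The reduction of `resultant (g i) (d i) n m` is `resultant (red p (g i)) (red p (d i)) n m` (`resultant_map_map`), nonzero, so `red p (g i)` (monic of degree `n`) and `red p (d i)` are coprime: the first claim.
Second claim: for `i ≠ i₀` all `h ∣ red p (g i)`: `C s * red p (d i)` is a square modulo `h`, so by `res_sq` `resultant (red p (g i)) (C s * red p (d i)) = s ^ (n i) * resultant (red p (g i)) (red p (d i))` is a square in `ZMod p`.  The product over `i ≠ i₀` is `s ^ (∑_{i ≠ i₀} n i) * c`, and `∑_{i ≠ i₀} n i` is odd (`hg.even`, `natDegree (g i₀) = 1`), so it is `c * s` times a square of a nonzero element; hence `c * s` is a square. -/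

namespace TR

open TW

open Polynomial Finset

private theorem twnrm_add {F : Type} [Field F] (f D : F[X]) (hf : f.Monic) (n k : ℕ) (hn : D.natDegree ≤ n) :
    resultant f D f.natDegree (n + k) = resultant f D f.natDegree n := by
  rw [resultant_add_right_deg _ _ _ _ _ hn, hf.coeff_natDegree, one_pow, one_mul]

private theorem twnrm_sq {F : Type} [Field F] (f D B : F[X]) (hf : f.Monic) (h : f ∣ D - B ^ 2) (n : ℕ)
    (hn : D.natDegree ≤ n) : IsSquare (resultant f D f.natDegree n) := by
  obtain ⟨q, hq⟩ := h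
  have hD : D = B * B + f * q := by linear_combination hq
  have e1 : resultant f D f.natDegree (n + (B.natDegree + B.natDegree + (q.natDegree + f.natDegree))) =
      resultant f D f.natDegree n := twnrm_add f D hf n _ hn
  have e2 : resultant f (B * B + f * q) f.natDegree (n + (B.natDegree + B.natDegree + (q.natDegree + f.natDegree))) =
      resultant f (B * B) f.natDegree (n + (B.natDegree + B.natDegree + (q.natDegree + f.natDegree))) :=
    resultant_add_mul_right _ _ _ _ _ (by omega) le_rfl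
  have e3 : resultant f (B * B) f.natDegree (B.natDegree + B.natDegree + (n + (q.natDegree + f.natDegree))) =
      resultant f (B * B) f.natDegree (B.natDegree + B.natDegree) :=
    twnrm_add f (B * B) hf _ _ natDegree_mul_le
  have e4 := resultant_mul_right f B B f.natDegree le_rfl
  have e5 : n + (B.natDegree + B.natDegree + (q.natDegree + f.natDegree)) =
      B.natDegree + B.natDegree + (n + (q.natDegree + f.natDegree)) := by omega
  refine ⟨resultant f B f.natDegree, ?_⟩
  rw [← e1]
  conv_lhs => rw [hD]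
  rw [e2, e5, e3, e4]

private theorem twnrm_cop {F : Type} [Field F] (f D : F[X]) (hf : f.Monic) (n : ℕ)
    (hn : D.natDegree ≤ n) (h : resultant f D f.natDegree n ≠ 0) : IsCoprime f D := by
  obtain ⟨k, rfl⟩ := Nat.exists_eq_add_of_le hn
  rw [twnrm_add f D hf _ _ le_rfl] at h
  exact (isUnit_resultant_iff_isCoprime hf).1 (isUnit_iff_ne_zero.2 h)

theorem res_sq {F : Type} [Field F] (f D : F[X]) (hf : f.Monic) (hs : Squarefree f)
    (h : ∀ h : F[X], h.Monic → Irreducible h → h ∣ f → ∃ B : F[X], h ∣ D - B ^ 2) (n : ℕ) (hn : D.natDegree ≤ n) :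
    IsSquare (resultant f D f.natDegree n) := by
  classical
  have hne : ∏ h ∈ facs f, (h : F[X]).leadingCoeff ≠ 0 := by
    refine Finset.prod_ne_zero_iff.2 fun h hh => ?_
    rw [((mem_facs hf.ne_zero).1 hh).1.leadingCoeff]
    exact one_ne_zero
  have hP : ∏ h ∈ facs f, h = f := prod_facs hf hs
  have e1 : resultant f D f.natDegree n = resultant (∏ h ∈ facs f, h) D (∏ h ∈ facs f, h).natDegree n := by
    rw [hP]
  have e2 : resultant (∏ h ∈ facs f, h) D (∏ h ∈ facs f, h).natDegree n = ∏ h ∈ facs f, resultant h D h.natDegree n :=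
    resultant_prod_left (facs f) (fun h : F[X] => h) D n hne hn
  rw [e1, e2]
  refine Finset.prod_induction _ IsSquare (fun a b ha hb => ha.mul hb) ⟨1, by simp⟩ fun q hq => ?_
  obtain ⟨h1, h2, h3⟩ := (mem_facs hf.ne_zero).1 hq
  obtain ⟨B, hB⟩ := h q h1 h2 h3
  exact twnrm_sq q D B h1 hB n hn

private theorem twnrm_lt {ι R : Type} [CommRing R] (g : ι → ℤ[X]) (x : Co g → R) (i : ι) :
    (pol g x i).degree < ((g i).natDegree : WithBot ℕ) := by
  unfold pol
  exact Polynomial.degree_sum_fin_lt (fun c : Fin (g i).natDegree => x ⟨i, c⟩)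

/-- the polynomials `d i` -/
private noncomputable def twnrm_d {ι : Type} (g : ι → ℤ[X]) (i₀ : ι) (y : Co g → ℤ) (i : ι) : ℤ[X] :=
  pol g y i * (C (-((g i₀).coeff 0)) - X)

private theorem twnrm_ne {ι : Type} [Fintype ι] {g : ι → ℤ[X]} (hg : Fam g) (i₀ : ι) (h1 : (g i₀).natDegree = 1)
    (y : Co g → ℤ) {i : ι} (hi : i ≠ i₀) (hy : pol g y i ≠ 0) :
    resultant (g i) (twnrm_d g i₀ y i) (g i).natDegree (twnrm_d g i₀ y i).natDegree ≠ 0 := by
  have hinj : Function.Injective (Int.castRingHom ℚ) := Int.cast_injective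
  have hirr : Irreducible (qq (g i)) := hg.irr i
  have hdeg : (qq (g i)).natDegree = (g i).natDegree := natDegree_map_eq_of_injective hinj _
  have hpos : 0 < (qq (g i)).natDegree := hirr.natDegree_pos
  have hd : (twnrm_d g i₀ y i).map (Int.castRingHom ℚ) =
      (pol g y i).map (Int.castRingHom ℚ) * (C (-((g i₀).coeff 0 : ℚ)) - X) := by
    simp [twnrm_d]
  have hc1 : IsCoprime (qq (g i)) ((pol g y i).map (Int.castRingHom ℚ)) := by
    rw [hirr.coprime_iff_not_dvd]
    intro hdvd
    have hne : (pol g y i).map (Int.castRingHom ℚ) ≠ 0 := (Polynomial.map_ne_zero_iff hinj).2 hy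
    have h3 := degree_le_of_dvd hdvd hne
    have h4 : ((pol g y i).map (Int.castRingHom ℚ)).degree < ((g i).natDegree : WithBot ℕ) := by
      rw [pol_map]
      exact twnrm_lt g _ i
    rw [degree_eq_natDegree hirr.ne_zero, hdeg] at h3
    exact absurd (lt_of_le_of_lt h3 h4) (lt_irrefl _)
  have hc2 : IsCoprime (qq (g i)) (C (-((g i₀).coeff 0 : ℚ)) - X) := by
    rw [hirr.coprime_iff_not_dvd]
    intro hdvd
    have hne : (C (-((g i₀).coeff 0 : ℚ)) - X : ℚ[X]) ≠ 0 := by
      rw [← neg_sub]
      exact neg_ne_zero.2 (X_sub_C_ne_zero _)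
    have h3 := natDegree_le_of_dvd hdvd hne
    have h4 : (C (-((g i₀).coeff 0 : ℚ)) - X : ℚ[X]).natDegree ≤ 1 := by
      refine (natDegree_sub_le _ _).trans ?_
      simp
    have h5 : (g i).natDegree = 1 := by omega
    -- both are linear: equal roots
    have h6 : g i = X + C ((g i).coeff 0) := (hg.monic i).eq_X_add_C h5
    have h7 : g i₀ = X + C ((g i₀).coeff 0) := (hg.monic i₀).eq_X_add_C h1
    have h8 : qq (g i) = X + C ((g i).coeff 0 : ℚ) := by
      unfold qq
      conv_lhs => rw [h6]
      simp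
    obtain ⟨Q, hQ⟩ := hdvd
    have h9 := congrArg (eval (-((g i).coeff 0 : ℚ))) hQ
    rw [h8] at h9
    simp only [eval_sub, eval_C, eval_X, eval_mul, eval_add] at h9
    have h10 : ((g i).coeff 0 : ℚ) = ((g i₀).coeff 0 : ℚ) := by linarith
    have h11 : (g i).coeff 0 = (g i₀).coeff 0 := by exact_mod_cast h10
    apply hi
    apply hg.inj
    rw [h6, h7, h11]
  have hc : IsCoprime (qq (g i)) ((twnrm_d g i₀ y i).map (Int.castRingHom ℚ)) := by
    rw [hd]
    exact hc1.mul_right hc2
  have hr := resultant_ne_zero _ _ hc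
  rw [hdeg, natDegree_map_eq_of_injective hinj] at hr
  intro h0
  apply hr
  have h6 := resultant_map_map (g i) (twnrm_d g i₀ y i) (g i).natDegree (twnrm_d g i₀ y i).natDegree (Int.castRingHom ℚ)
  rw [h0, map_zero] at h6
  exact h6

theorem norm_class {ι : Type} [Fintype ι] [DecidableEq ι] {g : ι → ℤ[X]} (hg : Fam g) (i₀ : ι) (h1 : (g i₀).natDegree = 1)
    (y : Co g → ℤ) (hy : ∀ i, i ≠ i₀ → pol g y i ≠ 0) :
    ∃ c : ℤ, c ≠ 0 ∧ ∀ p : ℕ, GoodP g p → ¬ (p : ℤ) ∣ c →
      (∀ i, i ≠ i₀ → ∀ h : (ZMod p)[X], h.Monic → Irreducible h → h ∣ red p (g i) →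
        ¬ h ∣ pol g (fun c => (y c : ZMod p)) i) ∧
      ∀ s : ZMod p, s ≠ 0 → (∀ i, i ≠ i₀ → ∀ h : (ZMod p)[X], h.Monic → Irreducible h → h ∣ red p (g i) →
        ∃ B : (ZMod p)[X], h ∣ pol g (fun c => (y c : ZMod p)) i * C s * (C (-((g i₀).coeff 0 : ZMod p)) - X) - B ^ 2) →
        IsSquare ((c : ZMod p) * s) := by
  classical
  refine ⟨∏ i ∈ univ.erase i₀, resultant (g i) (twnrm_d g i₀ y i) (g i).natDegree (twnrm_d g i₀ y i).natDegree,
    Finset.prod_ne_zero_iff.2 fun i hi => twnrm_ne hg i₀ h1 y (Finset.ne_of_mem_erase hi)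
      (hy i (Finset.ne_of_mem_erase hi)), ?_⟩
  intro p hp hpc
  have : Fact p.Prime := ⟨hp.prime⟩
  have hres : ∀ i, resultant (red p (g i)) (red p (twnrm_d g i₀ y i)) (red p (g i)).natDegree
      (twnrm_d g i₀ y i).natDegree =
      ((resultant (g i) (twnrm_d g i₀ y i) (g i).natDegree (twnrm_d g i₀ y i).natDegree : ℤ) : ZMod p) := by
    intro i
    rw [(red_monic hg p i).2]
    exact resultant_map_map _ _ _ _ (Int.castRingHom (ZMod p))
  have hne : ∀ i, i ≠ i₀ →
      ((resultant (g i) (twnrm_d g i₀ y i) (g i).natDegree (twnrm_d g i₀ y i).natDegree : ℤ) : ZMod p) ≠ 0 := by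
    intro i hi h0
    apply hpc
    rw [ZMod.intCast_zmod_eq_zero_iff_dvd] at h0
    exact h0.trans (Finset.dvd_prod_of_mem _ (Finset.mem_erase.2 ⟨hi, Finset.mem_univ i⟩))
  have hdle : ∀ i, (red p (twnrm_d g i₀ y i)).natDegree ≤ (twnrm_d g i₀ y i).natDegree := fun i => natDegree_map_le
  have hd : ∀ i, red p (twnrm_d g i₀ y i) =
      pol g (fun c => (y c : ZMod p)) i * (C (-((g i₀).coeff 0 : ZMod p)) - X) := by
    intro i
    have h3 := pol_map (Int.castRingHom (ZMod p)) g y i
    simp only [Int.coe_castRingHom] at h3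
    unfold red twnrm_d
    rw [Polynomial.map_mul, h3]
    simp
  refine ⟨?_, ?_⟩
  · intro i hi h hm hirr hdvd hdvd2
    have hc := twnrm_cop (red p (g i)) (red p (twnrm_d g i₀ y i)) (red_monic hg p i).1 _ (hdle i)
      (by rw [hres i]; exact hne i hi)
    apply hirr.not_isUnit
    refine hc.isUnit_of_dvd' hdvd ?_
    rw [hd i]
    exact hdvd2.mul_right _
  · intro s hs hB
    have hsq : ∀ i, i ≠ i₀ → IsSquare (s ^ (g i).natDegree *
        ((resultant (g i) (twnrm_d g i₀ y i) (g i).natDegree (twnrm_d g i₀ y i).natDegree : ℤ) : ZMod p)) := by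
      intro i hi
      have e : pol g (fun c => (y c : ZMod p)) i * C s * (C (-((g i₀).coeff 0 : ZMod p)) - X) =
          C s * red p (twnrm_d g i₀ y i) := by
        rw [hd i]
        ring
      have h4 := res_sq (red p (g i)) (C s * red p (twnrm_d g i₀ y i)) (red_monic hg p i).1 (red_sqf hg p hp i)
        (fun h hm hirr hdvd => by
          obtain ⟨B, hB'⟩ := hB i hi h hm hirr hdvd
          rw [e] at hB'
          exact ⟨B, hB'⟩) (twnrm_d g i₀ y i).natDegree ((natDegree_C_mul_le _ _).trans (hdle i))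
      rw [resultant_C_mul_right, hres i, (red_monic hg p i).2] at h4
      exact h4
    have hprod : IsSquare (∏ i ∈ univ.erase i₀, (s ^ (g i).natDegree *
        ((resultant (g i) (twnrm_d g i₀ y i) (g i).natDegree (twnrm_d g i₀ y i).natDegree : ℤ) : ZMod p))) :=
      Finset.prod_induction _ IsSquare (fun a b ha hb => ha.mul hb) ⟨1, by simp⟩ fun i hi =>
        hsq i (Finset.ne_of_mem_erase hi)
    rw [Finset.prod_mul_distrib, Finset.prod_pow_eq_pow_sum, ← Int.cast_prod] at hprod
    have hodd : Odd (∑ i ∈ univ.erase i₀, (g i).natDegree) := by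
      have h5 := Finset.sum_erase_add univ (fun i => (g i).natDegree) (Finset.mem_univ i₀)
      have h6 := hg.even
      rw [← h5] at h6
      simp only [h1] at h6
      rcases Nat.even_or_odd (∑ i ∈ univ.erase i₀, (g i).natDegree) with h7 | h7
      · obtain ⟨a, ha⟩ := h7
        obtain ⟨b, hb⟩ := h6
        omega
      · exact h7
    obtain ⟨k, hk⟩ := hodd
    rw [hk] at hprod
    obtain ⟨z, hz⟩ := hprod
    refine ⟨z * (s ^ k)⁻¹, ?_⟩
    have hsk : s ^ k ≠ 0 := pow_ne_zero k hs
    have h8 : z * (s ^ k)⁻¹ * (z * (s ^ k)⁻¹) = (z * z) * ((s ^ k)⁻¹ * (s ^ k)⁻¹) := by ring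
    rw [h8, ← hz, pow_add, pow_one, mul_comm 2 k, pow_mul]
    field_simp

end TR
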