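import Pool.Agent.Lib.MP_10e784_agTR.TWGen
import Pool.Agent.Lib.MP_10e784_ag.TW.TWRed

/-!
# MP_10e784_ag: from a rational polynomial of even degree, with any number of rational roots, to a family
-/

set_option autoImplicit false

namespace TR

open Polynomial Finset TW

private theorem redr_f1 (f : ℚ[X]) (hf : Squarefree f) (r : ℚ) (hr : f.eval r = 0) :
    ∃ f1 : ℚ[X], f = (X - C r) * f1 ∧ Squarefree f1 ∧ f1.eval r ≠ 0 := by
  obtain ⟨f1, h1⟩ := dvd_iff_isRoot.2 (show f.IsRoot r from hr)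
  refine ⟨f1, h1, hf.squarefree_of_dvd ⟨X - C r, by rw [h1, mul_comm]⟩, fun h => ?_⟩
  obtain ⟨f2, h2⟩ := dvd_iff_isRoot.2 (show f1.IsRoot r from h)
  have h3 := hf (X - C r) ⟨f2, by rw [h1, h2, mul_assoc]⟩
  exact not_isUnit_X_sub_C r h3

theorem glue1 (f : ℚ[X]) (hf : Squarefree f) (r : ℚ) (hr : f.eval r = 0) (P : ℚ[X])
    (h : ∀ θ : ℂ, aeval θ f = 0 → θ ≠ (r : ℂ) → ∃ B : ℚ[X], aeval θ P = (aeval θ B) ^ 2) :
    ∃ H : ℚ[X], f ∣ (X - C r) * (P - H ^ 2) := by
  obtain ⟨f1, h1, h2, h3⟩ := redr_f1 f hf r hr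
  obtain ⟨H, hH⟩ := sq_glue f1 h2 P (fun θ hθ => by
    refine h θ (by rw [h1, map_mul, hθ, mul_zero]) ?_
    rintro rfl
    apply h3
    have h4 : aeval (r : ℂ) f1 = ((f1.eval r : ℚ) : ℂ) := by
      have := aeval_algebraMap_apply ℂ r f1
      simpa using this
    rw [h4] at hθ
    exact_mod_cast hθ)
  refine ⟨H, ?_⟩
  rw [h1]
  exact mul_dvd_mul_left _ hH

theorem glue2 (f : ℚ[X]) (hf : Squarefree f) (r s : ℚ) (hrs : r ≠ s) (hr : f.eval r = 0) (hs : f.eval s = 0) (P : ℚ[X])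
    (h : ∀ θ : ℂ, aeval θ f = 0 → θ ≠ (r : ℂ) → θ ≠ (s : ℂ) → ∃ B : ℚ[X], aeval θ P = (aeval θ B) ^ 2) :
    ∃ H : ℚ[X], f ∣ (X - C r) * (X - C s) * (P - H ^ 2) := by
  obtain ⟨f1, h1, h2, h3⟩ := redr_f1 f hf r hr
  have hs1 : f1.eval s = 0 := by
    have h4 := hs
    rw [h1, eval_mul, eval_sub, eval_X, eval_C] at h4
    exact (mul_eq_zero.1 h4).resolve_left (sub_ne_zero.2 hrs.symm)
  obtain ⟨H, hH⟩ := glue1 f1 h2 s hs1 P (fun θ hθ hθs => by
    refine h θ (by rw [h1, map_mul, hθ, mul_zero]) ?_ hθs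
    rintro rfl
    apply h3
    have h4 : aeval (r : ℂ) f1 = ((f1.eval r : ℚ) : ℂ) := by
      have := aeval_algebraMap_apply ℂ r f1
      simpa using this
    rw [h4] at hθ
    exact_mod_cast hθ)
  refine ⟨H, ?_⟩
  rw [h1, mul_assoc]
  exact mul_dvd_mul_left _ hH

/-- the index of a root -/
private theorem redr_idx {n : ℕ} (f : ℚ[X]) (q : Fin n → ℚ[X]) (g : Fin n → ℤ[X]) (M : ℤ) (c : ℚ) (hc : c ≠ 0)
    (hF : f = C c * ∏ i, q i) (hg : ∀ i, qq (g i) = (q i).scaleRoots (M : ℚ)) (θ : ℂ) (hθ : aeval θ f = 0) :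
    ∃ i, aeval θ (q i) = 0 ∧ aeval ((M : ℂ) * θ) (qq (g i)) = 0 := by
  rw [hF, map_mul, map_prod, aeval_C] at hθ
  have h5 : algebraMap ℚ ℂ c ≠ 0 := by
    rw [Ne, map_eq_zero]
    exact hc
  obtain ⟨i, -, hi⟩ := Finset.prod_eq_zero_iff.1 ((mul_eq_zero.1 hθ).resolve_left h5)
  refine ⟨i, hi, ?_⟩
  rw [hg i]
  have h6 := scaleRoots_aeval_eq_zero (r := (M : ℚ)) hi
  simpa using h6

/-- the linear members of the family -/
private theorem redr_lin {n : ℕ} (f : ℚ[X]) (q : Fin n → ℚ[X]) (g : Fin n → ℤ[X]) (M : ℤ) (c : ℚ)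
    (hmon : ∀ i, (q i).Monic) (hF : f = C c * ∏ i, q i) (hg : ∀ i, qq (g i) = (q i).scaleRoots (M : ℚ))
    (i : Fin n) (h1 : (g i).natDegree = 1) :
    ∃ r : ℚ, q i = X - C r ∧ f.eval r = 0 ∧ (-((g i).coeff 0 : ℚ)) = M * r := by
  have h3 : (q i).natDegree = 1 := by
    rwa [← natDegree_qq, hg i, natDegree_scaleRoots] at h1
  have h4 := (hmon i).eq_X_add_C h3
  refine ⟨-(q i).coeff 0, ?_, ?_, ?_⟩
  · rw [C_neg, sub_neg_eq_add]
    exact h4
  · have h5 : (q i).eval (-(q i).coeff 0) = 0 := by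
      rw [h4]
      simp
    obtain ⟨e, he⟩ : q i ∣ f := by
      rw [hF]
      exact dvd_mul_of_dvd_right (Finset.dvd_prod_of_mem q (Finset.mem_univ i)) _
    rw [he, eval_mul, h5, zero_mul]
  · have h5 : (qq (g i)).coeff 0 = (((g i).coeff 0 : ℤ) : ℚ) := by
      rw [qq, coeff_map, eq_intCast]
    rw [← h5, hg i, coeff_scaleRoots, h3]
    simp
    ring

theorem red_R (f : ℚ[X]) (hf : Squarefree f) (hdeg : Even f.natDegree) (h6 : 6 ≤ f.natDegree)
    (hK : ∀ r s : ℚ, r ≠ s → f.eval r = 0 → f.eval s = 0 →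
      ∃ p : ℚ[X], Irreducible p ∧ p ∣ f ∧ Odd p.natDegree ∧ p.eval r ≠ 0 ∧ p.eval s ≠ 0)
    (hH : ∀ r s : ℚ, r ≠ s → f.eval r = 0 → f.eval s = 0 → ∀ c : ℚ, c ≠ 0 → ∀ h : ℚ[X],
      ¬ f ∣ (X - C r) * (X - C s) * (C c * (X - C r) * (X - C s) - h ^ 2)) :
    ∃ (n : ℕ) (g : Fin n → ℤ[X]) (a : ℤ), Fam g ∧ OddK g ∧
      (∀ i j, i ≠ j → (g i).natDegree = 1 → (g j).natDegree = 1 → ¬ ∃ c : ℚ, c ≠ 0 ∧ Sq2 g i j c) ∧ a ≠ 0 ∧
      ∀ D : ℤ, D ≠ 0 →
        (∃ x w : ℚ, w ≠ 0 ∧ (D : ℚ) * w ^ 2 = f.eval x ∧ ¬ ∃ r : ℚ, f.eval r = 0 ∧ ∃ c : ℚ, c ≠ 0 ∧ ∃ h : ℚ[X],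
          f ∣ (X - C r) * (C c * (X - C x) * (X - C r) - h ^ 2)) →
        ∃ u v : ℤ, IsCoprime u v ∧ (∀ i, PT.hom (g i) u v ≠ 0) ∧ IsSquare (D * a * ∏ i, PT.hom (g i) u v) ∧
          ∀ i₀, ¬ Triv g i₀ (fun _ => C (u : ℚ) - C (v : ℚ) * X) := by
  obtain ⟨n, q, g, M, c, hM, hc, hFam, hmon, hF, hg⟩ := gen_fam f hf hdeg h6
  have hden : (c.den : ℤ) ≠ 0 := by exact_mod_cast c.den_ne_zero
  have hMQ : (M : ℚ) ≠ 0 := by exact_mod_cast hM
  have hMC : (M : ℂ) ≠ 0 := by exact_mod_cast hM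
  have hqinj : ∀ i j, q i = q j → i = j := by
    intro i j hij
    apply hFam.inj
    have h1 : qq (g i) = qq (g j) := by rw [hg i, hg j, hij]
    exact map_injective (Int.castRingHom ℚ) (RingHom.injective_int _) h1
  have hdvd : ∀ i, q i ∣ f := by
    intro i
    rw [hF]
    exact dvd_mul_of_dvd_right (Finset.dvd_prod_of_mem q (Finset.mem_univ i)) _
  refine ⟨n, g, c.num * c.den, hFam, ?_, ?_, mul_ne_zero (Rat.num_ne_zero.2 hc) hden, ?_⟩
  · -- (K)
    intro i j hij hi hj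
    obtain ⟨r, hqi, hr, -⟩ := redr_lin f q g M c hmon hF hg i hi
    obtain ⟨s, hqj, hs, -⟩ := redr_lin f q g M c hmon hF hg j hj
    have hrs : r ≠ s := by
      rintro rfl
      exact hij (hqinj i j (by rw [hqi, hqj]))
    obtain ⟨p, hp, hpf, hpo, hpr, hps⟩ := hK r s hrs hr hs
    have h1 : p ∣ ∏ i, q i := by
      have h2 : IsUnit (C c : ℚ[X]) := isUnit_C.2 (isUnit_iff_ne_zero.2 hc)
      rw [hF] at hpf
      exact h2.dvd_mul_left.1 hpf
    obtain ⟨k, -, hk⟩ := hp.prime.exists_mem_finset_dvd h1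
    have hqk : Irreducible (q k) := by
      have h2 := hFam.irr k
      have h3 : qq (g k) = (q k).scaleRoots (M : ℚ) := hg k
      obtain ⟨m, q', a', ha', hinj', hmon', hirr', hdvd', hprod', -⟩ := PT.ptreda_factors f hf
      have h4 : q k ∣ ∏ i, q' i := by
        have h5 : IsUnit (C a' : ℚ[X]) := isUnit_C.2 (isUnit_iff_ne_zero.2 ha')
        have h6 := hdvd k
        rw [hprod'] at h6
        exact h5.dvd_mul_left.1 h6
      by_contra hcon
      apply hcon
      refine ⟨fun hu => ?_, fun a b hab => ?_⟩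
      · have h7 := natDegree_eq_zero_of_isUnit hu
        rw [← natDegree_scaleRoots (q k) (M : ℚ), ← h3] at h7
        have h8 := h2.natDegree_pos
        rw [show (g k).map (Int.castRingHom ℚ) = qq (g k) from rfl, h7] at h8
        exact absurd h8 (lt_irrefl 0)
      · have h9 : (g k).map (Int.castRingHom ℚ) = a.scaleRoots (M : ℚ) * b.scaleRoots (M : ℚ) := by
          rw [show (g k).map (Int.castRingHom ℚ) = qq (g k) from rfl, h3, hab, mul_scaleRoots_of_noZeroDivisors]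
        have key : ∀ z : ℚ[X], z ≠ 0 → IsUnit (z.scaleRoots (M : ℚ)) → IsUnit z := by
          intro z hz hu
          have h2 : z.natDegree = 0 := by
            rw [← natDegree_scaleRoots z (M : ℚ)]
            exact natDegree_eq_zero_of_isUnit hu
          rw [eq_C_of_natDegree_eq_zero h2]
          refine isUnit_C.2 (isUnit_iff_ne_zero.2 fun h3 => hz ?_)
          rw [eq_C_of_natDegree_eq_zero h2, h3, C_0]
        have ha0 : a ≠ 0 := by
          rintro rfl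
          rw [zero_mul] at hab
          exact (hmon k).ne_zero hab
        have hb0 : b ≠ 0 := by
          rintro rfl
          rw [mul_zero] at hab
          exact (hmon k).ne_zero hab
        rcases h2.isUnit_or_isUnit h9 with h10 | h10
        · exact Or.inl (key a ha0 h10)
        · exact Or.inr (key b hb0 h10)
    have hass := hp.associated_of_dvd hqk hk
    refine ⟨k, ?_, ?_, ?_⟩
    · rintro rfl
      apply hpr
      obtain ⟨e, he⟩ := hass.symm.dvd
      rw [he, eval_mul, hqi]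
      simp
    · rintro rfl
      apply hps
      obtain ⟨e, he⟩ := hass.symm.dvd
      rw [he, eval_mul, hqj]
      simp
    · have h2 : (g k).natDegree = p.natDegree := by
        rw [← natDegree_qq, hg k, natDegree_scaleRoots]
        exact (natDegree_eq_of_degree_eq (degree_eq_degree_of_associated hass)).symm
      rw [h2]
      exact hpo
  · -- (H)
    rintro i j hij hi hj ⟨c0, hc0, hSq⟩
    obtain ⟨r, hqi, hr, hri⟩ := redr_lin f q g M c hmon hF hg i hi
    obtain ⟨s, hqj, hs, hsj⟩ := redr_lin f q g M c hmon hF hg j hj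
    have hrs : r ≠ s := by
      rintro rfl
      exact hij (hqinj i j (by rw [hqi, hqj]))
    obtain ⟨H, hH'⟩ := glue2 f hf r s hrs hr hs (C c0 * (X - C r) * (X - C s)) (by
      intro θ hθ hθr hθs
      obtain ⟨k, hk1, hk2⟩ := redr_idx f q g M c hc hF hg θ hθ
      have hki : k ≠ i := by
        rintro rfl
        apply hθr
        rw [hqi] at hk1
        simp only [map_sub, aeval_X, aeval_C, eq_ratCast] at hk1
        exact sub_eq_zero.1 hk1
      have hkj : k ≠ j := by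
        rintro rfl
        apply hθs
        rw [hqj] at hk1
        simp only [map_sub, aeval_X, aeval_C, eq_ratCast] at hk1
        exact sub_eq_zero.1 hk1
      obtain ⟨B, e, he⟩ := hSq k hki hkj
      rw [hri, hsj] at he
      have h1 := congrArg (aeval ((M : ℂ) * θ)) he
      rw [map_mul (aeval ((M : ℂ) * θ)) (qq (g k)), hk2, zero_mul] at h1
      simp only [map_sub, map_mul, map_pow, aeval_C, aeval_X, eq_ratCast] at h1
      refine ⟨C (M : ℚ)⁻¹ * B.comp (C (M : ℚ) * X), ?_⟩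
      have h2 : aeval θ (B.comp (C (M : ℚ) * X)) = aeval ((M : ℂ) * θ) B := by
        rw [aeval_comp]
        simp
      rw [map_mul (aeval θ) (C (M : ℚ)⁻¹), h2, mul_pow]
      have h3 : (aeval ((M : ℂ) * θ) B) ^ 2 = (c0 : ℂ) * ((M : ℂ) * r - (M : ℂ) * θ) * ((M : ℂ) * s - (M : ℂ) * θ) := by
        push_cast at h1
        linear_combination -h1
      rw [h3]
      simp only [map_sub, map_mul, aeval_C, aeval_X, eq_ratCast, Rat.cast_inv, Rat.cast_intCast]
      field_simp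
      ring)
    exact hH r s hrs hr hs c0 hc0 H hH'
  · -- the points
    rintro D hD ⟨x, w, hw, h, hnot⟩
    have hx : f.eval x ≠ 0 := by
      rw [← h]
      exact mul_ne_zero (by exact_mod_cast hD) (pow_ne_zero 2 hw)
    obtain ⟨u, v, l, huv, hl, hu, hv, h1, h2⟩ := gen_pt f hdeg q g M c hM hc hmon hF hg D x 1 w
      (Or.inr one_ne_zero) (by rw [hq_one]; exact hx) (by rw [hq_one]; exact h)
    refine ⟨u, v, huv, h1, h2, ?_⟩
    rintro i₀ ⟨h3, c', hc', hB⟩
    obtain ⟨r, hqi, hr, hri⟩ := redr_lin f q g M c hmon hF hg i₀ h3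
    apply hnot
    refine ⟨r, hr, c' * l, mul_ne_zero hc' hl, ?_⟩
    refine glue1 f hf r hr _ ?_
    intro θ hθ hθr
    obtain ⟨k, hk1, hk2⟩ := redr_idx f q g M c hc hF hg θ hθ
    have hki : k ≠ i₀ := by
      rintro rfl
      apply hθr
      rw [hqi] at hk1
      simp only [map_sub, aeval_X, aeval_C, eq_ratCast] at hk1
      exact sub_eq_zero.1 hk1
    obtain ⟨B, e, he⟩ := hB k hki
    rw [hri] at he
    have h4 := congrArg (aeval ((M : ℂ) * θ)) he
    rw [map_mul (aeval ((M : ℂ) * θ)) (qq (g k)), hk2, zero_mul] at h4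
    simp only [map_sub, map_mul, map_pow, aeval_C, aeval_X, eq_ratCast] at h4
    refine ⟨C (M : ℚ)⁻¹ * B.comp (C (M : ℚ) * X), ?_⟩
    have h5 : aeval θ (B.comp (C (M : ℚ) * X)) = aeval ((M : ℂ) * θ) B := by
      rw [aeval_comp]
      simp
    rw [map_mul (aeval θ) (C (M : ℚ)⁻¹), h5, mul_pow]
    have hu' : (u : ℂ) = l * (M * x) := by
      have := congrArg (fun z : ℚ => (z : ℂ)) hu
      push_cast at this
      exact this
    have hv' : (v : ℂ) = l := by
      have := congrArg (fun z : ℚ => (z : ℂ)) hv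
      push_cast at this
      rw [mul_one] at this
      exact this
    have h6 : (aeval ((M : ℂ) * θ) B) ^ 2 = (c' : ℂ) * ((l : ℂ) * (M * x) - l * ((M : ℂ) * θ)) * ((M : ℂ) * r - (M : ℂ) * θ) := by
      push_cast at h4
      rw [hu', hv'] at h4
      linear_combination -h4
    rw [h6]
    simp only [map_sub, map_mul, aeval_C, aeval_X, eq_ratCast, Rat.cast_inv, Rat.cast_intCast]
    field_simp
    ring

end TR
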