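import Pool.Agent.Lib.MP_10e784_agFA.L12

/-!
# MP_10e784_ag: the twists with a point which is trivial at one rational Weierstrass point are finite in number
-/

set_option autoImplicit false

namespace TR

open Polynomial

private theorem falt_four {M : Type} [Field M] {v a b c d p q r s : M} (hv : v ≠ 0) (h1 : v * a = p ^ 2)
    (h2 : v * b = q ^ 2) (h3 : v * c = r ^ 2) (h4 : v * d = s ^ 2) : IsSquare (a * b * c * d) := by
  refine ⟨p * q * r * s / v ^ 2, ?_⟩
  have h5 : (p * q * r * s / v ^ 2) * (p * q * r * s / v ^ 2) = (p ^ 2 * q ^ 2 * r ^ 2 * s ^ 2) / v ^ 4 := by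
    field_simp
  rw [h5, ← h1, ← h2, ← h3, ← h4]
  field_simp

private theorem falt_sqf {D D' k : ℤ} (hD : Squarefree D) (hD' : Squarefree D') (h : D * D' = k * k) : D = D' := by
  have h1 : D ∣ k ^ 2 := ⟨D', by rw [h, pow_two]⟩
  have h2 : D ∣ k := (hD.dvd_pow_iff_dvd two_ne_zero).mp h1
  obtain ⟨m, rfl⟩ := h2
  have h3 : D' = D * (m * m) := by
    have h4 : D * D' = D * (D * (m * m)) := by rw [h]; ring
    exact mul_left_cancel₀ hD.ne_zero h4
  have h5 : IsUnit m := hD' m ⟨D, by rw [h3]; ring⟩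
  have h6 : m * m = 1 := Int.isUnit_mul_self h5
  rw [h3, h6, mul_one]

private theorem falt_sub {c : ℚ} (hc : c ≠ 0) :
    {D : ℤ | Squarefree D ∧ ∃ y : ℚ, (D : ℚ) * y ^ 2 = c}.Subsingleton := by
  rintro D ⟨hD, y, hy⟩ D' ⟨hD', y', hy'⟩
  have hy0 : y ≠ 0 := by
    rintro rfl
    exact hc (by rw [← hy]; ring)
  have hy0' : y' ≠ 0 := by
    rintro rfl
    exact hc (by rw [← hy']; ring)
  have hs : IsSquare (((D * D' : ℤ) : ℚ)) := by
    refine ⟨c / (y * y'), ?_⟩
    have e1 : (D : ℚ) = c / y ^ 2 := by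
      rw [← hy]; field_simp
    have e2 : (D' : ℚ) = c / y' ^ 2 := by
      rw [← hy']; field_simp
    push_cast
    rw [e1, e2]
    field_simp
  rw [Rat.isSquare_intCast_iff] at hs
  obtain ⟨k, hk⟩ := hs
  exact falt_sqf hD hD' hk

private theorem falt_eval {M : Type} [Field M] [Algebra ℚ M] {f : ℚ[X]} {r x c : ℚ} {h : ℚ[X]}
    (hd : f ∣ (X - C r) * (C c * (X - C x) * (X - C r) - h ^ 2)) {t s : M} (ht : aeval t f = 0)
    (htr : t ≠ algebraMap ℚ M r) (hs : s ^ 2 = algebraMap ℚ M r - t) :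
    algebraMap ℚ M c * (algebraMap ℚ M x - t) = (aeval t h / s) ^ 2 := by
  obtain ⟨g, hg⟩ := hd
  have h1 : aeval t ((X - C r) * (C c * (X - C x) * (X - C r) - h ^ 2)) = 0 := by
    rw [hg, map_mul, ht, zero_mul]
  simp only [map_sub, map_mul, map_pow, aeval_C, aeval_X] at h1
  have h2 : t - algebraMap ℚ M r ≠ 0 := sub_ne_zero.2 htr
  have h3 := (mul_eq_zero.1 h1).resolve_left h2
  have hs0 : s ≠ 0 := by
    rintro rfl
    apply h2
    linear_combination hs
  rw [div_pow, hs, eq_div_iff (by rw [← hs]; exact pow_ne_zero 2 hs0)]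
  linear_combination h3

private theorem falt_xr (A : Type) [Field A] [Algebra ℚ A] [IsAlgClosed A]
    (f : ℚ[X]) (hf : Squarefree f) (h6 : 6 ≤ f.natDegree) (r : ℚ) :
    {x : ℚ | ∃ c : ℚ, c ≠ 0 ∧ ∃ h : ℚ[X], f ∣ (X - C r) * (C c * (X - C x) * (X - C r) - h ^ 2)}.Finite := by
  classical
  have hsep : f.Separable := PerfectField.separable_iff_squarefree.mpr hf
  have hcard : Fintype.card (f.rootSet A) = f.natDegree :=
    card_rootSet_eq_natDegree hsep (IsAlgClosed.splits _)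
  -- the roots different from `r`
  obtain ⟨R, hR⟩ : ∃ R : Finset A, R = (f.rootSet A).toFinset.erase (algebraMap ℚ A r) := ⟨_, rfl⟩
  have hRc : 5 ≤ R.card := by
    have h1 : (f.rootSet A).toFinset.card = f.natDegree := by
      rw [Set.toFinset_card, hcard]
    have h2 := Finset.pred_card_le_card_erase (s := (f.rootSet A).toFinset) (a := algebraMap ℚ A r)
    rw [hR]
    omega
  have hRm : ∀ x ∈ R, x ≠ algebraMap ℚ A r ∧ aeval x f = 0 := by
    intro x hx
    rw [hR, Finset.mem_erase, Set.mem_toFinset, mem_rootSet] at hx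
    exact ⟨hx.1, hx.2.2⟩
  have hsq : ∀ t : A, ∃ s : A, s ^ 2 = algebraMap ℚ A r - t := fun t => IsAlgClosed.exists_pow_nat_eq _ (by norm_num)
  choose s hs using hsq
  obtain ⟨S, hS⟩ : ∃ S : Finset A, S = R ∪ R.image s := ⟨_, rfl⟩
  obtain ⟨e⟩ := Function.Embedding.nonempty_of_card_le (α := Fin 5) (β := R) (by
    rw [Fintype.card_fin, Fintype.card_coe]
    exact hRc)
  let M : IntermediateField ℚ A := IntermediateField.adjoin ℚ (S : Set A)
  have hfd : FiniteDimensional ℚ M := by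
    have h1 : ∀ x ∈ R, IsIntegral ℚ x := fun x hx => (show IsAlgebraic ℚ x from ⟨f, hf.ne_zero, (hRm x hx).2⟩).isIntegral
    refine IntermediateField.finiteDimensional_adjoin fun x hx => ?_
    rw [Finset.mem_coe, hS, Finset.mem_union, Finset.mem_image] at hx
    rcases hx with hx | ⟨t, ht, rfl⟩
    · exact h1 x hx
    · refine IsIntegral.of_pow (n := 2) (by norm_num) ?_
      rw [hs]
      exact isIntegral_algebraMap.sub (h1 t ht)
  have hcz : CharZero M := algebraRat.charZero _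
  have hfd2 : ∀ i : Algebra ℚ M, @Module.Finite ℚ M _ _ i.toModule := by
    intro i
    have h1 : i = IntermediateField.algebra' M := Subsingleton.elim _ _
    rw [h1]
    exact hfd
  have hNF : NumberField M := { to_charZero := hcz, to_finiteDimensional := hfd2 _ }
  have hmem : ∀ x ∈ S, x ∈ M := fun x hx => IntermediateField.subset_adjoin ℚ _ (Finset.mem_coe.2 hx)
  have hθM : ∀ i, (e i : A) ∈ M := fun i => hmem _ (by rw [hS]; exact Finset.mem_union_left _ (e i).2)
  have hsM : ∀ i, s (e i : A) ∈ M := fun i => hmem _ (by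
    rw [hS]
    exact Finset.mem_union_right _ (Finset.mem_image_of_mem _ (e i).2))
  let θ : Fin 5 → M := fun i => ⟨e i, hθM i⟩
  let σ : Fin 5 → M := fun i => ⟨s (e i), hsM i⟩
  have hinj : Function.Injective θ := by
    intro i j hij
    have h1 : (θ i : A) = θ j := by rw [hij]
    have h2 : (e i : A) = e j := h1
    exact e.injective (Subtype.ext h2)
  have hroot : ∀ i, aeval (θ i) f = 0 := fun i => by
    have h3 : algebraMap M A (aeval (θ i) f) = 0 := by
      rw [← aeval_algebraMap_apply]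
      exact (hRm _ (e i).2).2
    exact (map_eq_zero _).1 h3
  have hne : ∀ i, θ i ≠ algebraMap ℚ M r := fun i h => by
    apply (hRm _ (e i).2).1
    have h3 := congrArg (algebraMap M A) h
    rw [← IsScalarTower.algebraMap_apply ℚ M A] at h3
    exact h3
  have hσ : ∀ i, σ i ^ 2 = algebraMap ℚ M r - θ i := fun i => by
    apply (algebraMap M A).injective
    rw [map_pow, map_sub, ← IsScalarTower.algebraMap_apply ℚ M A]
    exact hs _
  have hfin := MPFA.quartic hinj
  refine (hfin.preimage (f := algebraMap ℚ M) (Set.injOn_of_injective (algebraMap ℚ M).injective)).subset ?_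
  rintro x ⟨c, hc, h, hd⟩
  have hc' : algebraMap ℚ M c ≠ 0 := by
    rw [Ne, map_eq_zero]
    exact hc
  have H := fun i => falt_eval hd (hroot i) (hne i) (hσ i)
  exact ⟨falt_four hc' (H 0) (H 1) (H 2) (H 3), falt_four hc' (H 0) (H 1) (H 2) (H 4)⟩

theorem finite_xr (f : ℚ[X]) (hf : Squarefree f) (h6 : 6 ≤ f.natDegree) (r : ℚ) :
    {x : ℚ | ∃ c : ℚ, c ≠ 0 ∧ ∃ h : ℚ[X], f ∣ (X - C r) * (C c * (X - C x) * (X - C r) - h ^ 2)}.Finite :=
  falt_xr ℂ f hf h6 r

theorem finite_triv (f : ℚ[X]) (hf : Squarefree f) (h6 : 6 ≤ f.natDegree) :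
    {D : ℤ | Squarefree D ∧ ∃ r x y : ℚ, f.eval r = 0 ∧ y ≠ 0 ∧ (D : ℚ) * y ^ 2 = f.eval x ∧
      ∃ c : ℚ, c ≠ 0 ∧ ∃ h : ℚ[X], f ∣ (X - C r) * (C c * (X - C x) * (X - C r) - h ^ 2)}.Finite := by
  classical
  have hroots : {r : ℚ | f.eval r = 0}.Finite := by
    refine (f.roots.toFinset.finite_toSet).subset fun r hr => ?_
    rw [Finset.mem_coe, Multiset.mem_toFinset, mem_roots hf.ne_zero]
    exact hr
  refine (hroots.biUnion (t := fun r => ⋃ x ∈ {x : ℚ | ∃ c : ℚ, c ≠ 0 ∧ ∃ h : ℚ[X], f ∣ (X - C r) * (C c * (X - C x) * (X - C r) - h ^ 2)},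
    {D : ℤ | f.eval x ≠ 0 ∧ Squarefree D ∧ ∃ y : ℚ, (D : ℚ) * y ^ 2 = f.eval x})
    (fun r _ => (finite_xr f hf h6 r).biUnion fun x _ => ?_)).subset ?_
  · by_cases hx : f.eval x = 0
    · refine Set.Finite.subset Set.finite_empty ?_
      rintro D ⟨h1, -⟩
      exact h1 hx
    · exact (falt_sub hx).finite.subset fun D hD => hD.2
  · rintro D ⟨hD, r, x, y, hr, hy, hxy, c, hc, h, hd⟩
    rw [Set.mem_iUnion₂]
    refine ⟨r, hr, ?_⟩
    rw [Set.mem_iUnion₂]
    refine ⟨x, ⟨c, hc, h, hd⟩, ?_, hD, y, hxy⟩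
    rw [← hxy]
    exact mul_ne_zero (by exact_mod_cast hD.ne_zero) (pow_ne_zero 2 hy)

end TR
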