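import Pool.Agent.Lib.MP_10e784_agTR.TWSVa

/-! JOB TWSV.  The sieve bound, all cases.

`sv`: let `L = sup_{i ≠ i₀} j i` (natural number; if `univ.erase i₀ = ∅` the claim is `bx_card` with the empty product).  If `L ≥ L1` use `sv_large` (`i₁` with `j i₁ = L`); if `L < L1`: `∏_{i ≠ i₀} (1 + j i) ^ (-(1+δ)) ≥ (1 + L1) ^ (-(1+δ) s)` and `bx_card`. -/

namespace TR

open TW

open Polynomial Finset

theorem sv {ι : Type} [Fintype ι] [DecidableEq ι] {g : ι → ℤ[X]} (hg : Fam g) (hK : OddK g) (hH : HasT g) (M : ℕ) (hM : M ≠ 0) (C : ℝ) (hC : 1 ≤ C) :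
    ∃ C' δ : ℝ, 0 < δ ∧ 0 < C' ∧ ∀ (j : ι → ℕ) (i₀ : ι), (∀ i, j i ≤ j i₀) →
      (Nat.card {x : Co g → ℤ // Bx g C j x ∧ Loc g M x} : ℝ) ≤
        C' * 2 ^ (∑ i, j i) * ∏ i ∈ univ.erase i₀, ((1 + j i : ℝ)) ^ (-(1 + δ)) := by
  obtain ⟨C', δ, L1, hδ, hC', hmain⟩ := sv_large hg hK hH M hM C hC
  set N : ℕ := ∑ i, (g i).natDegree with hN
  set q : ℝ := (1 + (L1 : ℝ)) ^ (-(1 + δ)) with hq
  have hb1 : (1 : ℝ) ≤ 1 + (L1 : ℝ) := by
    have : (0 : ℝ) ≤ (L1 : ℝ) := Nat.cast_nonneg _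
    linarith
  have hq0 : 0 < q := Real.rpow_pos_of_pos (by linarith) _
  have hq1 : q ≤ 1 := Real.rpow_le_one_of_one_le_of_nonpos hb1 (by linarith)
  set A : ℝ := (3 * C) ^ N / q ^ Fintype.card ι with hA
  have hC0 : (0 : ℝ) < 3 * C := by linarith
  have hA0 : 0 < A := by positivity
  refine ⟨C' + A, δ, hδ, by positivity, fun j i₀ hj => ?_⟩
  have hP0 : ∀ i, 0 ≤ ((1 + j i : ℝ)) ^ (-(1 + δ)) := fun i => Real.rpow_nonneg (by positivity) _
  have hPP : 0 ≤ ∏ i ∈ univ.erase i₀, ((1 + j i : ℝ)) ^ (-(1 + δ)) :=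
    Finset.prod_nonneg fun i _ => hP0 i
  have h20 : (0 : ℝ) ≤ 2 ^ (∑ i, j i) := by positivity
  by_cases hex : ∃ i₁, i₁ ≠ i₀ ∧ L1 ≤ j i₁
  · obtain ⟨i₁, hi₁, hL⟩ := hex
    have hne : (univ.erase i₀).Nonempty := ⟨i₁, mem_erase.2 ⟨hi₁, mem_univ _⟩⟩
    obtain ⟨i₂, hi₂, hmax⟩ := Finset.exists_max_image (univ.erase i₀) j hne
    have h1 := hmain j i₀ i₂ (mem_erase.1 hi₂).1
      (fun i hi => hmax i (mem_erase.2 ⟨hi, mem_univ _⟩)) (hj i₂)
      (hL.trans (hmax i₁ (mem_erase.2 ⟨hi₁, mem_univ _⟩)))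
    refine h1.trans ?_
    refine mul_le_mul_of_nonneg_right ?_ hPP
    exact mul_le_mul_of_nonneg_right (by linarith) h20
  · push Not at hex
    obtain ⟨hfin, hcard⟩ := bx_card hg C hC j
    have h1 : (Nat.card {x : Co g → ℤ // Bx g C j x ∧ Loc g M x} : ℝ) ≤
        (Nat.card {x : Co g → ℤ // Bx g C j x} : ℝ) := by
      have := Nat.card_le_card_of_injective
        (fun x : {x : Co g → ℤ // Bx g C j x ∧ Loc g M x} =>
          (⟨x.1, x.2.1⟩ : {x : Co g → ℤ // Bx g C j x}))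
        (fun x y hxy => Subtype.ext (congrArg (fun z : {x : Co g → ℤ // Bx g C j x} => z.1) hxy))
      exact_mod_cast this
    have hterm : ∀ i ∈ univ.erase i₀, q ≤ ((1 + j i : ℝ)) ^ (-(1 + δ)) := by
      intro i hi
      have h2 : j i < L1 := hex i (mem_erase.1 hi).1
      have h3 : (1 + (j i : ℝ)) ≤ 1 + (L1 : ℝ) := by
        have : (j i : ℝ) ≤ (L1 : ℝ) := by exact_mod_cast h2.le
        linarith
      exact Real.rpow_le_rpow_of_nonpos (by positivity) h3 (by linarith)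
    have hprod : q ^ Fintype.card ι ≤ ∏ i ∈ univ.erase i₀, ((1 + j i : ℝ)) ^ (-(1 + δ)) := by
      calc q ^ Fintype.card ι ≤ q ^ (univ.erase i₀).card :=
            pow_le_pow_of_le_one hq0.le hq1 (Finset.card_le_univ _)
        _ = ∏ _i ∈ univ.erase i₀, q := (Finset.prod_const q).symm
        _ ≤ _ := Finset.prod_le_prod (fun _ _ => hq0.le) hterm
    have hfinal : (3 * C) ^ N ≤ A * ∏ i ∈ univ.erase i₀, ((1 + j i : ℝ)) ^ (-(1 + δ)) := by
      have h5 : (3 * C) ^ N = A * q ^ Fintype.card ι := by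
        rw [hA, div_mul_cancel₀]
        positivity
      rw [h5]
      exact mul_le_mul_of_nonneg_left hprod hA0.le
    calc (Nat.card {x : Co g → ℤ // Bx g C j x ∧ Loc g M x} : ℝ)
        ≤ (3 * C) ^ N * 2 ^ (∑ i, j i) := h1.trans hcard
      _ ≤ (A * ∏ i ∈ univ.erase i₀, ((1 + j i : ℝ)) ^ (-(1 + δ))) * 2 ^ (∑ i, j i) :=
        mul_le_mul_of_nonneg_right hfinal h20
      _ = A * 2 ^ (∑ i, j i) * ∏ i ∈ univ.erase i₀, ((1 + j i : ℝ)) ^ (-(1 + δ)) := by ring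
      _ ≤ (C' + A) * 2 ^ (∑ i, j i) * ∏ i ∈ univ.erase i₀, ((1 + j i : ℝ)) ^ (-(1 + δ)) := by
        refine mul_le_mul_of_nonneg_right ?_ hPP
        exact mul_le_mul_of_nonneg_right (by linarith) h20

end TR
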