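import Pool.Agent.Lib.MP_10e784_agTR.TWLim
import Pool.Agent.Lib.MP_10e784_agTR.TWDesc
import Pool.Agent.Lib.MP_10e784_agTR.TWTriv

/-! JOB TWMain.  The main theorem for families.

`C₀, M` from `desc`.  For every `D` in the set choose `(g0, e, x)` (`desc`), so `|D| = |g0| ∏ e`, `∏ e ≤ N` (`g0 ≠ 0`, all `e i ≥ 1`).  Let `j i = Nat.log 2 (e i)`: `2 ^ (j i) ≤ e i < 2 ^ (j i + 1)`, so `2 ^ (∑ j) ≤ ∏ e ≤ N`, `j i ≤ N` and `|x c| ≤ C₀ (2 ^ (j i + 1)) ^ (1/n) ≤ 2 C₀ 2 ^ (j i / n)` (`2 ^ (1/n) ≤ 2`), i.e. `Bx g (2 C₀) j x`.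
`pol_ne` gives `pol g x i ≠ 0`, and `Triv g i₀ (pol g x)` would give `Triv g i₀ (fun _ => C u - C v X)` (`triv_transfer` with `Q i = C u - C v X`).  So `x ∈ SS g M (2 C₀) j`.
The map `D ↦ (g0, x)` is injective: `x` determines `e` by `sqf_ext` and the description of the primes dividing `e i`.  So the number of `D` is at most `(2 M + 1) * ∑_j card (SS g M (2 C₀) j)`, the sum of `lim` (`g0 ∈ Icc (-M) M`; the union of the finite sets `SS j` over the finite set of `j`).  Divide by `N` and use `lim` (squeeze). -/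

namespace TR

open TW

open Polynomial Finset Filter

/-- the index set of the layers -/
private def JJ (ι : Type) [Fintype ι] [DecidableEq ι] (N : ℕ) : Finset (ι → ℕ) :=
  (Fintype.piFinset fun _ : ι => range (N + 1)).filter (fun j => 2 ^ (∑ i, j i) ≤ N)

/-- one class of twists, with its data -/
private def Dat {ι : Type} [Fintype ι] (g : ι → ℤ[X]) (C₀ : ℝ) (M : ℕ) (D : ℤ) (u v : ℤ)
    (g0 : ℤ) (e : ι → ℕ) (x : Co g → ℤ) : Prop :=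
  g0.natAbs ∣ M ∧ D = g0 * ∏ i, (e i : ℤ) ∧ Squarefree (∏ i, e i) ∧
    (∀ p : ℕ, p.Prime → p ∣ ∏ i, e i → ¬ p ∣ M) ∧
    (∀ c : Co g, |(x c : ℝ)| ≤ C₀ * (e c.1 : ℝ) ^ ((1 : ℝ) / (g c.1).natDegree)) ∧
    Loc g M x ∧
    (∀ p : ℕ, p.Prime → ¬ p ∣ M → ∀ i, (p ∣ e i ↔ ∃ h : (ZMod p)[X], h.Monic ∧ Irreducible h ∧ h ∣ red p (g i) ∧
      h ∣ pol g (fun c => (x c : ZMod p)) i)) ∧
    (∀ i, ∃ κ : ℚ[X], ¬ qq (g i) ∣ κ ∧
      qq (g i) ∣ pol g (fun c => (x c : ℚ)) i - (C (u : ℚ) - C (v : ℚ) * X) * κ ^ 2)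

private theorem main_box {n : ℕ} (hn : 1 ≤ n) {C₀ : ℝ} (hC : 1 ≤ C₀) {e : ℕ} (he : 1 ≤ e) {y : ℝ}
    (h : y ≤ C₀ * (e : ℝ) ^ ((1 : ℝ) / n)) :
    y ≤ 2 * C₀ * (2 : ℝ) ^ (((Nat.log 2 e : ℕ) : ℝ) / (n : ℝ)) := by
  have hn' : (1 : ℝ) ≤ n := by exact_mod_cast hn
  have h1 : (e : ℝ) ≤ (2 : ℝ) ^ (((Nat.log 2 e : ℕ) : ℝ) + 1) := by
    have h2 : e < 2 ^ (Nat.log 2 e + 1) := Nat.lt_pow_succ_log_self (by norm_num) e
    have h3 : (e : ℝ) < (2 : ℝ) ^ (Nat.log 2 e + 1) := by exact_mod_cast h2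
    have h4 : (2 : ℝ) ^ (((Nat.log 2 e : ℕ) : ℝ) + 1) = (2 : ℝ) ^ (Nat.log 2 e + 1) := by
      rw [← Real.rpow_natCast]
      push_cast
      rfl
    rw [h4]
    exact h3.le
  have h5 : (e : ℝ) ^ ((1 : ℝ) / n) ≤ 2 * (2 : ℝ) ^ (((Nat.log 2 e : ℕ) : ℝ) / (n : ℝ)) := by
    have h0 : (0 : ℝ) ≤ (1 : ℝ) / n := by positivity
    calc (e : ℝ) ^ ((1 : ℝ) / n) ≤ ((2 : ℝ) ^ (((Nat.log 2 e : ℕ) : ℝ) + 1)) ^ ((1 : ℝ) / n) :=
          Real.rpow_le_rpow (Nat.cast_nonneg _) h1 h0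
      _ = (2 : ℝ) ^ ((1 : ℝ) / n) * (2 : ℝ) ^ (((Nat.log 2 e : ℕ) : ℝ) / (n : ℝ)) := by
          rw [← Real.rpow_mul (by norm_num), ← Real.rpow_add (by norm_num)]
          congr 1
          ring
      _ ≤ 2 * (2 : ℝ) ^ (((Nat.log 2 e : ℕ) : ℝ) / (n : ℝ)) := by
          refine mul_le_mul_of_nonneg_right ?_ (by positivity)
          calc (2 : ℝ) ^ ((1 : ℝ) / n) ≤ (2 : ℝ) ^ (1 : ℝ) :=
                Real.rpow_le_rpow_of_exponent_le (by norm_num) (by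
                  rw [div_le_iff₀ (by linarith)]
                  linarith)
            _ = 2 := Real.rpow_one 2
  calc y ≤ C₀ * (e : ℝ) ^ ((1 : ℝ) / n) := h
    _ ≤ C₀ * (2 * (2 : ℝ) ^ (((Nat.log 2 e : ℕ) : ℝ) / (n : ℝ))) :=
        mul_le_mul_of_nonneg_left h5 (by linarith)
    _ = _ := by ring

private theorem main_mem {ι : Type} [Fintype ι] [DecidableEq ι] {g : ι → ℤ[X]} (hg : Fam g)
    {C₀ : ℝ} (hC : 1 ≤ C₀) {M : ℕ} (hM : M ≠ 0) {D u v : ℤ} (hD : Squarefree D) {N : ℕ}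
    (hN : |D| ≤ N) (huv : IsCoprime u v) (hh : ∀ i, PT.hom (g i) u v ≠ 0)
    (hT : ∀ i₀, ¬ Triv g i₀ (fun _ => C (u : ℚ) - C (v : ℚ) * X)) {g0 : ℤ} {e : ι → ℕ}
    {x : Co g → ℤ} (h : Dat g C₀ M D u v g0 e x) :
    g0 ∈ Icc (-(M : ℤ)) M ∧ ∃ j ∈ JJ ι N, x ∈ SS g M (2 * C₀) j := by
  obtain ⟨h1, h2, h3, h4, h5, h6, h7, h8⟩ := h
  have hD0 : D ≠ 0 := hD.ne_zero
  have hg0 : g0 ≠ 0 := by
    rintro rfl
    rw [zero_mul] at h2
    exact hD0 h2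
  have he0 : ∀ i, e i ≠ 0 := by
    intro i hi
    apply h3.ne_zero
    exact Finset.prod_eq_zero (mem_univ i) hi
  have hprod : ∏ i, e i ≤ N := by
    have h9 : D.natAbs = g0.natAbs * ∏ i, e i := by
      rw [h2, Int.natAbs_mul]
      congr 1
      rw [← Nat.cast_prod, Int.natAbs_natCast]
    have h10 : D.natAbs ≤ N := by
      have : (D.natAbs : ℤ) ≤ N := by rwa [Int.natCast_natAbs]
      exact_mod_cast this
    have h11 : 1 ≤ g0.natAbs := Nat.one_le_iff_ne_zero.2 (Int.natAbs_ne_zero.2 hg0)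
    calc ∏ i, e i = 1 * ∏ i, e i := (one_mul _).symm
      _ ≤ g0.natAbs * ∏ i, e i := Nat.mul_le_mul_right _ h11
      _ = D.natAbs := h9.symm
      _ ≤ N := h10
  refine ⟨?_, fun i => Nat.log 2 (e i), ?_, ?_, h6, ?_, ?_⟩
  · have h9 : g0.natAbs ≤ M := Nat.le_of_dvd (Nat.pos_of_ne_zero hM) h1
    have h10 : |g0| ≤ M := by
      rw [← Int.natCast_natAbs]
      exact_mod_cast h9
    rw [mem_Icc]
    exact abs_le.1 h10
  · have hle : ∀ i, 2 ^ Nat.log 2 (e i) ≤ e i := fun i => Nat.pow_log_le_self 2 (he0 i)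
    rw [JJ, mem_filter, Fintype.mem_piFinset]
    refine ⟨fun i => ?_, ?_⟩
    · rw [mem_range]
      have h9 : Nat.log 2 (e i) < 2 ^ Nat.log 2 (e i) := Nat.lt_two_pow_self
      have h10 : e i ≤ ∏ i, e i :=
        Nat.le_of_dvd (Nat.pos_of_ne_zero h3.ne_zero) (Finset.dvd_prod_of_mem e (mem_univ i))
      have h11 := hle i
      omega
    · rw [← Finset.prod_pow_eq_pow_sum]
      exact (Finset.prod_le_prod' fun i _ => hle i).trans hprod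
  · intro c
    exact main_box (Nat.one_le_iff_ne_zero.2 fun h => by
      have := c.2.2
      omega) hC (Nat.one_le_iff_ne_zero.2 (he0 _)) (h5 c)
  · intro i
    exact pol_ne hg u v huv i (hh i) x (h8 i)
  · intro i₀ hTr
    exact hT i₀ (triv_transfer hg _ _ h8 i₀ hTr)

private theorem main_inj {ι : Type} [Fintype ι] [DecidableEq ι] {g : ι → ℤ[X]}
    {C₀ : ℝ} {M : ℕ} {D D' u v u' v' : ℤ} {g0 : ℤ} {e e' : ι → ℕ} {x : Co g → ℤ}
    (h : Dat g C₀ M D u v g0 e x) (h' : Dat g C₀ M D' u' v' g0 e' x) : D = D' := by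
  obtain ⟨h1, h2, h3, h4, h5, h6, h7, h8⟩ := h
  obtain ⟨h1', h2', h3', h4', h5', h6', h7', h8'⟩ := h'
  have he : e = e' := sqf_ext M e e' h3 h3' h4 h4' fun p hp hpM i =>
    (h7 p hp hpM i).trans (h7' p hp hpM i).symm
  rw [h2, h2', he]

theorem main_TR {ι : Type} [Fintype ι] [DecidableEq ι] {g : ι → ℤ[X]} (hg : Fam g) (hK : OddK g) (hH : HasT g) (a : ℤ) (ha : a ≠ 0) :
    Tendsto (fun N : ℕ => (Nat.card {D : ℤ // Squarefree D ∧ |D| ≤ N ∧ ∃ u v : ℤ, IsCoprime u v ∧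
      (∀ i, PT.hom (g i) u v ≠ 0) ∧ IsSquare (D * a * ∏ i, PT.hom (g i) u v) ∧
      ∀ i₀, ¬ Triv g i₀ (fun _ => C (u : ℚ) - C (v : ℚ) * X)} : ℝ) / N) atTop (nhds 0) := by
  classical
  obtain ⟨C₀, M, hC, hM, hdesc⟩ := desc hg a ha
  have hC2 : 1 ≤ 2 * C₀ := by linarith
  have hfin : ∀ j, (SS g M (2 * C₀) j).Finite := fun j => (ss_le hg M (2 * C₀) hC2 j).1
  have hlim := lim hg hK hH M hM (2 * C₀) hC2
  set K : ℕ := (Icc (-(M : ℤ)) M).card with hK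
  have hbound : ∀ N : ℕ, Nat.card {D : ℤ // Squarefree D ∧ |D| ≤ N ∧ ∃ u v : ℤ, IsCoprime u v ∧
      (∀ i, PT.hom (g i) u v ≠ 0) ∧ IsSquare (D * a * ∏ i, PT.hom (g i) u v) ∧
      ∀ i₀, ¬ Triv g i₀ (fun _ => C (u : ℚ) - C (v : ℚ) * X)} ≤
      K * ∑ j ∈ JJ ι N, Nat.card (SS g M (2 * C₀) j) := by
    intro N
    set T : Finset (Co g → ℤ) := (JJ ι N).biUnion fun j => (hfin j).toFinset with hT
    have hex : ∀ D : {D : ℤ // Squarefree D ∧ |D| ≤ N ∧ ∃ u v : ℤ, IsCoprime u v ∧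
        (∀ i, PT.hom (g i) u v ≠ 0) ∧ IsSquare (D * a * ∏ i, PT.hom (g i) u v) ∧
        ∀ i₀, ¬ Triv g i₀ (fun _ => C (u : ℚ) - C (v : ℚ) * X)},
        ∃ gx : ℤ × (Co g → ℤ), gx ∈ (Icc (-(M : ℤ)) M) ×ˢ T ∧
          ∃ (u v : ℤ) (e : ι → ℕ), Dat g C₀ M D.1 u v gx.1 e gx.2 := by
      rintro ⟨D, hD, hN, u, v, huv, hh, hsq, hTr⟩
      obtain ⟨g0, e, x, hx⟩ := hdesc D hD u v huv hh hsq
      have hdat : Dat g C₀ M D u v g0 e x := hx
      obtain ⟨m1, j, hj, m2⟩ := main_mem hg hC hM hD hN huv hh hTr hdat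
      refine ⟨(g0, x), mem_product.2 ⟨m1, mem_biUnion.2 ⟨j, hj, ?_⟩⟩, u, v, e, hdat⟩
      exact (hfin j).mem_toFinset.2 m2
    choose F hF1 hF2 using hex
    have hinj : Function.Injective (fun D => (⟨F D, hF1 D⟩ : ↥((Icc (-(M : ℤ)) M) ×ˢ T))) := by
      intro D D' hDD
      have h1 : F D = F D' := congrArg Subtype.val hDD
      obtain ⟨u, v, e, h2⟩ := hF2 D
      obtain ⟨u', v', e', h3⟩ := hF2 D'
      rw [← h1] at h3
      exact Subtype.ext (main_inj h2 h3)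
    have h1 := Nat.card_le_card_of_injective _ hinj
    refine h1.trans ?_
    rw [Nat.card_eq_fintype_card, Fintype.card_coe, card_product]
    refine Nat.mul_le_mul_left _ ?_
    refine card_biUnion_le.trans (Finset.sum_le_sum fun j _ => ?_)
    rw [Nat.card_coe_set_eq, Set.ncard_eq_toFinset_card _ (hfin j)]
  have hlim2 : Tendsto (fun N : ℕ => (K : ℝ) * ((∑ j ∈ JJ ι N,
      (Nat.card (SS g M (2 * C₀) j) : ℝ)) / N)) atTop (nhds 0) := by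
    have := hlim.const_mul (K : ℝ)
    rw [mul_zero] at this
    exact this
  refine squeeze_zero (fun N => by positivity) (fun N => ?_) hlim2
  rw [← mul_div_assoc]
  refine div_le_div_of_nonneg_right ?_ (Nat.cast_nonneg N)
  have h1 := hbound N
  exact_mod_cast h1

end TR
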