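import Pool.Agent.Lib.MP_10e784_agTR.TWFib

/-! JOB TWFibN.  The numerical form of the fibre bound.

Notation: `x = 1 / p`, `ρ = rts g I p`, `ν = nu g p I`, `m = dg g I`, `N = ∑ natDegree`, `p ≥ 8 N ^ 2`.  `nu_facts`: `ρ ≤ ν ≤ m`, `ρ ≠ m → ρ + 1 ≤ ν`, `I.card ≤ ν`.  `(1 - x) ^ ρ ≤ 1 - ρ x + ρ ^ 2 x ^ 2` for natural `ρ`, `0 ≤ x ≤ 1` (induction), `ρ ≤ m ≤ N`.
`fib_two` (`2 ≤ I.card`, `C0 = N ^ 2`).  `m ≥ 3` because at most one `g i` is linear.  Let `κ' = κ ρ 2 ^ (1 - ν)` (so the second summand of the first term is `p ^ m * κ' * x`).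
 * If some factor outside `I` has odd degree (`κ = 1`): `κ' ≤ ρ / 2 ^ (ν - 1) ≤ 1` (`ρ ≤ ν`, `ν ≤ 2 ^ (ν - 1)`), and if `p ∈ S` then `ρ = ν = m ≥ 3` and `κ' = m / 2 ^ (m - 1) ≤ 3/4`.
 * If not (`κ = 2`): `dg g Iᶜ` is even (`parity`), so `m` is even, `m ≥ 4`.  If `ρ ≠ m` then `ν ≥ ρ + 1` and `κ' = 2 ρ / 2 ^ (ν - 1) ≤ 2 ρ / 2 ^ ρ ≤ 1`; if `ρ = m` then `ν = m ≥ 4` and `κ' = m / 2 ^ (m - 2) ≤ 1`.  If `p ∈ S`: all factors have degree one (`rt = natDegree` for all `i`, `nu_facts`/`rt_facs`), so there is no factor outside `I` at all, `I = univ`, `ρ = ν = m = N ≥ 6`, `κ' = m / 2 ^ (m - 2) ≤ 3/8`.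
 So `κ' ≤ 1 - (1/4) ind S p` in all cases and the first term is `≤ p ^ m (1 - ρ x + ρ ^ 2 x ^ 2 + (1 - ind / 4) x)`.
 The second term is `p ^ m * 2 / 2 ^ ν ≤ p ^ m / 2` (`ν ≥ 2`), and `1/2 ≤ 1 - (ρ - 1 + 1/4) x` since `ρ x ≤ N / (8 N ^ 2) ≤ 1/8`.
`fib_one` (`I = {i₀}`, `n = natDegree (g i₀) ≥ 2`, `p ∈ S`, so `ρ = ν = m = n`): if `ι` has another index then there is a factor of degree one outside, `κ = 1`, `κ' = n / 2 ^ (n - 1) ≤ 1`; otherwise `n = N ≥ 6`, `κ' = 2 n / 2 ^ (n - 1) ≤ 1`.  First term `≤ p ^ n ((1 - x) ^ 2 + x) = p ^ n (1 - x + x ^ 2) ≤ p ^ n (1 - x / 2)`, second `≤ p ^ n / 2 ≤ p ^ n (1 - x/2)`. -/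

namespace TR

open TW

open Polynomial Finset

private theorem twfibn_bern (x : ℝ) (hx0 : 0 ≤ x) (hx1 : x ≤ 1) (r : ℕ) :
    (1 - x) ^ r ≤ 1 - r * x + (r : ℝ) ^ 2 * x ^ 2 := by
  induction r with
  | zero => simp
  | succ r ih =>
    have h1 : (1 - x) ^ (r + 1) ≤ (1 - r * x + (r : ℝ) ^ 2 * x ^ 2) * (1 - x) := by
      rw [pow_succ]
      exact mul_le_mul_of_nonneg_right ih (by linarith)
    have hr : (0 : ℝ) ≤ r := Nat.cast_nonneg r
    have hx2 : 0 ≤ x ^ 2 := by positivity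
    have hx3 : 0 ≤ (r : ℝ) ^ 2 * x ^ 3 := by positivity
    have hx4 : 0 ≤ (r : ℝ) * x ^ 2 := by positivity
    push_cast
    nlinarith

private theorem twfibn_pow1 (n : ℕ) (hn : 1 ≤ n) : (n : ℝ) ≤ 2 ^ (n - 1) := by
  obtain ⟨k, rfl⟩ : ∃ k, n = k + 1 := ⟨n - 1, by omega⟩
  have : k + 1 ≤ 2 ^ k := Nat.lt_two_pow_self
  simp only [Nat.add_sub_cancel]
  exact_mod_cast this

private theorem twfibn_pow2 (n : ℕ) : 2 * (n : ℝ) ≤ 2 ^ n := by
  induction n with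
  | zero => simp
  | succ k ih =>
    rcases Nat.eq_zero_or_pos k with h | h
    · subst h; norm_num
    · have h1 : (1 : ℝ) ≤ k := by exact_mod_cast h
      rw [pow_succ]
      push_cast
      linarith

private theorem twfibn_pow3 (n : ℕ) (hn : 4 ≤ n) : 2 * (n : ℝ) ≤ 2 ^ (n - 1) := by
  obtain ⟨k, rfl⟩ : ∃ k, n = k + 4 := ⟨n - 4, by omega⟩
  have e : k + 4 - 1 = k + 3 := by omega
  rw [e, pow_add]
  have h1 : (1 : ℝ) + k ≤ 2 ^ k := by
    have : k + 1 ≤ 2 ^ k := Nat.lt_two_pow_self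
    have h2 : ((k + 1 : ℕ) : ℝ) ≤ 2 ^ k := by exact_mod_cast this
    push_cast at h2
    linarith
  have hk : (0 : ℝ) ≤ k := Nat.cast_nonneg k
  push_cast
  nlinarith

private theorem twfibn_pow4 (n : ℕ) (hn : 3 ≤ n) : (n : ℝ) ≤ 3 / 4 * 2 ^ (n - 1) := by
  obtain ⟨k, rfl⟩ : ∃ k, n = k + 3 := ⟨n - 3, by omega⟩
  have e : k + 3 - 1 = k + 2 := by omega
  rw [e, pow_add]
  have h1 : (1 : ℝ) + k ≤ 2 ^ k := by
    have : k + 1 ≤ 2 ^ k := Nat.lt_two_pow_self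
    have h2 : ((k + 1 : ℕ) : ℝ) ≤ 2 ^ k := by exact_mod_cast this
    push_cast at h2
    linarith
  have hk : (0 : ℝ) ≤ k := Nat.cast_nonneg k
  push_cast
  nlinarith

private theorem twfibn_pow5 (n : ℕ) (hn : 6 ≤ n) : 2 * (n : ℝ) ≤ 3 / 4 * 2 ^ (n - 1) := by
  obtain ⟨k, rfl⟩ : ∃ k, n = k + 6 := ⟨n - 6, by omega⟩
  have e : k + 6 - 1 = k + 5 := by omega
  rw [e, pow_add]
  have h1 : (1 : ℝ) + k ≤ 2 ^ k := by
    have : k + 1 ≤ 2 ^ k := Nat.lt_two_pow_self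
    have h2 : ((k + 1 : ℕ) : ℝ) ≤ 2 ^ k := by exact_mod_cast this
    push_cast at h2
    linarith
  have hk : (0 : ℝ) ≤ k := Nat.cast_nonneg k
  push_cast
  nlinarith

/-- the numerical heart -/
private theorem twfibn_core (N m r v : ℕ) (κ p i : ℝ) (hN : 1 ≤ N) (hp : 8 * (N : ℝ) ^ 2 ≤ p) (hrv : r ≤ v) (hvm : v ≤ m)
    (hmN : m ≤ N) (hv : 2 ≤ v) (_hi0 : 0 ≤ i) (hi1 : i ≤ 1) (hκ : κ * r ≤ (1 - i / 4) * 2 ^ (v - 1)) :
    max (p ^ m * (1 - 1 / p) ^ r + κ * r * (p ^ m / (p * 2 ^ (v - 1)))) (2 * (p ^ m / 2 ^ v)) ≤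
      p ^ m * (1 - (((r : ℝ) - 1 + i / 4) / p - (N : ℝ) ^ 2 / p ^ 2)) := by
  have hN' : (1 : ℝ) ≤ N := by exact_mod_cast hN
  have hp8 : (8 : ℝ) ≤ p := by nlinarith
  have hp0 : (0 : ℝ) < p := by linarith
  have hP : (0 : ℝ) < p ^ m := by positivity
  have hrN : (r : ℝ) ≤ N := by exact_mod_cast (hrv.trans hvm).trans hmN
  have hr0 : (0 : ℝ) ≤ r := Nat.cast_nonneg r
  set x : ℝ := 1 / p with hx
  have hx0 : 0 ≤ x := by positivity
  have hx1 : x ≤ 1 := by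
    rw [hx, div_le_one hp0]; linarith
  have hbern := twfibn_bern x hx0 hx1 r
  have hr2 : (r : ℝ) ^ 2 * x ^ 2 ≤ (N : ℝ) ^ 2 * x ^ 2 := by
    apply mul_le_mul_of_nonneg_right _ (by positivity)
    exact pow_le_pow_left₀ hr0 hrN 2
  have hrhs : (1 - (((r : ℝ) - 1 + i / 4) / p - (N : ℝ) ^ 2 / p ^ 2)) = 1 - ((r : ℝ) - 1 + i / 4) * x + (N : ℝ) ^ 2 * x ^ 2 := by
    rw [hx]; field_simp; ring
  rw [hrhs]
  apply max_le
  · have h2 : κ * r * (p ^ m / (p * 2 ^ (v - 1))) ≤ p ^ m * ((1 - i / 4) * x) := by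
      have h3 : κ * r * (p ^ m / (p * 2 ^ (v - 1))) = (κ * r) * (p ^ m * x / 2 ^ (v - 1)) := by
        rw [hx]; field_simp
      have h4 : p ^ m * ((1 - i / 4) * x) = ((1 - i / 4) * 2 ^ (v - 1)) * (p ^ m * x / 2 ^ (v - 1)) := by
        field_simp
      rw [h3, h4]
      exact mul_le_mul_of_nonneg_right hκ (by positivity)
    have h5 : p ^ m * (1 - x) ^ r ≤ p ^ m * (1 - r * x + (N : ℝ) ^ 2 * x ^ 2) := by
      apply mul_le_mul_of_nonneg_left _ hP.le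
      linarith
    calc _ ≤ p ^ m * (1 - r * x + (N : ℝ) ^ 2 * x ^ 2) + p ^ m * ((1 - i / 4) * x) := add_le_add h5 h2
      _ = _ := by ring
  · have h6 : (4 : ℝ) ≤ 2 ^ v := by
      calc (4 : ℝ) = 2 ^ 2 := by norm_num
        _ ≤ 2 ^ v := pow_le_pow_right₀ (by norm_num) hv
    have h7 : 2 * (p ^ m / 2 ^ v) ≤ p ^ m * (1 / 2) := by
      have : p ^ m / 2 ^ v ≤ p ^ m / 4 := div_le_div_of_nonneg_left hP.le (by norm_num) h6
      linarith
    refine h7.trans (mul_le_mul_of_nonneg_left ?_ hP.le)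
    have h8 : (N : ℝ) * x ≤ 1 / 8 := by
      rw [hx, mul_one_div, div_le_iff₀ hp0]
      nlinarith
    have h9 : (r : ℝ) * x ≤ 1 / 8 := (mul_le_mul_of_nonneg_right hrN hx0).trans h8
    have h10 : ((r : ℝ) - 1 + i / 4) * x ≤ r * x := mul_le_mul_of_nonneg_right (by linarith) hx0
    have h11 : 0 ≤ (N : ℝ) ^ 2 * x ^ 2 := by positivity
    linarith

private theorem twfibn_deg {ι : Type} [Fintype ι] {g : ι → ℤ[X]} (hg : Fam g) (i : ι) : 1 ≤ (g i).natDegree := by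
  by_contra h
  have h0 : (g i).natDegree = 0 := by omega
  have h1 : g i = 1 := (hg.monic i).natDegree_eq_zero.mp h0
  have h2 := hg.irr i
  rw [h1] at h2
  simp at h2

private theorem twfibn_dg_le {ι : Type} [Fintype ι] (g : ι → ℤ[X]) (I : Finset ι) : dg g I ≤ ∑ i, (g i).natDegree :=
  Finset.sum_le_univ_sum_of_nonneg (fun _ => Nat.zero_le _)

private theorem twfibn_three {ι : Type} [Fintype ι] [DecidableEq ι] {g : ι → ℤ[X]} (hg : Fam g) (I : Finset ι)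
    (hI : 2 ≤ I.card) (hd : dg g I ≠ 2) : 3 ≤ dg g I := by
  have h1 : I.card ≤ dg g I := by
    unfold dg
    rw [Finset.card_eq_sum_ones]
    exact Finset.sum_le_sum fun i _ => twfibn_deg hg i
  omega

/-- if `p` splits completely then every index has a factor of odd degree -/
private theorem twfibn_odd {ι : Type} [Fintype ι] {g : ι → ℤ[X]} (hg : Fam g) (p : ℕ) [Fact p.Prime] (hp : GoodP g p)
    (i : ι) (h : PT.rt (g i) p = (g i).natDegree) : ∃ f ∈ facs (red p (g i)), Odd f.natDegree := by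
  have h1 := rt_facs hg p hp i
  rw [h] at h1
  have h2 := twfibn_deg hg i
  have h3 : ((facs (red p (g i))).filter fun h => h.natDegree = 1).Nonempty := by
    rw [← Finset.card_pos, h1]; omega
  obtain ⟨f, hf⟩ := h3
  rw [Finset.mem_filter] at hf
  exact ⟨f, hf.1, by rw [hf.2]; exact odd_one⟩

private theorem twfibn_rts {ι : Type} (g : ι → ℤ[X]) (p : ℕ) (I : Finset ι)
    (h : ∀ i, PT.rt (g i) p = (g i).natDegree) : rts g I p = dg g I :=
  Finset.sum_congr rfl fun i _ => h i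

/-- parity of the complement -/
private theorem twfibn_par {ι : Type} [Fintype ι] [DecidableEq ι] {g : ι → ℤ[X]} (hg : Fam g) (p : ℕ) [Fact p.Prime]
    (hp : GoodP g p) (I : Finset ι) (h : ¬ ∃ i, i ∉ I ∧ ∃ f ∈ facs (red p (g i)), Odd f.natDegree) : Even (dg g I) := by
  have h1 : Even (dg g Iᶜ) := by
    apply parity hg p hp
    intro i hi f hf
    by_contra hne
    exact h ⟨i, Finset.mem_compl.mp hi, f, hf, Nat.not_even_iff_odd.mp hne⟩
  have h2 : dg g I + dg g Iᶜ = ∑ i, (g i).natDegree := Finset.sum_add_sum_compl I _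
  have h3 := hg.even
  rw [← h2] at h3
  exact (Nat.even_add.mp h3).mpr h1

open Classical in
private theorem twfibn_kap {ι : Type} [Fintype ι] [DecidableEq ι] {g : ι → ℤ[X]} (hg : Fam g) (S : Set ℕ)
    (hS : ∀ p ∈ S, ∀ i, PT.rt (g i) p = (g i).natDegree) (p : ℕ) [Fact p.Prime] (hp : GoodP g p) (I : Finset ι)
    (hI : 2 ≤ I.card) (hd2 : dg g I ≠ 2) :
    (if ∃ i, i ∉ I ∧ ∃ f ∈ facs (red p (g i)), Odd f.natDegree then (1 : ℝ) else 2) * rts g I p ≤
      (1 - PT.ind S p / 4) * 2 ^ (nu g p I - 1) := by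
  obtain ⟨hn1, hn2, hn3, hn4⟩ := nu_facts hg p hp I
  have hm3 := twfibn_three hg I hI hd2
  by_cases hodd : ∃ i, i ∉ I ∧ ∃ f ∈ facs (red p (g i)), Odd f.natDegree
  · rw [if_pos hodd, one_mul]
    by_cases hpS : p ∈ S
    · have e : PT.ind S p = 1 := if_pos hpS
      have h1 := twfibn_rts g p I (hS p hpS)
      have h2 : nu g p I = dg g I := by omega
      rw [e, h1, h2]
      have := twfibn_pow4 (dg g I) hm3
      linarith
    · have e : PT.ind S p = 0 := if_neg hpS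
      rw [e]
      have h1 := twfibn_pow1 (nu g p I) (by omega)
      have h2 : (rts g I p : ℝ) ≤ nu g p I := by exact_mod_cast hn1
      linarith
  · rw [if_neg hodd]
    have hev := twfibn_par hg p hp I hodd
    have hm4 : 4 ≤ dg g I := by
      rcases Nat.lt_or_ge (dg g I) 4 with h | h
      · have h3 : dg g I = 3 := by omega
        rw [h3] at hev
        exact absurd hev (by decide)
      · exact h
    by_cases hpS : p ∈ S
    · have e : PT.ind S p = 1 := if_pos hpS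
      have h1 := twfibn_rts g p I (hS p hpS)
      have h2 : nu g p I = dg g I := by omega
      have hI' : I = univ := by
        apply Finset.eq_univ_of_forall
        intro i
        by_contra hi
        exact hodd ⟨i, hi, twfibn_odd hg p hp i (hS p hpS i)⟩
      have h6 : 6 ≤ dg g I := by
        rw [hI']; exact hg.six
      rw [e, h1, h2]
      have := twfibn_pow5 (dg g I) h6
      linarith
    · have e : PT.ind S p = 0 := if_neg hpS
      rw [e]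
      by_cases hr : rts g I p = dg g I
      · have h2 : nu g p I = dg g I := by omega
        rw [hr, h2]
        have := twfibn_pow3 (dg g I) hm4
        linarith
      · have h3 := hn3 hr
        have h4 := twfibn_pow2 (rts g I p)
        have h5 : (2 : ℝ) ^ (rts g I p) ≤ 2 ^ (nu g p I - 1) := pow_le_pow_right₀ (by norm_num) (by omega)
        linarith

private theorem twfibn_pair (N p : ℝ) (hN : 1 ≤ N) (hp : 8 * N ^ 2 ≤ p) (u : ℝ) (hu : u = 1 ∨ u = 1 / 2) :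
    max (p ^ 2 * (1 - 1 / p) ^ 2 + u * (p ^ 2 / p)) (2 * (p ^ 2 / 2 ^ 2)) ≤
      p ^ 2 * (1 - ((2 - u) / p - N ^ 2 / p ^ 2)) := by
  have hp8 : (8 : ℝ) ≤ p := by nlinarith
  have hp0 : (0 : ℝ) < p := by linarith
  have hP : (0 : ℝ) < p ^ 2 := by positivity
  set x : ℝ := 1 / p with hx
  have hx0 : 0 ≤ x := by positivity
  have hx8 : x ≤ 1 / 8 := by
    rw [hx]
    exact one_div_le_one_div_of_le (by norm_num) hp8
  have hu1 : 1 / 2 ≤ u ∧ u ≤ 1 := by rcases hu with rfl | rfl <;> norm_num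
  have e1 : p ^ 2 * (1 - x) ^ 2 + u * (p ^ 2 / p) = p ^ 2 * ((1 - x) ^ 2 + u * x) := by
    rw [hx]; field_simp
  have e2 : p ^ 2 * (1 - ((2 - u) / p - N ^ 2 / p ^ 2)) = p ^ 2 * (1 - (2 - u) * x + N ^ 2 * x ^ 2) := by
    rw [hx]; field_simp; ring
  rw [e1, e2]
  have hx2 : x ^ 2 ≤ N ^ 2 * x ^ 2 := by
    have : 1 ≤ N ^ 2 := by nlinarith
    nlinarith [sq_nonneg x]
  apply max_le
  · refine mul_le_mul_of_nonneg_left ?_ hP.le
    nlinarith
  · have e3 : 2 * (p ^ 2 / 2 ^ 2) = p ^ 2 * (1 / 2) := by ring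
    rw [e3]
    refine mul_le_mul_of_nonneg_left ?_ hP.le
    nlinarith [hu1.1, hu1.2, mul_nonneg hx0 (sub_nonneg.2 hu1.2), sq_nonneg (N * x)]

open Classical in
theorem fib_two {ι : Type} [Fintype ι] [DecidableEq ι] {g : ι → ℤ[X]} (hg : Fam g) (hK : OddK g) (S : Set ℕ)
    (hS : ∀ p ∈ S, ∀ i, PT.rt (g i) p = (g i).natDegree) (T : Finset ι → Set ℕ) (hT : PairT g T) :
    ∃ C0 : ℝ, 0 ≤ C0 ∧ ∀ p : ℕ, GoodP g p → ∀ I : Finset ι, 2 ≤ I.card → ∀ y : Co g → ZMod p,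
      (Nat.card {w : Co g → ZMod p // Al g p w ∧ ∀ c : Co g, c.1 ∉ I → w c = y c} : ℝ) ≤
        (p : ℝ) ^ dg g I * (1 - (((rts g I p : ℝ) - 1 + gn g S T I p) / p - C0 / (p : ℝ) ^ 2)) := by
  classical
  refine ⟨((∑ i, (g i).natDegree : ℕ) : ℝ) ^ 2, by positivity, ?_⟩
  intro p hp I hI y
  have : Fact p.Prime := ⟨hp.prime⟩
  obtain ⟨hn1, hn2, hn3, hn4⟩ := nu_facts hg p hp I
  have hbig : 8 * ((∑ i, (g i).natDegree : ℕ) : ℝ) ^ 2 ≤ p := by exact_mod_cast hp.big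
  have h6 := hg.six
  by_cases hd2 : dg g I = 2
  · -- two linear indices
    have hc2 : I.card = 2 := by omega
    obtain ⟨i, j, hij, rfl⟩ := Finset.card_eq_two.1 hc2
    have hdd : (g i).natDegree + (g j).natDegree = 2 := by
      have h := hd2
      unfold dg at h
      rwa [Finset.sum_pair hij] at h
    have h1 := twfibn_deg hg i
    have h2 := twfibn_deg hg j
    have hi : (g i).natDegree = 1 := by omega
    have hj : (g j).natDegree = 1 := by omega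
    have hr : (rts g {i, j} p : ℝ) = 2 := by
      unfold rts
      rw [Finset.sum_pair hij, rt_lin _ (hg.monic i) hi p, rt_lin _ (hg.monic j) hj p]
      norm_num
    have hN1 : (1 : ℝ) ≤ ((∑ i, (g i).natDegree : ℕ) : ℝ) := by
      have : 1 ≤ ∑ i, (g i).natDegree := by omega
      exact_mod_cast this
    have hgn : gn g S T {i, j} p = PT.ind (T {i, j}) p / 2 := if_pos hd2
    have hp0 : (0 : ℝ) < p := by exact_mod_cast hp.prime.pos
    rw [hd2, hgn, hr]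
    by_cases hpT : p ∈ T {i, j}
    · have e : PT.ind (T {i, j}) p = 1 := if_pos hpT
      have h3 := fib_pair hg p hp i j hij hi hj (hK i j hij hi hj) (hT i j hij hi hj p hpT hp) y
      have h4 := twfibn_pair _ _ hN1 hbig (1 / 2) (Or.inr rfl)
      rw [e]
      refine h3.trans (le_trans (le_of_eq ?_) (h4.trans (le_of_eq ?_)))
      · congr 1
        field_simp
      · ring
    · have e : PT.ind (T {i, j}) p = 0 := if_neg hpT
      have h3 := fib hg p hp {i, j} y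
      have hnu : nu g p {i, j} = 2 := by
        have : rts g {i, j} p = 2 := by exact_mod_cast hr
        omega
      have hodd : ∃ k, k ∉ ({i, j} : Finset ι) ∧ ∃ f ∈ facs (red p (g k)), Odd f.natDegree := by
        obtain ⟨k, hki, hkj, hk⟩ := hK i j hij hi hj
        refine ⟨k, by simp [hki, hkj], ?_⟩
        by_contra hcon
        push Not at hcon
        have h5 : Even (∑ h ∈ facs (red p (g k)), h.natDegree) :=
          Finset.even_sum _ fun h hh => Nat.not_odd_iff_even.1 (hcon h hh)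
        rw [twnu_sum hg p hp k] at h5
        exact (Nat.not_odd_iff_even.2 h5) hk
      rw [if_pos hodd, hd2, hnu, hr] at h3
      have hr' : rts g {i, j} p = 2 := by exact_mod_cast hr
      rw [hr'] at h3
      have h4 := twfibn_pair _ _ hN1 hbig 1 (Or.inl rfl)
      rw [e]
      refine h3.trans (le_trans (le_of_eq ?_) (h4.trans (le_of_eq ?_)))
      · congr 1
        norm_num
        field_simp
      · ring
  · have hgn : gn g S T I p = PT.ind S p / 4 := if_neg hd2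
    rw [hgn]
    refine (fib hg p hp I y).trans ?_
    have hi0 : 0 ≤ PT.ind S p := by unfold PT.ind; split_ifs <;> norm_num
    have hi1 : PT.ind S p ≤ 1 := by unfold PT.ind; split_ifs <;> norm_num
    exact twfibn_core (∑ i, (g i).natDegree) (dg g I) (rts g I p) (nu g p I) _ (p : ℝ) (PT.ind S p) (by omega) hbig hn1 hn2
      (twfibn_dg_le g I) (by omega) hi0 hi1 (twfibn_kap hg S hS p hp I hI hd2)

theorem fib_one {ι : Type} [Fintype ι] [DecidableEq ι] {g : ι → ℤ[X]} (hg : Fam g) (S : Set ℕ)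
    (hS : ∀ p ∈ S, ∀ i, PT.rt (g i) p = (g i).natDegree) (i₀ : ι) (hi₀ : 2 ≤ (g i₀).natDegree) (p : ℕ) (hp : GoodP g p)
    (hpS : p ∈ S) (y : Co g → ZMod p) :
    (Nat.card {w : Co g → ZMod p // Al g p w ∧ ∀ c : Co g, c.1 ≠ i₀ → w c = y c} : ℝ) ≤
      (p : ℝ) ^ (g i₀).natDegree * (1 - 1 / (2 * (p : ℝ))) := by
  classical
  have : Fact p.Prime := ⟨hp.prime⟩
  have hdg : dg g {i₀} = (g i₀).natDegree := Finset.sum_singleton _ _
  have hr : rts g {i₀} p = (g i₀).natDegree := by rw [twfibn_rts g p {i₀} (hS p hpS), hdg]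
  obtain ⟨hn1, hn2, hn3, hn4⟩ := nu_facts hg p hp {i₀}
  have hv : nu g p {i₀} = (g i₀).natDegree := by omega
  have hfib := fib hg p hp {i₀} y
  have hcard : Nat.card {w : Co g → ZMod p // Al g p w ∧ ∀ c : Co g, c.1 ≠ i₀ → w c = y c} =
      Nat.card {w : Co g → ZMod p // Al g p w ∧ ∀ c : Co g, c.1 ∉ ({i₀} : Finset ι) → w c = y c} := by
    simp only [Finset.mem_singleton]
  rw [hcard]
  refine hfib.trans ?_
  rw [hdg, hr, hv]
  set n := (g i₀).natDegree with hn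
  have hκ : (if ∃ i, i ∉ ({i₀} : Finset ι) ∧ ∃ f ∈ facs (red p (g i)), Odd f.natDegree then (1 : ℝ) else 2) * n ≤
      2 ^ (n - 1) := by
    by_cases hodd : ∃ i, i ∉ ({i₀} : Finset ι) ∧ ∃ f ∈ facs (red p (g i)), Odd f.natDegree
    · rw [if_pos hodd, one_mul]
      exact twfibn_pow1 n (by omega)
    · rw [if_neg hodd]
      have hI' : ({i₀} : Finset ι) = univ := by
        apply Finset.eq_univ_of_forall
        intro i
        by_contra hi
        exact hodd ⟨i, hi, twfibn_odd hg p hp i (hS p hpS i)⟩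
      have h6 : 6 ≤ n := by
        rw [← hdg, hI']; exact hg.six
      exact twfibn_pow3 n (by omega)
  generalize (if ∃ i, i ∉ ({i₀} : Finset ι) ∧ ∃ f ∈ facs (red p (g i)), Odd f.natDegree then (1 : ℝ) else 2) = κ at hκ ⊢
  have hp2 : (2 : ℝ) ≤ p := by exact_mod_cast hp.prime.two_le
  have hp0 : (0 : ℝ) < p := by linarith
  have hP : (0 : ℝ) < (p : ℝ) ^ n := by positivity
  have hx0 : 0 ≤ 1 / (p : ℝ) := by positivity
  have hx2 : 1 / (p : ℝ) ≤ 1 / 2 := one_div_le_one_div_of_le (by norm_num) hp2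
  have hrhs : 1 - 1 / (2 * (p : ℝ)) = 1 - (1 / (p : ℝ)) / 2 := by field_simp
  rw [hrhs]
  apply max_le
  · have h2 : κ * n * ((p : ℝ) ^ n / (p * 2 ^ (n - 1))) ≤ (p : ℝ) ^ n * (1 / (p : ℝ)) := by
      have h3 : κ * n * ((p : ℝ) ^ n / (p * 2 ^ (n - 1))) = (κ * n) * ((p : ℝ) ^ n * (1 / (p : ℝ)) / 2 ^ (n - 1)) := by
        field_simp
      have h4 : (p : ℝ) ^ n * (1 / (p : ℝ)) = (2 ^ (n - 1)) * ((p : ℝ) ^ n * (1 / (p : ℝ)) / 2 ^ (n - 1)) := by
        field_simp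
      rw [h3]
      refine (mul_le_mul_of_nonneg_right hκ (by positivity)).trans ?_
      rw [← h4]
    have h5 : (1 - 1 / (p : ℝ)) ^ n ≤ (1 - 1 / (p : ℝ)) ^ 2 :=
      pow_le_pow_of_le_one (by linarith) (by linarith) hi₀
    have h6 : (p : ℝ) ^ n * (1 - 1 / (p : ℝ)) ^ n ≤ (p : ℝ) ^ n * (1 - 1 / (p : ℝ)) ^ 2 :=
      mul_le_mul_of_nonneg_left h5 hP.le
    have h7 : (1 - 1 / (p : ℝ)) ^ 2 + 1 / (p : ℝ) ≤ 1 - 1 / (p : ℝ) / 2 := by nlinarith
    calc _ ≤ (p : ℝ) ^ n * (1 - 1 / (p : ℝ)) ^ 2 + (p : ℝ) ^ n * (1 / (p : ℝ)) := add_le_add h6 h2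
      _ = (p : ℝ) ^ n * ((1 - 1 / (p : ℝ)) ^ 2 + 1 / (p : ℝ)) := by ring
      _ ≤ _ := mul_le_mul_of_nonneg_left h7 hP.le
  · have h6 : (4 : ℝ) ≤ 2 ^ n := by
      calc (4 : ℝ) = 2 ^ 2 := by norm_num
        _ ≤ 2 ^ n := pow_le_pow_right₀ (by norm_num) hi₀
    have h7 : 2 * ((p : ℝ) ^ n / 2 ^ n) ≤ (p : ℝ) ^ n * (1 / 2) := by
      have : (p : ℝ) ^ n / 2 ^ n ≤ (p : ℝ) ^ n / 4 := div_le_div_of_nonneg_left hP.le (by norm_num) h6
      linarith
    refine h7.trans (mul_le_mul_of_nonneg_left ?_ hP.le)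
    linarith

end TR
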