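import Pool.Agent.Lib.MP_10e784_agTR.Defs

/-!
# The sets of primes for the pairs of linear polynomials
-/

set_option autoImplicit false

namespace TR

open Polynomial Finset TW

/-- sets of primes of positive lower density at which at most one of the two labels of a pair of linear indices occurs -/
def HasT {ι : Type} [Fintype ι] [DecidableEq ι] (g : ι → ℤ[X]) : Prop :=
  ∃ (T : Finset ι → Set ℕ) (c C : ℝ), 0 < c ∧ 0 ≤ C ∧ PairT g T ∧ ∀ I : Finset ι, I.card = 2 → dg g I = 2 → Inc (T I) c C

end TR
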