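import Pool.Agent.Lib.MP_10e784_agTR.TRInc
import Pool.Agent.Lib.MP_10e784_agTR.HasT
import Pool.Agent.Lib.MP_10e784_agTR.TWNrm

/-!
# The sets of primes for the pairs of linear polynomials exist

`g i = X - r`, `g j = X - s`, `g k₀` of odd degree, `R` the resultant of `g k₀` and `(r - X) (s - X)`. If `c (r - X) (s - X)` is a
square modulo all irreducible factors of `g k₀` modulo `p` then `c R` is a square modulo `p`. There is a `k'` such that
`d = R (r - X) (s - X)` is not a square modulo `g k'`; `T {i, j}` is the set of the primes `p` such that `d(t)` is not a square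
modulo `p` for a root `t` of `g k'`.
-/

set_option autoImplicit false

namespace TR

open Polynomial Finset TW

/-- the product `(r - X) (s - X)` -/
noncomputable def pd {ι : Type} (g : ι → ℤ[X]) (i j : ι) : ℤ[X] := (C (-((g i).coeff 0)) - X) * (C (-((g j).coeff 0)) - X)

private theorem pairs_cop {ι : Type} [Fintype ι] {g : ι → ℤ[X]} (hg : Fam g) {k i : ι} (hki : k ≠ i)
    (hi : (g i).natDegree = 1) : IsCoprime (qq (g k)) (C (-((g i).coeff 0 : ℚ)) - X) := by
  have hinj : Function.Injective (Polynomial.map (Int.castRingHom ℚ)) :=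
    Polynomial.map_injective _ Int.cast_injective
  have h7 : g i = X + C ((g i).coeff 0) := (hg.monic i).eq_X_add_C hi
  have h8 : qq (g i) = X + C ((g i).coeff 0 : ℚ) := by
    unfold qq
    conv_lhs => rw [h7]
    simp
  have h9 : (C (-((g i).coeff 0 : ℚ)) - X : ℚ[X]) = -(qq (g i)) := by
    rw [h8]
    simp only [map_neg]
    ring
  rw [h9]
  apply IsCoprime.neg_right
  have hirrk : Irreducible (qq (g k)) := hg.irr k
  have hirri : Irreducible (qq (g i)) := hg.irr i
  rw [hirrk.coprime_iff_not_dvd]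
  intro hd
  have h1 := hirrk.associated_of_dvd hirri hd
  have h2 := eq_of_monic_of_associated ((hg.monic k).map (Int.castRingHom ℚ)) ((hg.monic i).map (Int.castRingHom ℚ)) h1
  exact hki (hg.inj (hinj h2))

/-- the resultant is not zero -/
private theorem pairs_res {ι : Type} [Fintype ι] {g : ι → ℤ[X]} (hg : Fam g) {k i j : ι} (hki : k ≠ i) (hkj : k ≠ j)
    (hi : (g i).natDegree = 1) (hj : (g j).natDegree = 1) :
    resultant (g k) (pd g i j) (g k).natDegree (pd g i j).natDegree ≠ 0 := by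
  have hinj : Function.Injective (Int.castRingHom ℚ) := Int.cast_injective
  have hdeg : (qq (g k)).natDegree = (g k).natDegree := natDegree_map_eq_of_injective hinj _
  have hd : (pd g i j).map (Int.castRingHom ℚ) =
      (C (-((g i).coeff 0 : ℚ)) - X) * (C (-((g j).coeff 0 : ℚ)) - X) := by
    simp [pd]
  have hc : IsCoprime (qq (g k)) ((pd g i j).map (Int.castRingHom ℚ)) := by
    rw [hd]
    exact (pairs_cop hg hki hi).mul_right (pairs_cop hg hkj hj)
  have hr := resultant_ne_zero _ _ hc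
  rw [hdeg, natDegree_map_eq_of_injective hinj] at hr
  intro h0
  apply hr
  have h6 := resultant_map_map (g k) (pd g i j) (g k).natDegree (pd g i j).natDegree (Int.castRingHom ℚ)
  rw [h0, map_zero] at h6
  exact h6

private theorem pairs_red {ι : Type} (g : ι → ℤ[X]) (i j : ι) (p : ℕ) :
    red p (pd g i j) = (C (-((g i).coeff 0 : ZMod p)) - X) * (C (-((g j).coeff 0 : ZMod p)) - X) := by
  simp [red, pd]

/-- `c R` is a square -/
private theorem pairs_sq {ι : Type} [Fintype ι] {g : ι → ℤ[X]} (hg : Fam g) {k i j : ι} (hki : k ≠ i) (hkj : k ≠ j)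
    (hodd : Odd (g k).natDegree) (p : ℕ) [Fact p.Prime] (hp : GoodP g p) (c : ZMod p) (hc : c ≠ 0) (hS : Sq2p g i j p c) :
    IsSquare (c * ((resultant (g k) (pd g i j) (g k).natDegree (pd g i j).natDegree : ℤ) : ZMod p)) := by
  have hres : resultant (red p (g k)) (red p (pd g i j)) (red p (g k)).natDegree (pd g i j).natDegree =
      ((resultant (g k) (pd g i j) (g k).natDegree (pd g i j).natDegree : ℤ) : ZMod p) := by
    rw [(red_monic hg p k).2]
    exact resultant_map_map _ _ _ _ (Int.castRingHom (ZMod p))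
  have h4 := res_sq (red p (g k)) (C c * red p (pd g i j)) (red_monic hg p k).1 (red_sqf hg p hp k)
    (fun h hm hirr hdvd => by
      obtain ⟨B, hB'⟩ := hS k hki hkj h hm hirr hdvd
      refine ⟨B, ?_⟩
      rw [pairs_red, ← mul_assoc]
      exact hB') (pd g i j).natDegree ((natDegree_C_mul_le _ _).trans natDegree_map_le)
  rw [resultant_C_mul_right, hres, (red_monic hg p k).2] at h4
  generalize ((resultant (g k) (pd g i j) (g k).natDegree (pd g i j).natDegree : ℤ) : ZMod p) = R at h4 ⊢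
  obtain ⟨m, hm⟩ := hodd
  rw [hm] at h4
  obtain ⟨z, hz⟩ := h4
  refine ⟨z * (c ^ m)⁻¹, ?_⟩
  have hcm : c ^ m ≠ 0 := pow_ne_zero m hc
  have h8 : z * (c ^ m)⁻¹ * (z * (c ^ m)⁻¹) = (z * z) * ((c ^ m)⁻¹ * (c ^ m)⁻¹) := by ring
  rw [h8, ← hz, pow_add, pow_one, mul_comm 2 m, pow_mul]
  field_simp

/-- one pair -/
private theorem pairs_one {ι : Type} [Fintype ι] [DecidableEq ι] {g : ι → ℤ[X]} (hg : Fam g) (hK : OddK g)
    (h2 : ∀ i j, i ≠ j → (g i).natDegree = 1 → (g j).natDegree = 1 → ¬ ∃ c : ℚ, c ≠ 0 ∧ Sq2 g i j c)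
    (i j : ι) (hij : i ≠ j) (hi : (g i).natDegree = 1) (hj : (g j).natDegree = 1) :
    ∃ (U : Set ℕ) (c C : ℝ), 0 < c ∧ Inc U c C ∧ ∀ p ∈ U, GoodP g p → ¬ ∃ c : ZMod p, c ≠ 0 ∧ Sq2p g i j p c := by
  obtain ⟨k, hki, hkj, hk⟩ := hK i j hij hi hj
  set R : ℤ := resultant (g k) (pd g i j) (g k).natDegree (pd g i j).natDegree with hR
  have hR0 : R ≠ 0 := pairs_res hg hki hkj hi hj
  have hex : ∃ k', k' ≠ i ∧ k' ≠ j ∧ ¬ ∃ B : ℚ[X], qq (g k') ∣
      C (R : ℚ) * (C (-((g i).coeff 0 : ℚ)) - X) * (C (-((g j).coeff 0 : ℚ)) - X) - B ^ 2 := by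
    by_contra hcon
    push Not at hcon
    apply h2 i j hij hi hj
    refine ⟨(R : ℚ), Int.cast_ne_zero.2 hR0, fun k' h3 h4 => ?_⟩
    exact hcon k' h3 h4
  obtain ⟨k', h3, h4, h5⟩ := hex
  have hd : (C R * pd g i j).map (Int.castRingHom ℚ) =
      C (R : ℚ) * (C (-((g i).coeff 0 : ℚ)) - X) * (C (-((g j).coeff 0 : ℚ)) - X) := by
    simp [pd, mul_assoc]
  obtain ⟨c, C', hc, hInc⟩ := nonres_inc (g k') (hg.monic k') (hg.irr k') (C R * pd g i j) (by
    rw [hd]
    exact h5)
  refine ⟨_, c, C', hc, hInc, ?_⟩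
  rintro p ⟨hp, t, ht, hns⟩ hgood ⟨e, he, hS⟩
  have : Fact p.Prime := ⟨hp⟩
  apply hns
  have h6 := pairs_sq hg hki hkj hk p hgood e he hS
  rw [← hR] at h6
  obtain ⟨B, hB⟩ := hS k' h3 h4 (X - C t) (monic_X_sub_C t) (irreducible_X_sub_C t) (dvd_iff_isRoot.2 ht)
  have h7 := dvd_iff_isRoot.1 hB
  have h8 : (red p (C R * pd g i j)).eval t =
      (R : ZMod p) * ((-((g i).coeff 0 : ZMod p) - t) * (-((g j).coeff 0 : ZMod p) - t)) := by
    have h9 : red p (C R * pd g i j) = C (R : ZMod p) * red p (pd g i j) := by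
      simp [red]
    rw [h9, pairs_red]
    simp
  rw [h8]
  simp only [IsRoot.def, eval_sub, eval_mul, eval_C, eval_X, eval_pow] at h7
  obtain ⟨z, hz⟩ := h6
  refine ⟨z * B.eval t * e⁻¹, ?_⟩
  have h9 : e * (-((g i).coeff 0 : ZMod p) - t) * (-((g j).coeff 0 : ZMod p) - t) = B.eval t ^ 2 := by
    linear_combination h7
  have h10 : z * B.eval t * e⁻¹ * (z * B.eval t * e⁻¹) = (z * z) * (B.eval t ^ 2) * (e⁻¹ * e⁻¹) := by ring
  rw [h10, ← hz, ← h9]
  field_simp

/-- the sets exist -/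
theorem hasT_of {ι : Type} [Fintype ι] [DecidableEq ι] {g : ι → ℤ[X]} (hg : Fam g) (hK : OddK g)
    (h2 : ∀ i j, i ≠ j → (g i).natDegree = 1 → (g j).natDegree = 1 → ¬ ∃ c : ℚ, c ≠ 0 ∧ Sq2 g i j c) : HasT g := by
  classical
  have hdeg : ∀ i, 1 ≤ (g i).natDegree := by
    intro i
    have h3 := (hg.irr i).natDegree_pos
    rwa [(hg.monic i).natDegree_map] at h3
  -- for every set
  have hex : ∀ I : Finset ι, ∃ (U : Set ℕ) (c C : ℝ), 0 < c ∧ 0 ≤ C ∧ (I.card = 2 → dg g I = 2 → Inc U c C) ∧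
      ∀ i j, i ≠ j → I = {i, j} → (g i).natDegree = 1 → (g j).natDegree = 1 → ∀ p ∈ U, GoodP g p →
        ¬ ∃ c : ZMod p, c ≠ 0 ∧ Sq2p g i j p c := by
    intro I
    by_cases hI : I.card = 2 ∧ dg g I = 2
    · obtain ⟨i, j, hij, rfl⟩ := Finset.card_eq_two.1 hI.1
      have hdd : (g i).natDegree + (g j).natDegree = 2 := by
        have h := hI.2
        unfold dg at h
        rwa [Finset.sum_pair hij] at h
      have hi : (g i).natDegree = 1 := by
        have := hdeg i
        have := hdeg j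
        omega
      have hj : (g j).natDegree = 1 := by omega
      obtain ⟨U, c, C', hc, hInc, hU⟩ := pairs_one hg hK h2 i j hij hi hj
      refine ⟨U, c, max C' 0, hc, le_max_right _ _, fun _ _ x y hx hxy => ?_, fun a b hab he _ _ p hp hgood => ?_⟩
      · have h3 := hInc x y hx hxy
        have h4 := le_max_left C' 0
        linarith
      · have h3 := hU p hp hgood
        have hcase : (a = i ∧ b = j) ∨ (a = j ∧ b = i) := by
          have ha : a ∈ ({i, j} : Finset ι) := by rw [he]; simp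
          have hb : b ∈ ({i, j} : Finset ι) := by rw [he]; simp
          simp only [Finset.mem_insert, Finset.mem_singleton] at ha hb
          rcases ha with rfl | rfl <;> rcases hb with rfl | rfl
          · exact absurd rfl hab
          · exact Or.inl ⟨rfl, rfl⟩
          · exact Or.inr ⟨rfl, rfl⟩
          · exact absurd rfl hab
        rcases hcase with ⟨rfl, rfl⟩ | ⟨rfl, rfl⟩
        · exact h3
        · rintro ⟨c, hc0, hS⟩
          apply h3
          refine ⟨c, hc0, fun k h4 h5 h hm hirr hd => ?_⟩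
          obtain ⟨B, hB⟩ := hS k h5 h4 h hm hirr hd
          refine ⟨B, ?_⟩
          rwa [mul_right_comm]
    · refine ⟨∅, 1, 0, one_pos, le_rfl, fun h3 h4 => absurd ⟨h3, h4⟩ hI, fun _ _ _ _ _ _ p hp => absurd hp (Set.notMem_empty p)⟩
  choose T c C' hc hC' hInc hT using hex
  refine ⟨T, ∏ I, min (c I) 1, ∑ I, C' I, Finset.prod_pos fun I _ => lt_min (hc I) one_pos,
    Finset.sum_nonneg fun I _ => hC' I, fun i j hij hi hj p hp hgood => hT _ i j hij rfl hi hj p hp hgood,
    fun I hI hd x y hx hxy => ?_⟩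
  have h3 := hInc I hI hd x y hx hxy
  have h4 : ∏ I, min (c I) 1 ≤ c I := by
    rw [← Finset.mul_prod_erase univ (fun I => min (c I) 1) (Finset.mem_univ I)]
    have h5 : ∏ J ∈ univ.erase I, min (c J) 1 ≤ 1 :=
      Finset.prod_le_one (fun J _ => (lt_min (hc J) one_pos).le) fun J _ => min_le_right _ _
    calc min (c I) 1 * ∏ J ∈ univ.erase I, min (c J) 1 ≤ min (c I) 1 * 1 :=
          mul_le_mul_of_nonneg_left h5 (lt_min (hc I) one_pos).le
      _ ≤ c I := by rw [mul_one]; exact min_le_left _ _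
  have h5 : C' I ≤ ∑ I, C' I := Finset.single_le_sum (f := C') (fun J _ => hC' J) (Finset.mem_univ I)
  have h6 : 0 ≤ Real.log (Real.log y) - Real.log (Real.log x) := by
    have h7 : 0 < Real.log x := Real.log_pos (by linarith)
    have h8 := Real.log_le_log h7 (Real.log_le_log (by linarith) hxy)
    linarith
  have h7 := mul_le_mul_of_nonneg_right h4 h6
  linarith

end TR
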