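import Pool.Agent.Lib.MP_10e784_agTR.TWMain
import Pool.Agent.Lib.MP_10e784_agTR.Pairs
import Pool.Agent.Lib.MP_10e784_agTR.RedR
import Pool.Agent.Lib.MP_10e784_agTR.FALT

/-!
# Almost all quadratic twists of a hyperelliptic curve with rational Weierstrass points have no other rational points
-/

set_option autoImplicit false

namespace TR

open Polynomial Finset Filter

private theorem fin_fin (N : ℕ) (P : ℤ → Prop) : {D : ℤ | Squarefree D ∧ |D| ≤ (N : ℤ) ∧ P D}.Finite :=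
  (Set.finite_Icc (-(N : ℤ)) N).subset fun _ hD => abs_le.1 hD.2.1

/-- For `f` squarefree of even degree at least 6 with the conditions on pairs of rational roots, almost none of the
quadratic twists `D y² = f(x)` has a rational point `(x, y)` with `y ≠ 0`. -/
theorem all_o (f : ℚ[X]) (hf : Squarefree f) (hdeg : Even f.natDegree) (h6 : 6 ≤ f.natDegree)
    (hK : ∀ r s : ℚ, f.eval r = 0 → f.eval s = 0 → r ≠ s →
      ∃ q : ℚ[X], Irreducible q ∧ q ∣ f ∧ Odd q.natDegree ∧ q.eval r ≠ 0 ∧ q.eval s ≠ 0)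
    (hH : ∀ r s : ℚ, f.eval r = 0 → f.eval s = 0 → r ≠ s → ∀ c : ℚ, c ≠ 0 → ∀ h : ℚ[X],
      ¬ f ∣ (X - C r) * (X - C s) * (C c * (X - C r) * (X - C s) - h ^ 2)) :
    Tendsto (fun N : ℕ => (Nat.card {D : ℤ // Squarefree D ∧ |D| ≤ (N : ℤ) ∧ ∃ x y : ℚ, y ≠ 0 ∧
      (D : ℚ) * y ^ 2 = f.eval x} : ℝ) / N) atTop (nhds 0) := by
  classical
  obtain ⟨n, g, a, hg, hOdd, hSq, ha, hred⟩ := red_R f hf hdeg h6
    (fun r s hrs hr hs => hK r s hr hs hrs) (fun r s hrs hr hs => hH r s hr hs hrs)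
  have h1 := main_TR hg hOdd (hasT_of hg hOdd hSq) a ha
  have hS := finite_triv f hf h6
  obtain ⟨S, hSdef⟩ : ∃ S : Set ℤ, S = {D : ℤ | Squarefree D ∧ ∃ r x y : ℚ, f.eval r = 0 ∧ y ≠ 0 ∧
      (D : ℚ) * y ^ 2 = f.eval x ∧ ∃ c : ℚ, c ≠ 0 ∧ ∃ h : ℚ[X],
        f ∣ (X - C r) * (C c * (X - C x) * (X - C r) - h ^ 2)} := ⟨_, rfl⟩
  rw [← hSdef] at hS
  have h2 : Tendsto (fun N : ℕ => (S.ncard : ℝ) / N) atTop (nhds 0) :=
    tendsto_const_div_atTop_nhds_zero_nat _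
  have h3 := h1.add h2
  rw [add_zero] at h3
  refine squeeze_zero (fun N => by positivity) (fun N => ?_) h3
  rw [← add_div]
  refine div_le_div_of_nonneg_right ?_ (Nat.cast_nonneg N)
  have e : ∀ P : ℤ → Prop, Nat.card {D : ℤ // Squarefree D ∧ |D| ≤ (N : ℤ) ∧ P D} =
      {D : ℤ | Squarefree D ∧ |D| ≤ (N : ℤ) ∧ P D}.ncard := fun P => rfl
  rw [e, e, ← Nat.cast_add, Nat.cast_le]
  refine (Set.ncard_le_ncard ?_ ((fin_fin N _).union hS)).trans (Set.ncard_union_le _ _)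
  rintro D ⟨hD, hN, x, y, hy, hxy⟩
  by_cases h : ∃ r : ℚ, f.eval r = 0 ∧ ∃ c : ℚ, c ≠ 0 ∧ ∃ h : ℚ[X],
      f ∣ (X - C r) * (C c * (X - C x) * (X - C r) - h ^ 2)
  · right
    rw [hSdef]
    obtain ⟨r, hr, c, hc, h, hd⟩ := h
    exact ⟨hD, r, x, y, hr, hy, hxy, c, hc, h, hd⟩
  · left
    exact ⟨hD, hN, hred D hD.ne_zero ⟨x, y, hy, hxy, h⟩⟩

end TR
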