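import Pool.Agent.Lib.MP_10e784_ag.TW.TWDefs

/-!
# Quadratic twists of hyperelliptic curves with any number of rational Weierstrass points: definitions
-/

set_option autoImplicit false

namespace TR

open Polynomial Finset TW

/-- a family of different monic polynomials, irreducible over `ℚ`, of even total degree at least six -/
structure Fam {ι : Type} [Fintype ι] (g : ι → ℤ[X]) : Prop where
  monic : ∀ i, (g i).Monic
  irr : ∀ i, Irreducible ((g i).map (Int.castRingHom ℚ))
  inj : Function.Injective g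
  even : Even (∑ i, (g i).natDegree)
  six : 6 ≤ ∑ i, (g i).natDegree

/-- besides any two linear polynomials there is one of odd degree -/
def OddK {ι : Type} (g : ι → ℤ[X]) : Prop :=
  ∀ i j, i ≠ j → (g i).natDegree = 1 → (g j).natDegree = 1 → ∃ k, k ≠ i ∧ k ≠ j ∧ Odd (g k).natDegree

/-- `X - r = g i` and `X - s = g j` are linear and `c (r - X) (s - X)` is a square modulo all the other `g k` -/
def Sq2 {ι : Type} (g : ι → ℤ[X]) (i j : ι) (c : ℚ) : Prop :=
  ∀ k, k ≠ i → k ≠ j → ∃ B : ℚ[X], qq (g k) ∣ C c * (C (-((g i).coeff 0 : ℚ)) - X) * (C (-((g j).coeff 0 : ℚ)) - X) - B ^ 2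

/-- the same modulo `p`, for all irreducible factors -/
def Sq2p {ι : Type} (g : ι → ℤ[X]) (i j : ι) (p : ℕ) (c : ZMod p) : Prop :=
  ∀ k, k ≠ i → k ≠ j → ∀ h : (ZMod p)[X], h.Monic → Irreducible h → h ∣ red p (g k) →
    ∃ B : (ZMod p)[X], h ∣ C c * (C (-((g i).coeff 0 : ZMod p)) - X) * (C (-((g j).coeff 0 : ZMod p)) - X) - B ^ 2

/-- for the good primes `p` in `T {i, j}` there is no `c ≠ 0` with `Sq2p g i j p c` -/
def PairT {ι : Type} [Fintype ι] [DecidableEq ι] (g : ι → ℤ[X]) (T : Finset ι → Set ℕ) : Prop :=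
  ∀ i j : ι, i ≠ j → (g i).natDegree = 1 → (g j).natDegree = 1 → ∀ p ∈ T {i, j}, GoodP g p →
    ¬ ∃ c : ZMod p, c ≠ 0 ∧ Sq2p g i j p c

/-- lower density of a set of primes, on all intervals -/
def Inc (T : Set ℕ) (c C : ℝ) : Prop :=
  ∀ x y : ℝ, 2 ≤ x → x ≤ y →
    c * (Real.log (Real.log y) - Real.log (Real.log x)) - C ≤ PT.PS (PT.ind T) y - PT.PS (PT.ind T) x

/-- the gain of the sieve at `p` for the set `I` of free indices -/
noncomputable def gn {ι : Type} (g : ι → ℤ[X]) (S : Set ℕ) (T : Finset ι → Set ℕ) (I : Finset ι) (p : ℕ) : ℝ :=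
  if dg g I = 2 then PT.ind (T I) p / 2 else PT.ind S p / 4

end TR
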