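import Pool.Agent.Lib.MP_10e784_agTR.TWFamC
import Pool.Agent.Lib.MP_10e784_ag.TW.TWCoset
import Pool.Agent.Lib.MP_10e784_agTR.TWNu

/-! JOB TWCnt.  The three counts.

All from `fam_count` with suitable `E` and `∏_{i ∈ I} ∏_{h ∈ facs} p ^ natDegree h = p ^ dg g I` (`sum_facs`, `red_monic`).
`countU`: `E i h = {x | x ≠ 0}` (`¬ h ∣ P ↔ mk h P ≠ 0`), `p ^ d - 1` elements; `p ^ d - 1 ≤ p ^ d` and for `d = 1`: `p - 1 = p (1 - 1/p)`; the number of factors of degree one is `rts g I p` (`rt_facs`), split the product with `Finset.prod_filter_mul_prod_filter_not` or bound every factor by `p ^ d * (if d = 1 then (1 - 1/p) else 1)`.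
`countZ`: `E i h = {x | x ≠ 0 ∧ IsSquare (x * mk h (C s * (C t - X)))}` for `h ≠ X - C t` (`(p ^ d - 1) / 2 ≤ p ^ d / 2` elements by `coset_adjoin`; `h ∤ C s * (C t - X)` because `h` is monic irreducible, different from `X - C t`, and `s ≠ 0`), and `E i (X - C t) = {0}` (one element, `p ^ 0 = p ^ 1 / p`).  `X - C t` is in `facs (red p (g i₀))` and in no other `facs (red p (g i))`
(`facs_disjoint`).  `pol g w i₀` vanishes at `t` iff `mk (X - C t) = 0` (`dvd_iff_isRoot`).  So the product is at most `p ^ dg * (1 / p) * (1 / 2) ^ (nu - 1)`.  `p ≠ 2` because `GoodP.big`.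
`countN`: the same without the exceptional factor (`i₀ ∉ I`, so `X - C t` is not in `facs (red p (g i))` for `i ∈ I`).
(The left sides are `≤`: the sets are contained in, or equal to, the sets of `fam_count`; use `Nat.card_mono`/`Nat.card_congr`, the ambient type `Co g → ZMod p` is finite.) -/

namespace TR

open TW

open Polynomial Finset

theorem twcnt_pow {ι : Type} [Fintype ι] {g : ι → ℤ[X]} (hg : Fam g) (p : ℕ) [Fact p.Prime]
    (hp : GoodP g p) (I : Finset ι) :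
    ∏ i ∈ I, ∏ h ∈ facs (red p (g i)), (p : ℝ) ^ h.natDegree = (p : ℝ) ^ dg g I := by
  unfold dg
  rw [← Finset.prod_pow_eq_pow_sum]
  refine Finset.prod_congr rfl fun i _ => ?_
  rw [Finset.prod_pow_eq_pow_sum, sum_facs (red_monic hg p i).1 (red_sqf hg p hp i),
    (red_monic hg p i).2]

theorem twcnt_bound {ι : Type} [Fintype ι] [DecidableEq ι] {g : ι → ℤ[X]} (hg : Fam g) (p : ℕ)
    [Fact p.Prime] (hp : GoodP g p) (I : Finset ι) (y : Co g → ZMod p)
    (P : (Co g → ZMod p) → Prop) (E : ι → (h : (ZMod p)[X]) → Set (AdjoinRoot h))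
    (b : ι → (ZMod p)[X] → ℝ)
    (hE : ∀ w : Co g → ZMod p, P w → ∀ i ∈ I, ∀ h ∈ facs (red p (g i)),
      AdjoinRoot.mk h (pol g w i) ∈ E i h)
    (hb : ∀ i ∈ I, ∀ h ∈ facs (red p (g i)),
      (Nat.card (E i h) : ℝ) ≤ (p : ℝ) ^ h.natDegree * b i h) :
    (Nat.card {w : Co g → ZMod p // P w ∧ ∀ c : Co g, c.1 ∉ I → w c = y c} : ℝ) ≤
      (p : ℝ) ^ dg g I * ∏ i ∈ I, ∏ h ∈ facs (red p (g i)), b i h := by
  have h1 : Nat.card {w : Co g → ZMod p // P w ∧ ∀ c : Co g, c.1 ∉ I → w c = y c} ≤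
      Nat.card {w : Co g → ZMod p // (∀ i ∈ I, ∀ h ∈ facs (red p (g i)),
        AdjoinRoot.mk h (pol g w i) ∈ E i h) ∧ ∀ c : Co g, c.1 ∉ I → w c = y c} := by
    refine Nat.card_le_card_of_injective
      (fun w => (⟨w.1, hE w.1 w.2.1, w.2.2⟩ : {w : Co g → ZMod p // (∀ i ∈ I,
        ∀ h ∈ facs (red p (g i)), AdjoinRoot.mk h (pol g w i) ∈ E i h) ∧
          ∀ c : Co g, c.1 ∉ I → w c = y c})) ?_
    intro w w' hw
    exact Subtype.ext (congrArg (fun v => v.1) hw)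
  rw [fam_count hg p hp I y E] at h1
  have h2 : (Nat.card {w : Co g → ZMod p // P w ∧ ∀ c : Co g, c.1 ∉ I → w c = y c} : ℝ) ≤
      ∏ i ∈ I, ∏ h ∈ facs (red p (g i)), (Nat.card (E i h) : ℝ) := by
    have h3 : ((Nat.card {w : Co g → ZMod p // P w ∧ ∀ c : Co g, c.1 ∉ I → w c = y c} : ℕ) : ℝ) ≤
      ((∏ i ∈ I, ∏ h ∈ facs (red p (g i)), Nat.card (E i h) : ℕ) : ℝ) := by exact_mod_cast h1
    refine h3.trans (le_of_eq ?_)
    push_cast
    rfl
  refine h2.trans ?_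
  rw [← twcnt_pow hg p hp I, ← Finset.prod_mul_distrib]
  refine Finset.prod_le_prod (fun i _ => Finset.prod_nonneg fun h _ => Nat.cast_nonneg _)
    fun i hi => ?_
  rw [← Finset.prod_mul_distrib]
  exact Finset.prod_le_prod (fun h _ => Nat.cast_nonneg _) fun h hh => hb i hi h hh

theorem twcnt_facs {ι : Type} [Fintype ι] {g : ι → ℤ[X]} (hg : Fam g) (p : ℕ) [Fact p.Prime]
    {i : ι} {h : (ZMod p)[X]} (hh : h ∈ facs (red p (g i))) :
    h.Monic ∧ Irreducible h ∧ h ∣ red p (g i) :=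
  (mem_facs (red_monic hg p i).1.ne_zero).1 hh

theorem twcnt_X_sub_C {ι : Type} [Fintype ι] {g : ι → ℤ[X]} (hg : Fam g) (p : ℕ) [Fact p.Prime]
    {i : ι} {t : ZMod p} (ht : (red p (g i)).eval t = 0) : X - C t ∈ facs (red p (g i)) :=
  (mem_facs (red_monic hg p i).1.ne_zero).2
    ⟨monic_X_sub_C t, irreducible_X_sub_C t, dvd_iff_isRoot.2 ht⟩

theorem twcnt_pos (p : ℕ) [Fact p.Prime] : (0 : ℝ) < p := by
  exact_mod_cast (Fact.out : p.Prime).pos

theorem twcnt_ne_two {ι : Type} [Fintype ι] {g : ι → ℤ[X]} (hg : Fam g) (p : ℕ)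
    (hp : GoodP g p) : p ≠ 2 := by
  have h1 := hp.big
  have h2 := hg.six
  nlinarith

theorem twcnt_not_dvd (p : ℕ) [Fact p.Prime] {h : (ZMod p)[X]} (hm : h.Monic)
    (hi : Irreducible h) {t s : ZMod p} (hs : s ≠ 0) (hne : h ≠ X - C t) :
    ¬ h ∣ C s * (C t - X) := by
  intro hd
  apply hne
  have h1 : h ∣ X - C t := by
    have h2 : X - C t = C (-s⁻¹) * (C s * (C t - X)) := by
      rw [← mul_assoc, ← C_mul, neg_mul, inv_mul_cancel₀ hs, C_neg, C_1]
      ring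
    rw [h2]
    exact Dvd.dvd.mul_left hd _
  exact eq_of_monic_of_associated hm (monic_X_sub_C t)
    (hi.associated_of_dvd (irreducible_X_sub_C t) h1)

theorem twcnt_card_half (p : ℕ) [Fact p.Prime] (hp2 : p ≠ 2) {h : (ZMod p)[X]} (hm : h.Monic)
    (hi : Irreducible h) {t s : ZMod p} (hs : s ≠ 0) (hne : h ≠ X - C t) :
    (Nat.card ({x : AdjoinRoot h | x ≠ 0 ∧ IsSquare (x * AdjoinRoot.mk h (C s * (C t - X)))} :
      Set (AdjoinRoot h)) : ℝ) ≤ (p : ℝ) ^ h.natDegree * (1 / 2) := by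
  have h1 := coset_adjoin p hp2 h hm hi (C s * (C t - X)) (twcnt_not_dvd p hm hi hs hne)
  have h2 : (Nat.card ({x : AdjoinRoot h | x ≠ 0 ∧
      IsSquare (x * AdjoinRoot.mk h (C s * (C t - X)))} : Set (AdjoinRoot h)) : ℝ) =
      ((p : ℝ) ^ h.natDegree - 1) / 2 := h1
  rw [h2]
  linarith

theorem twcnt_mem {ι : Type} {g : ι → ℤ[X]} (p : ℕ) [Fact p.Prime] {h : (ZMod p)[X]}
    {w : Co g → ZMod p} {i : ι} {t s : ZMod p}
    (hw : ¬ h ∣ pol g w i ∧ ∃ B : (ZMod p)[X], h ∣ pol g w i * C s * (C t - X) - B ^ 2) :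
    AdjoinRoot.mk h (pol g w i) ∈ ({x : AdjoinRoot h | x ≠ 0 ∧
      IsSquare (x * AdjoinRoot.mk h (C s * (C t - X)))} : Set (AdjoinRoot h)) := by
  refine ⟨fun h0 => hw.1 (AdjoinRoot.mk_eq_zero.1 h0), ?_⟩
  have h1 : IsSquare (AdjoinRoot.mk h (pol g w i * C s * (C t - X))) :=
    (isSquare_adjoin h _).2 hw.2
  rwa [mul_assoc, map_mul] at h1

theorem countU {ι : Type} [Fintype ι] [DecidableEq ι] {g : ι → ℤ[X]} (hg : Fam g) (p : ℕ) [Fact p.Prime] (hp : GoodP g p)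
    (I : Finset ι) (y : Co g → ZMod p) :
    (Nat.card {w : Co g → ZMod p // (∀ i ∈ I, ∀ h ∈ facs (red p (g i)), ¬ h ∣ pol g w i) ∧
        ∀ c : Co g, c.1 ∉ I → w c = y c} : ℝ) ≤ (p : ℝ) ^ dg g I * (1 - 1 / (p : ℝ)) ^ rts g I p := by
  have hp0 := twcnt_pos p
  have h1 := twcnt_bound hg p hp I y
    (fun w => ∀ i ∈ I, ∀ h ∈ facs (red p (g i)), ¬ h ∣ pol g w i)
    (fun _ h => {x : AdjoinRoot h | x ≠ 0})
    (fun _ h => if h.natDegree = 1 then (1 - 1 / (p : ℝ)) else 1)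
    (fun w hw i hi h hh => fun h0 => hw i hi h hh (AdjoinRoot.mk_eq_zero.1 h0)) ?_
  · refine h1.trans (le_of_eq ?_)
    congr 1
    unfold rts
    rw [← Finset.prod_pow_eq_pow_sum]
    refine Finset.prod_congr rfl fun i _ => ?_
    rw [← rt_facs hg p hp i, Finset.prod_ite, Finset.prod_const, Finset.prod_const_one, mul_one]
  · intro i hi h hh
    obtain ⟨hm, hirr, _⟩ := twcnt_facs hg p hh
    obtain ⟨hfin, hcard⟩ := card_adjoin p h hm
    have := hfin
    have : Fintype (AdjoinRoot h) := Fintype.ofFinite _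
    have h2 : Nat.card ({x : AdjoinRoot h | x ≠ 0} : Set (AdjoinRoot h)) + 1 =
        p ^ h.natDegree := by
      classical
      rw [← hcard, Nat.card_eq_fintype_card, Nat.card_eq_fintype_card, Set.card_ne_eq]
      have : 0 < Fintype.card (AdjoinRoot h) := Fintype.card_pos
      omega
    have h3 : (Nat.card ({x : AdjoinRoot h | x ≠ 0} : Set (AdjoinRoot h)) : ℝ) =
        (p : ℝ) ^ h.natDegree - 1 := by
      have h4 : ((Nat.card ({x : AdjoinRoot h | x ≠ 0} : Set (AdjoinRoot h)) + 1 : ℕ) : ℝ) =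
        ((p ^ h.natDegree : ℕ) : ℝ) := by rw [h2]
      push_cast at h4
      linarith
    rw [h3]
    by_cases hd : h.natDegree = 1
    · rw [if_pos hd, hd, pow_one]
      field_simp
      exact le_rfl
    · rw [if_neg hd]
      linarith

theorem countZ {ι : Type} [Fintype ι] [DecidableEq ι] {g : ι → ℤ[X]} (hg : Fam g) (p : ℕ) [Fact p.Prime] (hp : GoodP g p)
    (I : Finset ι) (y : Co g → ZMod p) (i₀ : ι) (hi₀ : i₀ ∈ I) (t s : ZMod p) (ht : (red p (g i₀)).eval t = 0) (hs : s ≠ 0) :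
    (Nat.card {w : Co g → ZMod p // ((pol g w i₀).eval t = 0 ∧ ∀ i ∈ I, ∀ h ∈ facs (red p (g i)), h ≠ X - C t →
        ¬ h ∣ pol g w i ∧ ∃ B : (ZMod p)[X], h ∣ pol g w i * C s * (C t - X) - B ^ 2) ∧
        ∀ c : Co g, c.1 ∉ I → w c = y c} : ℝ) ≤ (p : ℝ) ^ dg g I / (p * 2 ^ (nu g p I - 1)) := by
  classical
  have hp0 := twcnt_pos p
  have hp2 := twcnt_ne_two hg p hp
  have hX := twcnt_X_sub_C hg p ht
  have h1 := twcnt_bound hg p hp I y
    (fun w => (pol g w i₀).eval t = 0 ∧ ∀ i ∈ I, ∀ h ∈ facs (red p (g i)), h ≠ X - C t →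
        ¬ h ∣ pol g w i ∧ ∃ B : (ZMod p)[X], h ∣ pol g w i * C s * (C t - X) - B ^ 2)
    (fun _ h => if h = X - C t then {0} else
      {x : AdjoinRoot h | x ≠ 0 ∧ IsSquare (x * AdjoinRoot.mk h (C s * (C t - X)))})
    (fun _ h => (1 / 2) * (if h = X - C t then 2 / (p : ℝ) else 1)) ?_ ?_
  · refine h1.trans (le_of_eq ?_)
    simp only [Finset.prod_mul_distrib, Finset.prod_const]
    have h2 : ∏ i ∈ I, ∏ h ∈ facs (red p (g i)), (if h = X - C t then 2 / (p : ℝ) else 1) =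
        2 / (p : ℝ) := by
      rw [Finset.prod_eq_single i₀]
      · rw [Finset.prod_ite_eq' (facs (red p (g i₀))) (X - C t) (fun _ => 2 / (p : ℝ)), if_pos hX]
      · intro i hi hne
        refine Finset.prod_eq_one fun h hh => ?_
        rw [if_neg]
        rintro rfl
        exact facs_disjoint hg p hp hne hh hX
      · intro h
        exact absurd hi₀ h
    rw [h2, Finset.prod_pow_eq_pow_sum]
    have h3 : ∑ i ∈ I, (facs (red p (g i))).card = nu g p I := rfl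
    rw [h3]
    have h4 : 1 ≤ nu g p I := by
      rw [← h3]
      have h5 : 1 ≤ (facs (red p (g i₀))).card := Finset.card_pos.2 ⟨_, hX⟩
      exact h5.trans (Finset.single_le_sum (f := fun i => (facs (red p (g i))).card)
        (fun i _ => Nat.zero_le _) hi₀)
    obtain ⟨n, hn⟩ : ∃ n, nu g p I = n + 1 := ⟨nu g p I - 1, by omega⟩
    rw [hn, Nat.add_sub_cancel, one_div, inv_pow, pow_succ]
    field_simp
  · rintro w ⟨hw0, hw⟩ i hi h hh
    by_cases hX' : h = X - C t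
    · have hii : i = i₀ := by
        by_contra hne
        rw [hX'] at hh
        exact facs_disjoint hg p hp hne hh hX
      rw [if_pos hX', Set.mem_singleton_iff, AdjoinRoot.mk_eq_zero, hX', hii]
      exact dvd_iff_isRoot.2 hw0
    · rw [if_neg hX']
      exact twcnt_mem p (hw i hi h hh hX')
  · intro i hi h hh
    obtain ⟨hm, hirr, _⟩ := twcnt_facs hg p hh
    by_cases hX' : h = X - C t
    · rw [if_pos hX', if_pos hX', hX', natDegree_X_sub_C, pow_one]
      have h2 : (Nat.card ({0} : Set (AdjoinRoot (X - C t))) : ℝ) = 1 := by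
        rw [Nat.card_unique, Nat.cast_one]
      rw [h2]
      refine le_of_eq ?_
      field_simp
    · rw [if_neg hX', if_neg hX', mul_one]
      exact twcnt_card_half p hp2 hm hirr hs hX'

theorem countN {ι : Type} [Fintype ι] [DecidableEq ι] {g : ι → ℤ[X]} (hg : Fam g) (p : ℕ) [Fact p.Prime] (hp : GoodP g p)
    (I : Finset ι) (y : Co g → ZMod p) (i₀ : ι) (hi₀ : i₀ ∉ I) (t s : ZMod p) (ht : (red p (g i₀)).eval t = 0) (hs : s ≠ 0) :
    (Nat.card {w : Co g → ZMod p // (∀ i ∈ I, ∀ h ∈ facs (red p (g i)),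
        ¬ h ∣ pol g w i ∧ ∃ B : (ZMod p)[X], h ∣ pol g w i * C s * (C t - X) - B ^ 2) ∧
        ∀ c : Co g, c.1 ∉ I → w c = y c} : ℝ) ≤ (p : ℝ) ^ dg g I / 2 ^ nu g p I := by
  have hp0 := twcnt_pos p
  have hp2 := twcnt_ne_two hg p hp
  have hX := twcnt_X_sub_C hg p ht
  have h1 := twcnt_bound hg p hp I y
    (fun w => ∀ i ∈ I, ∀ h ∈ facs (red p (g i)),
        ¬ h ∣ pol g w i ∧ ∃ B : (ZMod p)[X], h ∣ pol g w i * C s * (C t - X) - B ^ 2)
    (fun _ h => {x : AdjoinRoot h | x ≠ 0 ∧ IsSquare (x * AdjoinRoot.mk h (C s * (C t - X)))})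
    (fun _ h => 1 / 2) (fun w hw i hi h hh => twcnt_mem p (hw i hi h hh)) ?_
  · refine h1.trans (le_of_eq ?_)
    simp only [Finset.prod_const]
    rw [Finset.prod_pow_eq_pow_sum]
    have h3 : ∑ i ∈ I, (facs (red p (g i))).card = nu g p I := rfl
    rw [h3, one_div, inv_pow]
    rfl
  · intro i hi h hh
    obtain ⟨hm, hirr, _⟩ := twcnt_facs hg p hh
    have hne : i ≠ i₀ := fun h => hi₀ (h ▸ hi)
    refine twcnt_card_half p hp2 hm hirr hs ?_
    rintro rfl
    exact facs_disjoint hg p hp hne hh hX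

end TR
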