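import Pool.Agent.Lib.MP_10e784_agTR.TWCnt

/-! JOB TWFib.  The fibre bound (combinatorial form).

`p` good, `I` a set of indices with at least one element, `J = univ \ I`, `ρ = rts g I p`, `ν = nu g p I`, `m = dg g I`.
Let `odd` be the statement: some `f ∈ facs (red p (g i))` with `i ∉ I` has odd degree; `κ = if odd then 1 else 2`.
Claim: the number of `w` in the fibre with `Al g p w` is at most `max (p ^ m * (1 - 1/p) ^ ρ + κ * ρ * p ^ m / (p * 2 ^ (ν - 1))) (2 * p ^ m / 2 ^ ν)`.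

(0) The condition with `s` depends only on the class of `s` modulo squares: if `s' = s * u ^ 2`, `u ≠ 0`, then `h ∣ P s (t - X) - B ^ 2` gives `h ∣ P s' (t - X) - (C u * B) ^ 2`.  `ZMod p` has two classes of nonzero elements: `1` and a nonsquare `n0` (`FiniteField.exists_nonsquare`, the product of two nonsquares is a square).
(1) Suppose that `y` is not a unit outside `I`: there are `i₁ ∉ I` and `f ∈ facs (red p (g i₁))` with `f ∣ pol g y i₁` (`pol g w i₁ = pol g y i₁` for `w` in the fibre, since the coordinates with first component `i₁` are frozen).  Then for `w` in the fibre with `Al` the first alternative fails; in the second alternative `f ≠ X - C t` is impossible, so `f = X - C t`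
(so `t` is the root of `f`, `t` is determined by `f`) and `i₀ = i₁` (`facs_disjoint`: `X - C t ∈ facs (red p (g i₀))`).  So `w` satisfies the condition of `countN` with this `t` and `s = 1` or `s = n0` by (0).  Total at most `2 * p ^ m / 2 ^ ν`.
(2) Otherwise: `w` satisfies the first alternative (counted by `countU`), or the second one with `(i₀, t, s)`; `i₀ ∈ I`, because for `i₀ ∉ I` the polynomial `X - C t ∈ facs (red p (g i₀))` would divide `pol g y i₀`.  For each pair `(i₀, t)` (there are `ρ = ∑_{i ∈ I} PT.rt (g i) p` of them) `w` satisfies the condition of `countZ` with `s = 1` or `s = n0`: at most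
`2 * p ^ m / (p * 2 ^ (ν - 1))` vectors.  If `odd` holds with `f`, `i₁ ∉ I`: `f ∤ pol g y i₁ =: P`, `f ∤ t - X` (else `f = X - C t` would divide both `red p (g i₀)` and `red p (g i₁)`, `i₀ ∈ I`, `i₁ ∉ I`), and `s P (t - X)` is a square modulo `f`; if both `s = 1` and `s = n0` (up to squares) occurred, `n0` would be a square in `AdjoinRoot f`, a field of odd degree over `ZMod p`:
impossible (take norms: `Algebra.norm (ZMod p) (algebraMap n0) = n0 ^ deg f` would be a square, `deg f` odd; or: `X ^ 2 - C n0` irreducible over `ZMod p` has a root in `AdjoinRoot f`, so `2 ∣ finrank = natDegree f`, see `minpoly`/`minpoly.degree_dvd`).  So only one class occurs (it depends on `y`, `t`, not on `w`), and the bound is `p ^ m / (p * 2 ^ (ν - 1))`. -/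

namespace TR

open TW

open Polynomial Finset

/-- a nonsquare of `ZMod p` is not a square in an extension of odd degree -/
private theorem twfib_odd (p : ℕ) [Fact p.Prime] (f : (ZMod p)[X]) (hm : f.Monic) (hi : Irreducible f)
    (hodd : Odd f.natDegree) (n0 : ZMod p) (hn : ¬ IsSquare n0) (b b' : AdjoinRoot f) (hb : b ≠ 0)
    (h : algebraMap (ZMod p) (AdjoinRoot f) n0 * b ^ 2 = b' ^ 2) : False := by
  have : Fact (Irreducible f) := ⟨hi⟩
  have hfin : Module.finrank (ZMod p) (AdjoinRoot f) = f.natDegree := by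
    rw [(AdjoinRoot.powerBasis' hm).finrank, AdjoinRoot.powerBasis'_dim]
  have : Module.Finite (ZMod p) (AdjoinRoot f) := (AdjoinRoot.powerBasis' hm).finite
  have h1 := congrArg (Algebra.norm (ZMod p)) h
  rw [map_mul, map_pow, map_pow, Algebra.norm_algebraMap, hfin] at h1
  have hN : Algebra.norm (ZMod p) b ≠ 0 := Algebra.norm_ne_zero_iff.2 hb
  have hn0 : n0 ≠ 0 := by
    rintro rfl
    exact hn (IsSquare.zero)
  obtain ⟨k, hk⟩ := hodd
  rw [hk] at h1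
  apply hn
  refine ⟨Algebra.norm (ZMod p) b' * (n0 ^ k * Algebra.norm (ZMod p) b)⁻¹, ?_⟩
  have hne : n0 ^ k * Algebra.norm (ZMod p) b ≠ 0 := mul_ne_zero (pow_ne_zero _ hn0) hN
  field_simp
  rw [← h1]
  ring

private theorem twfib_nonsq (p : ℕ) [Fact p.Prime] (hp2 : p ≠ 2) : ∃ n0 : ZMod p, ¬ IsSquare n0 ∧
    ∀ s : ZMod p, s ≠ 0 → (∃ u : ZMod p, u ≠ 0 ∧ 1 = s * u ^ 2) ∨ ∃ u : ZMod p, u ≠ 0 ∧ n0 = s * u ^ 2 := by
  have hch : ringChar (ZMod p) ≠ 2 := by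
    rw [ZMod.ringChar_zmod_n]
    exact hp2
  obtain ⟨n0, hn⟩ := FiniteField.exists_nonsquare hch
  have hn0 : n0 ≠ 0 := by
    rintro rfl
    exact hn (IsSquare.zero)
  refine ⟨n0, hn, fun s hs => ?_⟩
  by_cases h : IsSquare s
  · left
    obtain ⟨r, hr⟩ := h
    have hr0 : r ≠ 0 := by
      rintro rfl
      simp at hr
      exact hs hr
    refine ⟨r⁻¹, inv_ne_zero hr0, ?_⟩
    rw [hr]
    field_simp
  · right
    have h1 : IsSquare (n0 * s) := by
      have h2 := quadraticChar_neg_one_iff_not_isSquare (F := ZMod p) (a := n0)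
      have h3 := quadraticChar_neg_one_iff_not_isSquare (F := ZMod p) (a := s)
      have h4 : quadraticChar (ZMod p) (n0 * s) = 1 := by
        rw [map_mul, h2.2 hn, h3.2 h]
        norm_num
      exact (quadraticChar_one_iff_isSquare (mul_ne_zero hn0 hs)).1 h4
    obtain ⟨r, hr⟩ := h1
    have hr0 : r ≠ 0 := by
      rintro rfl
      simp at hr
      rcases hr with h | h
      · exact hn0 h
      · exact hs h
    refine ⟨r * s⁻¹, mul_ne_zero hr0 (inv_ne_zero hs), ?_⟩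
    have h5 : s * (r * s⁻¹) ^ 2 = (r * r) * s⁻¹ := by
      field_simp
    rw [h5, ← hr]
    field_simp

/-- the condition depends only on the class of `s` modulo squares -/
private theorem twfib_class {p : ℕ} {h P : (ZMod p)[X]} {t s s' u : ZMod p} (hs : s' = s * u ^ 2)
    (hB : ∃ B : (ZMod p)[X], h ∣ P * C s * (C t - X) - B ^ 2) :
    ∃ B : (ZMod p)[X], h ∣ P * C s' * (C t - X) - B ^ 2 := by
  obtain ⟨B, hB⟩ := hB
  refine ⟨C u * B, ?_⟩
  have e : P * C s' * (C t - X) - (C u * B) ^ 2 = C (u ^ 2) * (P * C s * (C t - X) - B ^ 2) := by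
    rw [hs, C_mul, C_pow]
    ring
  rw [e]
  exact hB.mul_left _

private theorem twfib_XC (p : ℕ) [Fact p.Prime] {f : (ZMod p)[X]} (hf : f ≠ 0) {t : ZMod p}
    (ht : f.eval t = 0) : (X - C t) ∈ facs f :=
  (mem_facs hf).2 ⟨monic_X_sub_C t, irreducible_X_sub_C t, dvd_iff_isRoot.2 ht⟩

/-- the second alternative, for given `i₀`, `t`, `s` -/
private def Sec {ι : Type} (g : ι → ℤ[X]) (p : ℕ) (i₀ : ι) (t s : ZMod p) (w : Co g → ZMod p) : Prop :=
  (pol g w i₀).eval t = 0 ∧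
    ∀ i, ∀ h : (ZMod p)[X], h.Monic → Irreducible h → h ∣ red p (g i) → h ≠ X - C t →
      ¬ h ∣ pol g w i ∧ ∃ B : (ZMod p)[X], h ∣ pol g w i * C s * (C t - X) - B ^ 2

private theorem twfib_pol {ι : Type} {g : ι → ℤ[X]} {p : ℕ} {I : Finset ι} {y w : Co g → ZMod p}
    (hw : ∀ c : Co g, c.1 ∉ I → w c = y c) {i : ι} (hi : i ∉ I) : pol g w i = pol g y i := by
  unfold pol
  refine Finset.sum_congr rfl fun c _ => ?_
  rw [hw ⟨i, c⟩ hi]

private theorem twfib_rts {ι : Type} (g : ι → ℤ[X]) (p : ℕ) [Fact p.Prime] (I : Finset ι) :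
    ∃ Q : Finset (Σ _ : ι, ZMod p), Q.card = rts g I p ∧
      ∀ i t, (⟨i, t⟩ : Σ _ : ι, ZMod p) ∈ Q ↔ i ∈ I ∧ (red p (g i)).eval t = 0 := by
  classical
  refine ⟨I.sigma fun i => univ.filter fun t => (red p (g i)).eval t = 0, ?_, fun i t => ?_⟩
  · rw [card_sigma]
    unfold rts
    refine Finset.sum_congr rfl fun i _ => ?_
    unfold PT.rt
    rw [Nat.card_eq_fintype_card, Fintype.card_subtype]
    rfl
  · rw [mem_sigma, mem_filter]
    simp

private theorem twfib_p2 {ι : Type} [Fintype ι] {g : ι → ℤ[X]} (hg : Fam g) {p : ℕ} (hp : GoodP g p) : p ≠ 2 := by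
  have h1 := hg.six
  have h2 := hp.big
  rintro rfl
  have h3 : 6 * 6 ≤ (∑ i, (g i).natDegree) ^ 2 := by nlinarith
  omega

/-- the bound for one pair `(i₀, t)` -/
private theorem twfib_pair {ι : Type} [Fintype ι] [DecidableEq ι] {g : ι → ℤ[X]} (hg : Fam g) (p : ℕ)
    [Fact p.Prime] (hp : GoodP g p) (I : Finset ι) (y : Co g → ZMod p) (κ : ℝ)
    (hκ : κ = 2 ∨ κ = 1 ∧ ∃ i, i ∉ I ∧ ∃ f ∈ facs (red p (g i)), Odd f.natDegree)
    (i₀ : ι) (hi₀ : i₀ ∈ I) (t : ZMod p) (ht : (red p (g i₀)).eval t = 0) :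
    (Set.ncard {w : Co g → ZMod p | (∃ s, s ≠ 0 ∧ Sec g p i₀ t s w) ∧ ∀ c : Co g, c.1 ∉ I → w c = y c} : ℝ) ≤
      κ * ((p : ℝ) ^ dg g I / (p * 2 ^ (nu g p I - 1))) := by
  have hp2 := twfib_p2 hg hp
  obtain ⟨n0, hn, hcl⟩ := twfib_nonsq p hp2
  have hn0 : n0 ≠ 0 := by
    rintro rfl
    exact hn (IsSquare.zero)
  have hne : ∀ i, red p (g i) ≠ 0 := fun i => (red_monic hg p i).1.ne_zero
  have hX := twfib_XC p (hne i₀) ht
  have hsub : ∀ s : ZMod p, s ≠ 0 → (Set.ncard {w : Co g → ZMod p | Sec g p i₀ t s w ∧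
      ∀ c : Co g, c.1 ∉ I → w c = y c} : ℝ) ≤ (p : ℝ) ^ dg g I / (p * 2 ^ (nu g p I - 1)) := by
    intro s hs
    refine le_trans ?_ (countZ hg p hp I y i₀ hi₀ t s ht hs)
    have h1 : {w : Co g → ZMod p | Sec g p i₀ t s w ∧ ∀ c : Co g, c.1 ∉ I → w c = y c} ⊆
        {w : Co g → ZMod p | ((pol g w i₀).eval t = 0 ∧ ∀ i ∈ I, ∀ h ∈ facs (red p (g i)), h ≠ X - C t →
        ¬ h ∣ pol g w i ∧ ∃ B : (ZMod p)[X], h ∣ pol g w i * C s * (C t - X) - B ^ 2) ∧
        ∀ c : Co g, c.1 ∉ I → w c = y c} := by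
      rintro w ⟨⟨h2, h3⟩, h4⟩
      refine ⟨⟨h2, fun i _ h hh hne' => ?_⟩, h4⟩
      obtain ⟨ha, hb, hc⟩ := (mem_facs (hne i)).1 hh
      exact h3 i h ha hb hc hne'
    have h2 := Set.ncard_le_ncard h1 (Set.toFinite _)
    exact_mod_cast h2
  have hall : ∀ w s, s ≠ 0 → Sec g p i₀ t s w → Sec g p i₀ t 1 w ∨ Sec g p i₀ t n0 w := by
    rintro w s hs ⟨h1, h2⟩
    rcases hcl s hs with ⟨u, hu, he⟩ | ⟨u, hu, he⟩
    · left
      exact ⟨h1, fun i h a b c d => ⟨(h2 i h a b c d).1, twfib_class he (h2 i h a b c d).2⟩⟩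
    · right
      exact ⟨h1, fun i h a b c d => ⟨(h2 i h a b c d).1, twfib_class he (h2 i h a b c d).2⟩⟩
  have hpos : (0 : ℝ) ≤ (p : ℝ) ^ dg g I / (p * 2 ^ (nu g p I - 1)) := by positivity
  rcases hκ with rfl | ⟨rfl, i₁, hi₁, f, hf, hodd⟩
  · have h1 : {w : Co g → ZMod p | (∃ s, s ≠ 0 ∧ Sec g p i₀ t s w) ∧ ∀ c : Co g, c.1 ∉ I → w c = y c} ⊆
        {w : Co g → ZMod p | Sec g p i₀ t 1 w ∧ ∀ c : Co g, c.1 ∉ I → w c = y c} ∪
        {w : Co g → ZMod p | Sec g p i₀ t n0 w ∧ ∀ c : Co g, c.1 ∉ I → w c = y c} := by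
      rintro w ⟨⟨s, hs, h2⟩, h3⟩
      rcases hall w s hs h2 with h4 | h4
      · exact Or.inl ⟨h4, h3⟩
      · exact Or.inr ⟨h4, h3⟩
    have h2 := (Set.ncard_le_ncard h1 (Set.toFinite _)).trans (Set.ncard_union_le _ _)
    have h3 : (Set.ncard {w : Co g → ZMod p | (∃ s, s ≠ 0 ∧ Sec g p i₀ t s w) ∧
        ∀ c : Co g, c.1 ∉ I → w c = y c} : ℝ) ≤
        (Set.ncard {w : Co g → ZMod p | Sec g p i₀ t 1 w ∧ ∀ c : Co g, c.1 ∉ I → w c = y c} : ℝ) +
        (Set.ncard {w : Co g → ZMod p | Sec g p i₀ t n0 w ∧ ∀ c : Co g, c.1 ∉ I → w c = y c} : ℝ) := by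
      exact_mod_cast h2
    have h4 := hsub 1 one_ne_zero
    have h5 := hsub n0 hn0
    linarith
  · rw [one_mul]
    -- only one class occurs
    have hii : i₀ ≠ i₁ := by
      rintro rfl
      exact hi₁ hi₀
    obtain ⟨fm, fi, fd⟩ := (mem_facs (hne i₁)).1 hf
    have hfX : f ≠ X - C t := by
      rintro rfl
      exact facs_disjoint hg p hp hii hX hf
    have hfd : ¬ f ∣ C t - X := by
      intro h
      have h1 : f ∣ X - C t := by
        have := (dvd_neg (a := f) (b := C t - X)).2 h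
        rwa [neg_sub] at this
      have h2 := fi.associated_of_dvd (irreducible_X_sub_C t) h1
      exact hfX (eq_of_monic_of_associated fm (monic_X_sub_C t) h2)
    by_cases hex : ∃ w, Sec g p i₀ t 1 w ∧ ∀ c : Co g, c.1 ∉ I → w c = y c
    · obtain ⟨w0, hw0, hw0y⟩ := hex
      refine le_trans ?_ (hsub 1 one_ne_zero)
      have h1 : {w : Co g → ZMod p | (∃ s, s ≠ 0 ∧ Sec g p i₀ t s w) ∧ ∀ c : Co g, c.1 ∉ I → w c = y c} ⊆
          {w : Co g → ZMod p | Sec g p i₀ t 1 w ∧ ∀ c : Co g, c.1 ∉ I → w c = y c} := by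
        rintro w ⟨⟨s, hs, h2⟩, h3⟩
        rcases hall w s hs h2 with h4 | h4
        · exact ⟨h4, h3⟩
        · exfalso
          obtain ⟨hnd, B, hB⟩ := hw0.2 i₁ f fm fi fd hfX
          obtain ⟨_, B', hB'⟩ := h4.2 i₁ f fm fi fd hfX
          rw [twfib_pol hw0y hi₁] at hnd hB
          rw [twfib_pol h3 hi₁] at hB'
          have hfp : Prime f := fi.prime
          have hBn : ¬ f ∣ B := by
            intro h
            have h5 : f ∣ B ^ 2 := dvd_pow h two_ne_zero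
            have h6 := dvd_add hB h5
            rw [sub_add_cancel, C_1, mul_one] at h6
            rcases hfp.dvd_or_dvd h6 with h7 | h7
            · exact hnd h7
            · exact hfd h7
          refine twfib_odd p f fm fi hodd n0 hn (AdjoinRoot.mk f B) (AdjoinRoot.mk f B') ?_ ?_
          · intro h5
            exact hBn (AdjoinRoot.mk_eq_zero.1 h5)
          · have h5 : f ∣ C n0 * B ^ 2 - B' ^ 2 := by
              have h6 := dvd_sub hB' (hB.mul_left (C n0))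
              have e : pol g y i₁ * C n0 * (C t - X) - B' ^ 2 - C n0 * (pol g y i₁ * C 1 * (C t - X) - B ^ 2)
                  = C n0 * B ^ 2 - B' ^ 2 := by
                rw [C_1]
                ring
              rwa [e] at h6
            have h7 := AdjoinRoot.mk_eq_mk.2 h5
            rw [map_mul, map_pow, map_pow] at h7
            exact h7
      have h2 := Set.ncard_le_ncard h1 (Set.toFinite _)
      exact_mod_cast h2
    · refine le_trans ?_ (hsub n0 hn0)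
      have h1 : {w : Co g → ZMod p | (∃ s, s ≠ 0 ∧ Sec g p i₀ t s w) ∧ ∀ c : Co g, c.1 ∉ I → w c = y c} ⊆
          {w : Co g → ZMod p | Sec g p i₀ t n0 w ∧ ∀ c : Co g, c.1 ∉ I → w c = y c} := by
        rintro w ⟨⟨s, hs, h2⟩, h3⟩
        rcases hall w s hs h2 with h4 | h4
        · exact absurd ⟨w, h4, h3⟩ hex
        · exact ⟨h4, h3⟩
      have h2 := Set.ncard_le_ncard h1 (Set.toFinite _)
      exact_mod_cast h2

private theorem twfib_case2 {ι : Type} [Fintype ι] [DecidableEq ι] {g : ι → ℤ[X]} (hg : Fam g) (p : ℕ)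
    [Fact p.Prime] (hp : GoodP g p) (I : Finset ι) (y : Co g → ZMod p) (κ : ℝ)
    (hκ : κ = 2 ∨ κ = 1 ∧ ∃ i, i ∉ I ∧ ∃ f ∈ facs (red p (g i)), Odd f.natDegree)
    (hy : ∀ i, i ∉ I → ∀ f ∈ facs (red p (g i)), ¬ f ∣ pol g y i) :
    (Set.ncard {w : Co g → ZMod p | Al g p w ∧ ∀ c : Co g, c.1 ∉ I → w c = y c} : ℝ) ≤
      (p : ℝ) ^ dg g I * (1 - 1 / (p : ℝ)) ^ rts g I p +
        κ * rts g I p * ((p : ℝ) ^ dg g I / (p * 2 ^ (nu g p I - 1))) := by
  have hne : ∀ i, red p (g i) ≠ 0 := fun i => (red_monic hg p i).1.ne_zero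
  obtain ⟨Q, hQc, hQ⟩ := twfib_rts g p I
  have hsub : {w : Co g → ZMod p | Al g p w ∧ ∀ c : Co g, c.1 ∉ I → w c = y c} ⊆
      {w : Co g → ZMod p | (∀ i ∈ I, ∀ h ∈ facs (red p (g i)), ¬ h ∣ pol g w i) ∧
        ∀ c : Co g, c.1 ∉ I → w c = y c} ∪
      ⋃ q ∈ Q, {w : Co g → ZMod p | (∃ s, s ≠ 0 ∧ Sec g p q.1 q.2 s w) ∧
        ∀ c : Co g, c.1 ∉ I → w c = y c} := by
    rintro w ⟨hA | ⟨i₀, t, s, hs, ht, hpt, hall⟩, hw⟩
    · left
      refine ⟨fun i _ h hh => ?_, hw⟩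
      obtain ⟨ha, hb, hc⟩ := (mem_facs (hne i)).1 hh
      exact hA i h ha hb hc
    · right
      have hi₀ : i₀ ∈ I := by
        by_contra hcon
        refine hy i₀ hcon _ (twfib_XC p (hne i₀) ht) ?_
        rw [← twfib_pol hw hcon]
        exact dvd_iff_isRoot.2 hpt
      rw [Set.mem_iUnion₂]
      exact ⟨⟨i₀, t⟩, (hQ i₀ t).2 ⟨hi₀, ht⟩, ⟨s, hs, hpt, hall⟩, hw⟩
  have h1 := Set.ncard_le_ncard hsub (Set.toFinite _)
  have h2 := (h1.trans (Set.ncard_union_le _ _)).trans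
    (Nat.add_le_add_left (Finset.set_ncard_biUnion_le Q _) _)
  have h3 : (Set.ncard {w : Co g → ZMod p | Al g p w ∧ ∀ c : Co g, c.1 ∉ I → w c = y c} : ℝ) ≤
      (Set.ncard {w : Co g → ZMod p | (∀ i ∈ I, ∀ h ∈ facs (red p (g i)), ¬ h ∣ pol g w i) ∧
        ∀ c : Co g, c.1 ∉ I → w c = y c} : ℝ) +
      ∑ q ∈ Q, (Set.ncard {w : Co g → ZMod p | (∃ s, s ≠ 0 ∧ Sec g p q.1 q.2 s w) ∧
        ∀ c : Co g, c.1 ∉ I → w c = y c} : ℝ) := by
    exact_mod_cast h2
  have h4 : (Set.ncard {w : Co g → ZMod p | (∀ i ∈ I, ∀ h ∈ facs (red p (g i)), ¬ h ∣ pol g w i) ∧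
        ∀ c : Co g, c.1 ∉ I → w c = y c} : ℝ) ≤ (p : ℝ) ^ dg g I * (1 - 1 / (p : ℝ)) ^ rts g I p :=
    countU hg p hp I y
  have h5 : ∑ q ∈ Q, (Set.ncard {w : Co g → ZMod p | (∃ s, s ≠ 0 ∧ Sec g p q.1 q.2 s w) ∧
        ∀ c : Co g, c.1 ∉ I → w c = y c} : ℝ) ≤
        ∑ q ∈ Q, κ * ((p : ℝ) ^ dg g I / (p * 2 ^ (nu g p I - 1))) := by
    refine Finset.sum_le_sum fun q hq => ?_
    obtain ⟨a, b⟩ := (hQ q.1 q.2).1 hq
    exact twfib_pair hg p hp I y κ hκ q.1 a q.2 b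
  rw [Finset.sum_const, hQc, nsmul_eq_mul] at h5
  have e : (rts g I p : ℝ) * (κ * ((p : ℝ) ^ dg g I / (p * 2 ^ (nu g p I - 1)))) =
      κ * rts g I p * ((p : ℝ) ^ dg g I / (p * 2 ^ (nu g p I - 1))) := by ring
  rw [e] at h5
  linarith

private theorem twfib_case1 {ι : Type} [Fintype ι] [DecidableEq ι] {g : ι → ℤ[X]} (hg : Fam g) (p : ℕ)
    [Fact p.Prime] (hp : GoodP g p) (I : Finset ι) (y : Co g → ZMod p) (i₁ : ι) (hi₁ : i₁ ∉ I)
    (f : (ZMod p)[X]) (hf : f ∈ facs (red p (g i₁))) (hfy : f ∣ pol g y i₁) :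
    (Set.ncard {w : Co g → ZMod p | Al g p w ∧ ∀ c : Co g, c.1 ∉ I → w c = y c} : ℝ) ≤
      2 * ((p : ℝ) ^ dg g I / 2 ^ nu g p I) := by
  have hne : ∀ i, red p (g i) ≠ 0 := fun i => (red_monic hg p i).1.ne_zero
  obtain ⟨fm, fi, fd⟩ := (mem_facs (hne i₁)).1 hf
  obtain ⟨n0, hn, hcl⟩ := twfib_nonsq p (twfib_p2 hg hp)
  have hn0 : n0 ≠ 0 := by
    rintro rfl
    exact hn (IsSquare.zero)
  -- the structure of the vectors
  have hst : ∀ w, Al g p w → (∀ c : Co g, c.1 ∉ I → w c = y c) → ∃ t s : ZMod p, s ≠ 0 ∧ f = X - C t ∧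
      (red p (g i₁)).eval t = 0 ∧ ∀ i ∈ I, ∀ h ∈ facs (red p (g i)),
        ¬ h ∣ pol g w i ∧ ∃ B : (ZMod p)[X], h ∣ pol g w i * C s * (C t - X) - B ^ 2 := by
    rintro w (hA | ⟨i₀, t, s, hs, ht, hpt, hall⟩) hw
    · exfalso
      apply hA i₁ f fm fi fd
      rw [twfib_pol hw hi₁]
      exact hfy
    · have hfX : f = X - C t := by
        by_contra hcon
        apply (hall i₁ f fm fi fd hcon).1
        rw [twfib_pol hw hi₁]
        exact hfy
      have hX := twfib_XC p (hne i₀) ht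
      have hii : i₀ = i₁ := by
        by_contra hcon
        rw [hfX] at hf
        exact facs_disjoint hg p hp hcon hX hf
      rw [hii] at ht
      refine ⟨t, s, hs, hfX, ht, fun i hi h hh => ?_⟩
      obtain ⟨ha, hb, hc⟩ := (mem_facs (hne i)).1 hh
      refine hall i h ha hb hc ?_
      intro hhX
      have hii' : i ≠ i₁ := by
        rintro rfl
        exact hi₁ hi
      rw [hhX, ← hfX] at hh
      exact facs_disjoint hg p hp hii' hh hf
  by_cases hex : ∃ w, Al g p w ∧ ∀ c : Co g, c.1 ∉ I → w c = y c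
  · obtain ⟨w0, hA0, hw0⟩ := hex
    obtain ⟨t, _, _, hfX, ht, _⟩ := hst w0 hA0 hw0
    have hsub : {w : Co g → ZMod p | Al g p w ∧ ∀ c : Co g, c.1 ∉ I → w c = y c} ⊆
        {w : Co g → ZMod p | (∀ i ∈ I, ∀ h ∈ facs (red p (g i)),
          ¬ h ∣ pol g w i ∧ ∃ B : (ZMod p)[X], h ∣ pol g w i * C 1 * (C t - X) - B ^ 2) ∧
          ∀ c : Co g, c.1 ∉ I → w c = y c} ∪
        {w : Co g → ZMod p | (∀ i ∈ I, ∀ h ∈ facs (red p (g i)),
          ¬ h ∣ pol g w i ∧ ∃ B : (ZMod p)[X], h ∣ pol g w i * C n0 * (C t - X) - B ^ 2) ∧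
          ∀ c : Co g, c.1 ∉ I → w c = y c} := by
      rintro w ⟨hA, hw⟩
      obtain ⟨t', s, hs, hfX', ht', hall⟩ := hst w hA hw
      have htt : t' = t := by
        have h1 : (X - C t' : (ZMod p)[X]) = X - C t := by rw [← hfX', ← hfX]
        exact C_injective (sub_right_injective h1)
      rw [htt] at hall
      rcases hcl s hs with ⟨u, hu, he⟩ | ⟨u, hu, he⟩
      · left
        exact ⟨fun i hi h hh => ⟨(hall i hi h hh).1, twfib_class he (hall i hi h hh).2⟩, hw⟩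
      · right
        exact ⟨fun i hi h hh => ⟨(hall i hi h hh).1, twfib_class he (hall i hi h hh).2⟩, hw⟩
    have h2 := (Set.ncard_le_ncard hsub (Set.toFinite _)).trans (Set.ncard_union_le _ _)
    have h3 : (Set.ncard {w : Co g → ZMod p | Al g p w ∧ ∀ c : Co g, c.1 ∉ I → w c = y c} : ℝ) ≤
        (Set.ncard {w : Co g → ZMod p | (∀ i ∈ I, ∀ h ∈ facs (red p (g i)),
          ¬ h ∣ pol g w i ∧ ∃ B : (ZMod p)[X], h ∣ pol g w i * C 1 * (C t - X) - B ^ 2) ∧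
          ∀ c : Co g, c.1 ∉ I → w c = y c} : ℝ) +
        (Set.ncard {w : Co g → ZMod p | (∀ i ∈ I, ∀ h ∈ facs (red p (g i)),
          ¬ h ∣ pol g w i ∧ ∃ B : (ZMod p)[X], h ∣ pol g w i * C n0 * (C t - X) - B ^ 2) ∧
          ∀ c : Co g, c.1 ∉ I → w c = y c} : ℝ) := by
      exact_mod_cast h2
    have h4 := countN hg p hp I y i₁ hi₁ t 1 ht one_ne_zero
    have h5 := countN hg p hp I y i₁ hi₁ t n0 ht hn0
    have h4' : (Set.ncard {w : Co g → ZMod p | (∀ i ∈ I, ∀ h ∈ facs (red p (g i)),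
          ¬ h ∣ pol g w i ∧ ∃ B : (ZMod p)[X], h ∣ pol g w i * C 1 * (C t - X) - B ^ 2) ∧
          ∀ c : Co g, c.1 ∉ I → w c = y c} : ℝ) ≤ (p : ℝ) ^ dg g I / 2 ^ nu g p I := h4
    have h5' : (Set.ncard {w : Co g → ZMod p | (∀ i ∈ I, ∀ h ∈ facs (red p (g i)),
          ¬ h ∣ pol g w i ∧ ∃ B : (ZMod p)[X], h ∣ pol g w i * C n0 * (C t - X) - B ^ 2) ∧
          ∀ c : Co g, c.1 ∉ I → w c = y c} : ℝ) ≤ (p : ℝ) ^ dg g I / 2 ^ nu g p I := h5
    linarith
  · have he : {w : Co g → ZMod p | Al g p w ∧ ∀ c : Co g, c.1 ∉ I → w c = y c} = ∅ := by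
      ext w
      simp only [Set.mem_ofPred_eq, Set.mem_empty_iff_false, iff_false]
      intro h
      exact hex ⟨w, h⟩
    rw [he, Set.ncard_empty, Nat.cast_zero]
    positivity

open Classical in
theorem fib {ι : Type} [Fintype ι] [DecidableEq ι] {g : ι → ℤ[X]} (hg : Fam g) (p : ℕ) [Fact p.Prime] (hp : GoodP g p)
    (I : Finset ι) (y : Co g → ZMod p) :
    (Nat.card {w : Co g → ZMod p // Al g p w ∧ ∀ c : Co g, c.1 ∉ I → w c = y c} : ℝ) ≤
      max ((p : ℝ) ^ dg g I * (1 - 1 / (p : ℝ)) ^ rts g I p +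
          (if ∃ i, i ∉ I ∧ ∃ f ∈ facs (red p (g i)), Odd f.natDegree then 1 else 2) * rts g I p *
            ((p : ℝ) ^ dg g I / (p * 2 ^ (nu g p I - 1))))
        (2 * ((p : ℝ) ^ dg g I / 2 ^ nu g p I)) := by
  have e1 : (Nat.card {w : Co g → ZMod p // Al g p w ∧ ∀ c : Co g, c.1 ∉ I → w c = y c} : ℝ) =
      (Set.ncard {w : Co g → ZMod p | Al g p w ∧ ∀ c : Co g, c.1 ∉ I → w c = y c} : ℝ) := rfl
  rw [e1]
  by_cases hy : ∀ i, i ∉ I → ∀ f ∈ facs (red p (g i)), ¬ f ∣ pol g y i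
  · refine le_max_of_le_left ?_
    split_ifs with hodd
    · exact twfib_case2 hg p hp I y 1 (Or.inr ⟨rfl, hodd⟩) hy
    · exact twfib_case2 hg p hp I y 2 (Or.inl rfl) hy
  · push Not at hy
    obtain ⟨i₁, hi₁, f, hf, hfy⟩ := hy
    exact le_max_of_le_right (twfib_case1 hg p hp I y i₁ hi₁ f hf hfy)

/-- a monic linear polynomial has one root modulo `p` -/
theorem rt_lin (G : ℤ[X]) (hm : G.Monic) (h1 : G.natDegree = 1) (p : ℕ) [Fact p.Prime] : PT.rt G p = 1 := by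
  have h : G = X + C (G.coeff 0) := hm.eq_X_add_C h1
  have hev : ∀ ρ : ZMod p, (G.map (Int.castRingHom (ZMod p))).eval ρ = ρ + (G.coeff 0 : ZMod p) := by
    intro ρ
    conv_lhs => rw [h]
    simp
  unfold PT.rt
  rw [Nat.card_eq_one_iff_exists]
  refine ⟨⟨-(G.coeff 0 : ZMod p), by rw [hev]; ring⟩, fun y => Subtype.ext ?_⟩
  have h2 := y.2
  rw [hev] at h2
  exact eq_neg_of_add_eq_zero_left h2

private theorem twfib_root {G : ℤ[X]} (hm : G.Monic) (h1 : G.natDegree = 1) {p : ℕ} [Fact p.Prime] {t : ZMod p} :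
    (red p G).eval t = 0 ↔ t = -(G.coeff 0 : ZMod p) := by
  have h : G = X + C (G.coeff 0) := hm.eq_X_add_C h1
  have hev : (red p G).eval t = t + (G.coeff 0 : ZMod p) := by
    unfold red
    conv_lhs => rw [h]
    simp
  rw [hev]
  exact ⟨eq_neg_of_add_eq_zero_left, fun h => by rw [h]; ring⟩

/-- the product of two conditions with the same frozen coordinate -/
private theorem twfib_mul {p : ℕ} [Fact p.Prime] {h P : (ZMod p)[X]} (hi : Irreducible h) (hP : ¬ h ∣ P) {s s' t t' : ZMod p}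
    (h1 : ∃ B : (ZMod p)[X], h ∣ P * C s * (C t - X) - B ^ 2) (h2 : ∃ B : (ZMod p)[X], h ∣ P * C s' * (C t' - X) - B ^ 2) :
    ∃ B : (ZMod p)[X], h ∣ C (s * s') * (C t - X) * (C t' - X) - B ^ 2 := by
  obtain ⟨B, hB⟩ := h1
  obtain ⟨B', hB'⟩ := h2
  obtain ⟨u, v, huv⟩ := (hi.coprime_iff_not_dvd.2 hP)
  -- `u * h + v * P = 1`
  refine ⟨v * B * B', ?_⟩
  have e : C (s * s') * (C t - X) * (C t' - X) - (v * B * B') ^ 2 =
      (C (s * s') * (C t - X) * (C t' - X)) * (1 - (v * P) ^ 2) +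
      v ^ 2 * ((P * C s * (C t - X) - B ^ 2) * (P * C s' * (C t' - X)) + B ^ 2 * (P * C s' * (C t' - X) - B' ^ 2)) := by
    rw [C_mul]
    ring
  rw [e]
  refine dvd_add (Dvd.dvd.mul_left ?_ _) (Dvd.dvd.mul_left (dvd_add (hB.mul_right _) (hB'.mul_left _)) _)
  have e2 : 1 - (v * P) ^ 2 = h * (u * (1 + v * P)) := by
    have h3 : v * P = 1 - u * h := by rw [← huv]; ring
    rw [h3]
    ring
  rw [e2]
  exact dvd_mul_right _ _

/-- the fibre over the coordinates outside a pair of linear indices: at most one of the two labels is possible -/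
theorem fib_pair {ι : Type} [Fintype ι] [DecidableEq ι] {g : ι → ℤ[X]} (hg : Fam g) (p : ℕ) [Fact p.Prime] (hp : GoodP g p)
    (i j : ι) (hij : i ≠ j) (hi : (g i).natDegree = 1) (hj : (g j).natDegree = 1)
    (hodd : ∃ k, k ≠ i ∧ k ≠ j ∧ Odd (g k).natDegree)
    (hT : ¬ ∃ c : ZMod p, c ≠ 0 ∧ ∀ k, k ≠ i → k ≠ j → ∀ h : (ZMod p)[X], h.Monic → Irreducible h → h ∣ red p (g k) →
      ∃ B : (ZMod p)[X], h ∣ C c * (C (-((g i).coeff 0 : ZMod p)) - X) * (C (-((g j).coeff 0 : ZMod p)) - X) - B ^ 2)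
    (y : Co g → ZMod p) :
    (Nat.card {w : Co g → ZMod p // Al g p w ∧ ∀ c : Co g, c.1 ∉ ({i, j} : Finset ι) → w c = y c} : ℝ) ≤
      max ((p : ℝ) ^ 2 * (1 - 1 / (p : ℝ)) ^ 2 + (p : ℝ) ^ 2 / (p * 2)) (2 * ((p : ℝ) ^ 2 / 2 ^ 2)) := by
  set I : Finset ι := {i, j} with hI
  have hiI : i ∈ I := by simp [hI]
  have hjI : j ∈ I := by simp [hI]
  have hdg : dg g I = 2 := by
    unfold dg
    rw [hI, Finset.sum_pair hij, hi, hj]
  have hrts : rts g I p = 2 := by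
    unfold rts
    rw [hI, Finset.sum_pair hij, rt_lin _ (hg.monic i) hi p, rt_lin _ (hg.monic j) hj p]
  obtain ⟨hn1, hn2, hn3, hn4⟩ := nu_facts hg p hp I
  have hnu : nu g p I = 2 := by omega
  have e1 : (Nat.card {w : Co g → ZMod p // Al g p w ∧ ∀ c : Co g, c.1 ∉ I → w c = y c} : ℝ) =
      (Set.ncard {w : Co g → ZMod p | Al g p w ∧ ∀ c : Co g, c.1 ∉ I → w c = y c} : ℝ) := rfl
  rw [e1]
  by_cases hy : ∀ i, i ∉ I → ∀ f ∈ facs (red p (g i)), ¬ f ∣ pol g y i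
  swap
  · push Not at hy
    obtain ⟨i₁, hi₁, f, hf, hfy⟩ := hy
    have h1 := twfib_case1 hg p hp I y i₁ hi₁ f hf hfy
    rw [hdg, hnu] at h1
    exact le_max_of_le_right h1
  refine le_max_of_le_left ?_
  have hne : ∀ i, red p (g i) ≠ 0 := fun i => (red_monic hg p i).1.ne_zero
  -- an odd factor outside
  have hκ : (1 : ℝ) = 2 ∨ (1 : ℝ) = 1 ∧ ∃ i, i ∉ I ∧ ∃ f ∈ facs (red p (g i)), Odd f.natDegree := by
    right
    refine ⟨rfl, ?_⟩
    obtain ⟨k, hki, hkj, hk⟩ := hodd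
    refine ⟨k, by simp [hI, hki, hkj], ?_⟩
    by_contra hcon
    push Not at hcon
    have h1 : Even (∑ h ∈ facs (red p (g k)), h.natDegree) :=
      Finset.even_sum _ fun h hh => Nat.not_odd_iff_even.1 (hcon h hh)
    rw [twnu_sum hg p hp k] at h1
    exact (Nat.not_odd_iff_even.2 h1) hk
  have hL : ∀ a : ι, a ∈ I → ∀ t : ZMod p, (red p (g a)).eval t = 0 →
      (Set.ncard {w : Co g → ZMod p | (∃ s, s ≠ 0 ∧ Sec g p a t s w) ∧ ∀ c : Co g, c.1 ∉ I → w c = y c} : ℝ) ≤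
        (p : ℝ) ^ 2 / (p * 2) := by
    intro a ha t ht
    have h1 := twfib_pair hg p hp I y 1 hκ a ha t ht
    rw [hdg, hnu, one_mul] at h1
    simpa using h1
  have hU : (Set.ncard {w : Co g → ZMod p | (∀ i ∈ I, ∀ h ∈ facs (red p (g i)), ¬ h ∣ pol g w i) ∧
        ∀ c : Co g, c.1 ∉ I → w c = y c} : ℝ) ≤ (p : ℝ) ^ 2 * (1 - 1 / (p : ℝ)) ^ 2 := by
    have h1 := countU hg p hp I y
    rw [hdg, hrts] at h1
    exact h1
  set ti : ZMod p := -((g i).coeff 0 : ZMod p) with hti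
  set tj : ZMod p := -((g j).coeff 0 : ZMod p) with htj
  have hri : (red p (g i)).eval ti = 0 := (twfib_root (hg.monic i) hi).2 rfl
  have hrj : (red p (g j)).eval tj = 0 := (twfib_root (hg.monic j) hj).2 rfl
  -- the structure of the fibre
  have hst : ∀ w, Al g p w → (∀ c : Co g, c.1 ∉ I → w c = y c) →
      (∀ i ∈ I, ∀ h ∈ facs (red p (g i)), ¬ h ∣ pol g w i) ∨ (∃ s, s ≠ 0 ∧ Sec g p i ti s w) ∨
        ∃ s, s ≠ 0 ∧ Sec g p j tj s w := by
    rintro w (hA | ⟨i₀, t, s, hs, ht, hpt, hall⟩) hw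
    · left
      intro i _ h hh
      obtain ⟨ha, hb, hc⟩ := (mem_facs (hne i)).1 hh
      exact hA i h ha hb hc
    · right
      have hi₀ : i₀ ∈ I := by
        by_contra hcon
        refine hy i₀ hcon _ (twfib_XC p (hne i₀) ht) ?_
        rw [← twfib_pol hw hcon]
        exact dvd_iff_isRoot.2 hpt
      rw [hI, Finset.mem_insert, Finset.mem_singleton] at hi₀
      rcases hi₀ with rfl | rfl
      · left
        rw [(twfib_root (hg.monic i₀) hi).1 ht] at hpt hall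
        exact ⟨s, hs, hpt, hall⟩
      · right
        rw [(twfib_root (hg.monic i₀) hj).1 ht] at hpt hall
        exact ⟨s, hs, hpt, hall⟩
  -- not both labels
  have hnot : ¬ ((∃ w, (∃ s, s ≠ 0 ∧ Sec g p i ti s w) ∧ ∀ c : Co g, c.1 ∉ I → w c = y c) ∧
      ∃ w, (∃ s, s ≠ 0 ∧ Sec g p j tj s w) ∧ ∀ c : Co g, c.1 ∉ I → w c = y c) := by
    rintro ⟨⟨w, ⟨s, hs, hw1, hw2⟩, hw3⟩, ⟨w', ⟨s', hs', hw1', hw2'⟩, hw3'⟩⟩
    apply hT
    refine ⟨s * s', mul_ne_zero hs hs', fun k hki hkj h hm hirr hd => ?_⟩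
    have hkI : k ∉ I := by simp [hI, hki, hkj]
    have hhk : h ∈ facs (red p (g k)) := (mem_facs (hne k)).2 ⟨hm, hirr, hd⟩
    have hXi : h ≠ X - C ti := by
      rintro rfl
      exact facs_disjoint hg p hp hki hhk (twfib_XC p (hne i) hri)
    have hXj : h ≠ X - C tj := by
      rintro rfl
      exact facs_disjoint hg p hp hkj hhk (twfib_XC p (hne j) hrj)
    obtain ⟨ha, hb⟩ := hw2 k h hm hirr hd hXi
    obtain ⟨ha', hb'⟩ := hw2' k h hm hirr hd hXj
    rw [twfib_pol hw3 hkI] at ha hb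
    rw [twfib_pol hw3' hkI] at hb'
    exact twfib_mul hirr ha hb hb'
  have hfin : ∀ a : ι, a ∈ I → ∀ t : ZMod p, (red p (g a)).eval t = 0 →
      (∀ w, Al g p w → (∀ c : Co g, c.1 ∉ I → w c = y c) →
        (∀ i ∈ I, ∀ h ∈ facs (red p (g i)), ¬ h ∣ pol g w i) ∨ ∃ s, s ≠ 0 ∧ Sec g p a t s w) →
      (Set.ncard {w : Co g → ZMod p | Al g p w ∧ ∀ c : Co g, c.1 ∉ I → w c = y c} : ℝ) ≤
        (p : ℝ) ^ 2 * (1 - 1 / (p : ℝ)) ^ 2 + (p : ℝ) ^ 2 / (p * 2) := by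
    intro a ha t ht hcov
    have hsub : {w : Co g → ZMod p | Al g p w ∧ ∀ c : Co g, c.1 ∉ I → w c = y c} ⊆
        {w : Co g → ZMod p | (∀ i ∈ I, ∀ h ∈ facs (red p (g i)), ¬ h ∣ pol g w i) ∧
          ∀ c : Co g, c.1 ∉ I → w c = y c} ∪
        {w : Co g → ZMod p | (∃ s, s ≠ 0 ∧ Sec g p a t s w) ∧ ∀ c : Co g, c.1 ∉ I → w c = y c} := by
      rintro w ⟨hA, hw⟩
      rcases hcov w hA hw with h1 | h1
      · exact Or.inl ⟨h1, hw⟩
      · exact Or.inr ⟨h1, hw⟩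
    have h1 := (Set.ncard_le_ncard hsub (Set.toFinite _)).trans (Set.ncard_union_le _ _)
    have h2 : (Set.ncard {w : Co g → ZMod p | Al g p w ∧ ∀ c : Co g, c.1 ∉ I → w c = y c} : ℝ) ≤
        (Set.ncard {w : Co g → ZMod p | (∀ i ∈ I, ∀ h ∈ facs (red p (g i)), ¬ h ∣ pol g w i) ∧
          ∀ c : Co g, c.1 ∉ I → w c = y c} : ℝ) +
        (Set.ncard {w : Co g → ZMod p | (∃ s, s ≠ 0 ∧ Sec g p a t s w) ∧ ∀ c : Co g, c.1 ∉ I → w c = y c} : ℝ) := by
      exact_mod_cast h1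
    linarith [hL a ha t ht]
  by_cases hA : ∃ w, (∃ s, s ≠ 0 ∧ Sec g p i ti s w) ∧ ∀ c : Co g, c.1 ∉ I → w c = y c
  · refine hfin i hiI ti hri fun w hw1 hw2 => ?_
    rcases hst w hw1 hw2 with h1 | h1 | h1
    · exact Or.inl h1
    · exact Or.inr h1
    · exact absurd ⟨hA, w, h1, hw2⟩ hnot
  · refine hfin j hjI tj hrj fun w hw1 hw2 => ?_
    rcases hst w hw1 hw2 with h1 | h1 | h1
    · exact Or.inl h1
    · exact absurd ⟨w, h1, hw2⟩ hA
    · exact Or.inr h1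

end TR
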