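import Pool.Agent.Lib.MP_10e784_ag.TW.TWEquiK
import Pool.Agent.Lib.MP_10e784_agTR.TWTriv

/-! JOB TWPw0.  The sieve by finitely many primes.

`div_sub`: given `B`, apply `hT` to `B + ∑ p ∈ M.primeFactors, 1 / p`, get `F`, and take `F.filter (¬ p ∣ M)`: the removed elements are primes dividing `M ≠ 0`, so in `M.primeFactors`.
`pw0`: `n = natDegree (g i₀) ≥ 1` (irreducible).  A vector `x` as in the statement is determined by `z : Fin n → ℤ`, `z k = x ⟨i₀, k⟩` (the other coordinates are those of `y`); so the cardinality is that of a set of `z`, with `a ≤ z k < a + H`, `a = -r`, `H = 2 r + 1`, `r = ⌊C 2 ^ (m / n)⌋₊` and `2 ^ (m/n) ≤ H ≤ 3 C 2 ^ (m/n)`, so `2 ^ m ≤ H ^ n ≤ (3 C) ^ n 2 ^ m`.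
Let `F ⊆ T` be finite, `q = ∏ p ∈ F, p`.  For `p ∈ F` let `Ω p = {w : Fin n → ZMod p | Al g p (the vector with coordinates w at i₀ and y mod p elsewhere)}`, `ω p = Nat.card (Ω p) / p ^ n` (`Nat.card` of the subtype in `h`; reindex).  `equiK` with `κ = Fin n`, `S = F`, `k p = 0`, `lev c = 0` (no frozen coordinates: the condition `lev c < k p` is false), `η = 1` if `q ≤ H`, which holds for all large `m` (`H ≥ 2 ^ (m/n) → ∞`):
number of `z` in the box with `z mod p ∈ Ω p` for all `p ∈ F` is at most `(1 + 1) ^ n * H ^ n * ∏ ω p ≤ (6 C) ^ n * 2 ^ m * ∏_{p ∈ F} (1 - c0 / p)`; `0 ≤ ω p ≤ 1 - c0 / p ≤ exp (-c0 / p)`.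
So for all large `m` the quotient is `≤ (6 C) ^ n exp (-c0 ∑_{p ∈ F} 1 / p)`; given `ε > 0`, `TW.Div T` yields `F` with this `< ε`.  (`Metric.tendsto_atTop`, or `squeeze`-type.) -/

namespace TR

open TW

open Polynomial Finset Filter

theorem div_sub (T : Set ℕ) (hT : TW.Div T) (hp : ∀ p ∈ T, p.Prime) (M : ℕ) (hM : M ≠ 0) : TW.Div {p | p ∈ T ∧ ¬ p ∣ M} := by
  classical
  intro B
  obtain ⟨F, hF, hB⟩ := hT (B + ∑ p ∈ M.primeFactors, (1 : ℝ) / p)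
  refine ⟨F.filter fun p => ¬ p ∣ M, fun p hp' => ⟨hF p (mem_filter.1 hp').1, (mem_filter.1 hp').2⟩, ?_⟩
  have h1 := Finset.sum_filter_add_sum_filter_not F (fun p => p ∣ M) (fun p : ℕ => (1 : ℝ) / p)
  have h2 : ∑ p ∈ F.filter (fun p => p ∣ M), (1 : ℝ) / p ≤ ∑ p ∈ M.primeFactors, (1 : ℝ) / p :=
    Finset.sum_le_sum_of_subset_of_nonneg (fun p hp' => Nat.mem_primeFactors.2
      ⟨hp p (hF p (mem_filter.1 hp').1), (mem_filter.1 hp').2, hM⟩) fun p _ _ => by positivity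
  linarith

/-- the vector with coordinates `z` at `i₀` and `y` elsewhere -/
private noncomputable def twpw0E {ι : Type} [DecidableEq ι] {g : ι → ℤ[X]} {R : Type} (i₀ : ι) (y : Co g → R)
    (z : Fin (g i₀).natDegree → R) (c : Co g) : R :=
  if h : c.1 = i₀ then z (Fin.cast (by rw [h]) c.2) else y c

private theorem twpw0E_same {ι : Type} [DecidableEq ι] {g : ι → ℤ[X]} {R : Type} (i₀ : ι) (y : Co g → R)
    (z : Fin (g i₀).natDegree → R) (k : Fin (g i₀).natDegree) : twpw0E i₀ y z ⟨i₀, k⟩ = z k := by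
  simp [twpw0E]

private theorem twpw0E_ne {ι : Type} [DecidableEq ι] {g : ι → ℤ[X]} {R : Type} (i₀ : ι) (y : Co g → R)
    (z : Fin (g i₀).natDegree → R) (c : Co g) (hc : c.1 ≠ i₀) : twpw0E i₀ y z c = y c := by
  simp [twpw0E, hc]

private theorem twpw0E_eta {ι : Type} [DecidableEq ι] {g : ι → ℤ[X]} {R : Type} (i₀ : ι) (y x : Co g → R)
    (hx : ∀ c : Co g, c.1 ≠ i₀ → x c = y c) : twpw0E i₀ y (fun k => x ⟨i₀, k⟩) = x := by
  funext c
  obtain ⟨i, k⟩ := c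
  by_cases h : i = i₀
  · subst h
    rw [twpw0E_same]
  · rw [twpw0E_ne _ _ _ _ h, hx _ h]

private theorem twpw0E_card {ι : Type} [DecidableEq ι] {g : ι → ℤ[X]} {R : Type} (i₀ : ι) (y : Co g → R)
    (Q : (Co g → R) → Prop) :
    Nat.card {w : Co g → R // Q w ∧ ∀ c : Co g, c.1 ≠ i₀ → w c = y c} =
      Nat.card {z : Fin (g i₀).natDegree → R // Q (twpw0E i₀ y z)} := by
  refine Nat.card_congr
    { toFun := fun w => ⟨fun k => w.1 ⟨i₀, k⟩, by rw [twpw0E_eta i₀ y w.1 w.2.2]; exact w.2.1⟩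
      invFun := fun z => ⟨twpw0E i₀ y z.1, z.2, fun c hc => twpw0E_ne _ _ _ _ hc⟩
      left_inv := fun w => Subtype.ext (twpw0E_eta i₀ y w.1 w.2.2)
      right_inv := fun z => Subtype.ext (funext fun k => twpw0E_same _ _ _ _) }

private theorem twpw0_boxfin {n : ℕ} (a : Fin n → ℤ) (H : Fin n → ℕ) (Q : (Fin n → ℤ) → Prop) :
    Finite {z : Fin n → ℤ // (∀ k, a k ≤ z k ∧ z k < a k + H k) ∧ Q z} := by
  have h1 : (Set.pi Set.univ fun k : Fin n => Set.Ico (a k) (a k + H k)).Finite :=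
    Set.Finite.pi fun k => Set.finite_Ico _ _
  refine (h1.subset fun z hz => ?_).to_subtype
  intro k _
  exact hz.1 k

private theorem twpw0_key {ι : Type} [Fintype ι] [DecidableEq ι] {g : ι → ℤ[X]} (M : ℕ) (C : ℝ)
    (hC : 1 ≤ C) (i₀ : ι) (hn : 0 < (g i₀).natDegree)
    (y : Co g → ℤ) (c0 : ℝ) (F : Finset ℕ)
    (h : ∀ p ∈ F, p.Prime ∧ ¬ p ∣ M ∧
      (Nat.card {w : Co g → ZMod p // Al g p w ∧ ∀ c : Co g, c.1 ≠ i₀ → w c = (y c : ZMod p)} : ℝ) ≤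
        (p : ℝ) ^ (g i₀).natDegree * (1 - c0 / p)) (m : ℕ)
    (hm : ∏ p ∈ F, (p : ℝ) ≤ (2 : ℝ) ^ ((m : ℝ) / (g i₀).natDegree)) :
    (Nat.card {x : Co g → ℤ // (∀ c : Co g, c.1 ≠ i₀ → x c = y c) ∧
      (∀ c : Co g, c.1 = i₀ → |(x c : ℝ)| ≤ C * (2 : ℝ) ^ ((m : ℝ) / (g i₀).natDegree)) ∧ Loc g M x} : ℝ) / 2 ^ m ≤
      (6 * C) ^ (g i₀).natDegree * Real.exp (-(c0 * ∑ p ∈ F, (1 : ℝ) / p)) := by
  classical
  set n : ℕ := (g i₀).natDegree with hndef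
  set R : ℝ := C * (2 : ℝ) ^ ((m : ℝ) / n) with hR
  have h2pos : (0 : ℝ) < (2 : ℝ) ^ ((m : ℝ) / n) := by positivity
  have h2one : (1 : ℝ) ≤ (2 : ℝ) ^ ((m : ℝ) / n) := Real.one_le_rpow (by norm_num) (by positivity)
  have hRle : (2 : ℝ) ^ ((m : ℝ) / n) ≤ R := by
    rw [hR]
    nlinarith
  have hR1 : 1 ≤ R := h2one.trans hRle
  set r : ℕ := ⌊R⌋₊ with hr
  have hr1 : (r : ℝ) ≤ R := Nat.floor_le (by linarith)
  have hr2 : R < r + 1 := Nat.lt_floor_add_one R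
  -- the sets of residues
  let Ω : (p : ℕ) → Set (Fin n → ZMod p) := fun p =>
    {z | Al g p (twpw0E i₀ (fun c => (y c : ZMod p)) z)}
  let ω : ℕ → ℝ := fun p => (Nat.card {z : Fin n → ZMod p // z ∈ Ω p} : ℝ) / (p : ℝ) ^ n
  have hω0 : ∀ p, 0 ≤ ω p := fun p => by positivity
  have hω1 : ∀ p ∈ F, ω p ≤ 1 - c0 / p := by
    intro p hp
    obtain ⟨hpp, _, hcard⟩ := h p hp
    have hp0 : (0 : ℝ) < p := by exact_mod_cast hpp.pos
    rw [twpw0E_card i₀ (fun c => (y c : ZMod p)) (Al g p)] at hcard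
    have hcard' : (Nat.card {z : Fin n → ZMod p // z ∈ Ω p} : ℝ) ≤ (p : ℝ) ^ n * (1 - c0 / p) := hcard
    exact (div_le_iff₀ (by positivity)).2 (by rw [mul_comm]; exact hcard')
  -- the injection
  have hinj : Nat.card {x : Co g → ℤ // (∀ c : Co g, c.1 ≠ i₀ → x c = y c) ∧
      (∀ c : Co g, c.1 = i₀ → |(x c : ℝ)| ≤ R) ∧ Loc g M x} ≤
      Nat.card {z : Fin n → ℤ // (∀ k, -(r : ℤ) ≤ z k ∧ z k < -(r : ℤ) + ((2 * r + 1 : ℕ) : ℤ)) ∧
        ∀ p ∈ F, (fun k => ((z k : ℤ) : ZMod p)) ∈ Ω p} := by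
    have hfin := twpw0_boxfin (n := n) (fun _ => -(r : ℤ)) (fun _ => 2 * r + 1)
      (fun z => ∀ p ∈ F, (fun k => ((z k : ℤ) : ZMod p)) ∈ Ω p)
    refine Nat.card_le_card_of_injective
      (fun x => (⟨fun k => x.1 ⟨i₀, k⟩, fun k => ?_, fun p hp => ?_⟩ :
        {z : Fin n → ℤ // (∀ k, -(r : ℤ) ≤ z k ∧ z k < -(r : ℤ) + ((2 * r + 1 : ℕ) : ℤ)) ∧
          ∀ p ∈ F, (fun k => ((z k : ℤ) : ZMod p)) ∈ Ω p})) fun x x' hxx => ?_
    · have h1 := x.2.2.1 ⟨i₀, k⟩ rfl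
      have h2 : |(x.1 ⟨i₀, k⟩ : ℝ)| < (r : ℝ) + 1 := h1.trans_lt hr2
      have h3 : |x.1 ⟨i₀, k⟩| < (r : ℤ) + 1 := by exact_mod_cast h2
      rw [abs_lt] at h3
      push_cast
      constructor <;> omega
    · obtain ⟨hpp, hpM, _⟩ := h p hp
      have h1 := x.2.2.2 p hpp hpM
      change Al g p (twpw0E i₀ (fun c => (y c : ZMod p)) (fun k => ((x.1 ⟨i₀, k⟩ : ℤ) : ZMod p)))
      rw [twpw0E_eta i₀ (fun c => (y c : ZMod p)) (fun c => ((x.1 c : ℤ) : ZMod p))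
        (fun c hc => by rw [x.2.1 c hc])]
      exact h1
    · have h1 : (fun k => x.1 ⟨i₀, k⟩ : Fin n → ℤ) = fun k => x'.1 ⟨i₀, k⟩ := congrArg Subtype.val hxx
      refine Subtype.ext ?_
      rw [← twpw0E_eta i₀ y x.1 x.2.1, ← twpw0E_eta i₀ y x'.1 x'.2.1, h1]
  -- equidistribution
  have heq := equiK (κ := Fin n) F (fun p hp => (h p hp).1) (fun _ => 0) (fun _ => 0) Ω ω
    (fun p hp v => by
      have hp0 : (0 : ℝ) < p := by exact_mod_cast (h p hp).1.pos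
      have h1 : Nat.card {w : Fin n → ZMod p // w ∈ Ω p ∧ ∀ _c : Fin n, 0 < 0 → w _c = v _c} =
          Nat.card {z : Fin n → ZMod p // z ∈ Ω p} :=
        Nat.card_congr (Equiv.subtypeEquivRight fun z => ⟨fun hz => hz.1, fun hz => ⟨hz, fun _ h0 => absurd h0 (lt_irrefl _)⟩⟩)
      rw [h1]
      simp only [le_refl, Finset.filter_true, Finset.card_univ, Fintype.card_fin, ω]
      field_simp)
    (fun _ => -(r : ℤ)) (fun _ => 2 * r + 1) 1 zero_le_one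
    (fun _ => Or.inr (by
      simp only [le_refl, Finset.filter_true, one_mul]
      refine hm.trans (hRle.trans ?_)
      push_cast
      linarith [Nat.cast_nonneg (α := ℝ) r]))
  set V : ℝ := (∏ _c : Fin n, ((2 * r + 1 : ℕ) : ℝ)) * ∏ p ∈ F, ω p with hV
  have hV0 : 0 ≤ V := by
    have : 0 ≤ ∏ p ∈ F, ω p := Finset.prod_nonneg fun p _ => hω0 p
    positivity
  have hcount : (Nat.card {z : Fin n → ℤ // (∀ k, -(r : ℤ) ≤ z k ∧ z k < -(r : ℤ) + ((2 * r + 1 : ℕ) : ℤ)) ∧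
        ∀ p ∈ F, (fun k => ((z k : ℤ) : ZMod p)) ∈ Ω p} : ℝ) ≤ 2 ^ n * V := by
    have h1 := (abs_le.1 heq).2
    rw [Fintype.card_fin] at h1
    have h2 : ((1 : ℝ) + 1) = 2 := by norm_num
    rw [h2] at h1
    linarith
  have hVle : V ≤ ((3 * C) ^ n * 2 ^ m) * Real.exp (-(c0 * ∑ p ∈ F, (1 : ℝ) / p)) := by
    rw [hV]
    refine mul_le_mul ?_ ?_ (Finset.prod_nonneg fun p _ => hω0 p) (by positivity)
    · rw [Finset.prod_const, Finset.card_univ, Fintype.card_fin]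
      have h3 : ((2 * r + 1 : ℕ) : ℝ) ≤ 3 * C * (2 : ℝ) ^ ((m : ℝ) / n) := by
        push_cast
        have : 3 * C * (2 : ℝ) ^ ((m : ℝ) / n) = 3 * R := by rw [hR]; ring
        rw [this]
        linarith
      calc ((2 * r + 1 : ℕ) : ℝ) ^ n ≤ (3 * C * (2 : ℝ) ^ ((m : ℝ) / n)) ^ n :=
            pow_le_pow_left₀ (Nat.cast_nonneg _) h3 n
        _ = (3 * C) ^ n * 2 ^ m := by
          rw [mul_pow, ← Real.rpow_natCast ((2 : ℝ) ^ ((m : ℝ) / n)) n, ← Real.rpow_mul (by norm_num),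
            div_mul_cancel₀ _ (by exact_mod_cast hn.ne'), Real.rpow_natCast]
    · calc ∏ p ∈ F, ω p ≤ ∏ p ∈ F, Real.exp (-(c0 / p)) := by
            refine Finset.prod_le_prod (fun p _ => hω0 p) fun p hp => (hω1 p hp).trans ?_
            have := Real.add_one_le_exp (-(c0 / (p : ℝ)))
            linarith
        _ = Real.exp (-(c0 * ∑ p ∈ F, (1 : ℝ) / p)) := by
          rw [← Real.exp_sum, Finset.mul_sum, ← Finset.sum_neg_distrib]
          refine congrArg Real.exp (Finset.sum_congr rfl fun p _ => ?_)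
          ring
  have hfin : (Nat.card {x : Co g → ℤ // (∀ c : Co g, c.1 ≠ i₀ → x c = y c) ∧
      (∀ c : Co g, c.1 = i₀ → |(x c : ℝ)| ≤ R) ∧ Loc g M x} : ℝ) ≤
      2 ^ n * (((3 * C) ^ n * 2 ^ m) * Real.exp (-(c0 * ∑ p ∈ F, (1 : ℝ) / p))) := by
    have h1 : (Nat.card {x : Co g → ℤ // (∀ c : Co g, c.1 ≠ i₀ → x c = y c) ∧
      (∀ c : Co g, c.1 = i₀ → |(x c : ℝ)| ≤ R) ∧ Loc g M x} : ℝ) ≤
      (Nat.card {z : Fin n → ℤ // (∀ k, -(r : ℤ) ≤ z k ∧ z k < -(r : ℤ) + ((2 * r + 1 : ℕ) : ℤ)) ∧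
        ∀ p ∈ F, (fun k => ((z k : ℤ) : ZMod p)) ∈ Ω p} : ℝ) := by exact_mod_cast hinj
    exact h1.trans (hcount.trans (mul_le_mul_of_nonneg_left hVle (by positivity)))
  rw [div_le_iff₀ (by positivity)]
  refine hfin.trans (le_of_eq ?_)
  have h6 : (6 * C) ^ n = 2 ^ n * (3 * C) ^ n := by
    rw [← mul_pow]
    ring_nf
  rw [h6]
  ring

theorem pw0 {ι : Type} [Fintype ι] [DecidableEq ι] {g : ι → ℤ[X]} (hg : Fam g) (M : ℕ) (C : ℝ) (hC : 1 ≤ C) (i₀ : ι)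
    (y : Co g → ℤ) (T : Set ℕ) (hT : TW.Div T) (c0 : ℝ) (hc0 : 0 < c0)
    (h : ∀ p ∈ T, p.Prime ∧ ¬ p ∣ M ∧
      (Nat.card {w : Co g → ZMod p // Al g p w ∧ ∀ c : Co g, c.1 ≠ i₀ → w c = (y c : ZMod p)} : ℝ) ≤
        (p : ℝ) ^ (g i₀).natDegree * (1 - c0 / p)) :
    Tendsto (fun m : ℕ => (Nat.card {x : Co g → ℤ // (∀ c : Co g, c.1 ≠ i₀ → x c = y c) ∧
      (∀ c : Co g, c.1 = i₀ → |(x c : ℝ)| ≤ C * (2 : ℝ) ^ ((m : ℝ) / (g i₀).natDegree)) ∧ Loc g M x} : ℝ) / 2 ^ m)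
      atTop (nhds 0) := by
  classical
  have hn : 0 < (g i₀).natDegree := by
    have h2 := (hg.monic i₀).natDegree_map (Int.castRingHom ℚ)
    have h3 : 0 < ((g i₀).map (Int.castRingHom ℚ)).natDegree := (hg.irr i₀).natDegree_pos
    omega
  rw [Metric.tendsto_atTop]
  intro ε hε
  set K : ℝ := (6 * C) ^ (g i₀).natDegree with hK
  have hK0 : 0 < K := by positivity
  obtain ⟨F, hF, hB⟩ := hT ((Real.log (K / ε) + 1) / c0)
  have hlim : Tendsto (fun m : ℕ => (2 : ℝ) ^ ((m : ℝ) / (g i₀).natDegree)) atTop atTop := by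
    have h1 : Tendsto (fun m : ℕ => ((2 : ℝ) ^ ((1 : ℝ) / (g i₀).natDegree)) ^ m) atTop atTop :=
      tendsto_pow_atTop_atTop_of_one_lt (Real.one_lt_rpow (by norm_num) (by positivity))
    refine h1.congr fun m => ?_
    rw [← Real.rpow_natCast, ← Real.rpow_mul (by norm_num)]
    congr 1
    ring
  obtain ⟨m0, hm0⟩ := eventually_atTop.1 (hlim.eventually_ge_atTop (∏ p ∈ F, (p : ℝ)))
  refine ⟨m0, fun m hm => ?_⟩
  have hkey := twpw0_key M C hC i₀ hn y c0 F (fun p hp => h p (hF p hp)) m (hm0 m hm)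
  rw [Real.dist_eq, sub_zero, abs_of_nonneg (by positivity)]
  refine hkey.trans_lt ?_
  have h1 : Real.log (K / ε) + 1 ≤ c0 * ∑ p ∈ F, (1 : ℝ) / p := by
    have := (div_le_iff₀ hc0).1 hB
    linarith
  have h2 : Real.exp (-(c0 * ∑ p ∈ F, (1 : ℝ) / p)) < ε / K := by
    have h3 : Real.exp (-(c0 * ∑ p ∈ F, (1 : ℝ) / p)) < Real.exp (-Real.log (K / ε)) :=
      Real.exp_lt_exp.2 (by linarith)
    have h4 : Real.exp (-Real.log (K / ε)) = ε / K := by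
      rw [Real.exp_neg, Real.exp_log (by positivity), inv_div]
    rw [← h4]
    exact h3
  calc K * Real.exp (-(c0 * ∑ p ∈ F, (1 : ℝ) / p)) < K * (ε / K) := mul_lt_mul_of_pos_left h2 hK0
    _ = ε := by field_simp

end TR
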