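import Pool.Agent.Lib.MP_10e784_agTR.TWPw0
import Pool.Agent.Lib.MP_10e784_agTR.TWGood
import Pool.Agent.Lib.MP_10e784_agTR.TWFibN
import Pool.Agent.Lib.MP_10e784_ag.PT.PTSplit

/-! JOB TWPwA.  Density zero for fixed coordinates outside one index of degree at least two.

`pwA` (`natDegree (g i₀) ≥ 2`): `S, n, hS` from `PT.split_set g hg.irr`, `M1` from `good_exists`.  `TW.Div S`: `hS.lower` says `PT.PS (PT.ind S) x ≥ (1/n) log log x - C → ∞`, take `F = (Icc 1 ⌊x⌋₊).filter (p ∈ S)`.  `T = {p ∈ S | ¬ p ∣ M * M1}`, `div_sub`.  `fib_one` (with the vector `y` modulo `p`) gives the hypothesis of `pw0` with `c0 = 1/2`. -/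

namespace TR

open TW

open Polynomial Finset Filter

private theorem twpwa_div {ι : Type} (G : ι → ℤ[X]) (S : Set ℕ) (n : ℕ) (hS : PT.Spl G S n) : TW.Div S := by
  classical
  intro B
  obtain ⟨C, hC⟩ := hS.lower
  have hn0 : (0 : ℝ) < 1 / (n : ℝ) := by
    have : (0 : ℝ) < n := by exact_mod_cast hS.npos
    positivity
  have hlim : Tendsto (fun x : ℝ => (1 / n : ℝ) * Real.log (Real.log x)) atTop atTop :=
    (Real.tendsto_log_atTop.comp Real.tendsto_log_atTop).const_mul_atTop hn0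
  obtain ⟨x0, hx0⟩ := eventually_atTop.1 (hlim.eventually_ge_atTop (B + C))
  have h1 := hx0 (max x0 2) (le_max_left _ _)
  have h2 := hC (max x0 2) (le_max_right _ _)
  refine ⟨(Icc 1 ⌊max x0 2⌋₊).filter (· ∈ S), fun p hp => (mem_filter.1 hp).2, ?_⟩
  have h3 : PT.PS (PT.ind S) (max x0 2) ≤ ∑ p ∈ (Icc 1 ⌊max x0 2⌋₊).filter (· ∈ S), (1 : ℝ) / p := by
    unfold PT.PS
    have h4 : ∀ p : ℕ, PT.ind S p / (p : ℝ) = if p ∈ S then (1 : ℝ) / p else 0 := by
      intro p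
      unfold PT.ind
      split_ifs
      · rfl
      · simp
    rw [Finset.sum_congr rfl fun p _ => h4 p, ← Finset.sum_filter]
    refine Finset.sum_le_sum_of_subset_of_nonneg (fun p hp => ?_) fun p _ _ => by positivity
    rw [mem_filter, mem_filter] at hp
    exact mem_filter.2 ⟨hp.1.1, hp.2⟩
  linarith

theorem pwA {ι : Type} [Fintype ι] [DecidableEq ι] {g : ι → ℤ[X]} (hg : Fam g) (M : ℕ) (hM : M ≠ 0) (C : ℝ) (hC : 1 ≤ C)
    (i₀ : ι) (h2 : 2 ≤ (g i₀).natDegree) (y : Co g → ℤ) :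
    Tendsto (fun m : ℕ => (Nat.card {x : Co g → ℤ // (∀ c : Co g, c.1 ≠ i₀ → x c = y c) ∧
      (∀ c : Co g, c.1 = i₀ → |(x c : ℝ)| ≤ C * (2 : ℝ) ^ ((m : ℝ) / (g i₀).natDegree)) ∧ Loc g M x} : ℝ) / 2 ^ m)
      atTop (nhds 0) := by
  classical
  obtain ⟨S, n, hS⟩ := PT.split_set g hg.irr
  obtain ⟨M1, hM1, hgood⟩ := good_exists hg
  have hdiv := div_sub S (twpwa_div g S n hS) hS.prime (M * M1) (mul_ne_zero hM hM1)
  refine pw0 hg M C hC i₀ y _ hdiv (1 / 2) (by norm_num) fun p hp => ?_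
  obtain ⟨hpS, hpM⟩ := hp
  have hpp := hS.prime p hpS
  refine ⟨hpp, fun h => hpM (dvd_mul_of_dvd_left h _), ?_⟩
  have h1 := fib_one hg S hS.split i₀ h2 p (hgood p hpp fun h => hpM (dvd_mul_of_dvd_right h _)) hpS
    (fun c => (y c : ZMod p))
  refine h1.trans (le_of_eq ?_)
  congr 2
  ring

end TR
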