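import Pool.Agent.Lib.MP_10e784_agTR.TWW
import Pool.Agent.Lib.MP_10e784_agTR.HasT
import Pool.Agent.Lib.MP_10e784_agTR.TWVol
import Pool.Agent.Lib.MP_10e784_agTR.TWOm2
import Pool.Agent.Lib.MP_10e784_agTR.TWGood

/-! JOB TWSVa.  The sieve bound.

Let `N = ∑ natDegree`, `M1` from `good_exists`, `M' = M * M1` (primes `∤ M'` are good and `Loc g M x` gives `Al` at them), `S, n` from `PT.split_set g hg.irr` (`hS.split` gives the hypothesis of `omega_one`), `C1` from `omega_one`, `K, δ, C2, L0` from `W_bounds` for `M'`.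
`sv_large` (`L ≥ L1`, `L1` large): for `k < K`, `p ∈ Pk M' K L k` let `I k = univ.filter (k + 1 ≤ lv K L (j i))`; it contains `i₀` and `i₁` (`lv_top`), so `2 ≤ (I k).card`.  `omega_one` gives `Ω p`, `ω p` (the `Pk` are disjoint: choose for every `p` in their union; `Ω p = ∅`, `ω p = 0` for the other `p`).
Apply `multi` with `κ = Co g`, `P k = Pk M' K L k`, `lev c = lv K L (j c.1)` (`k + 1 ≤ lev c ↔ c.1 ∈ I k`, `lev c < k + 1 ↔ c.1 ∉ I k`), `a = ba g C j`, `H = bH g C j`, `D k = Dd (log 2 / (8 N)) K L k ≥ 1`, `z k = zz K L k ≥ 1`, `η = 2 ^ (-(lam K L / (2 N)))`, `hH` from `modulus` (`n = natDegree (g c.1)`, between `1` and `N`) and `bH_low`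
(`lam K L = L ^ (1/K) → ∞`, so `2 ≤ lam` and `lam ^ (-1/2) ≤ log 2 / (8 N)` for `L ≥ L1`).  The set to be counted is contained in the set of `multi` (`bx_iff`; `Al` at `p` excludes `Ω p`).
Estimates, with `W k = ∑_{p ∈ P k} ω p`, `W = ∑ W k ≤ N log L + C2`: `0 ≤ ω ≤ 1/2`, so `exp (-2 W k) ≤ ∏ (1 - ω) ≤ exp (-W k)` (`1 - x ≤ exp (-x)`, `1 - x ≥ exp (-2x)` for `0 ≤ x ≤ 1/2`); `tail` (`z k > 1`): `tl ≤ exp (-(c1 λ ^ (k+1)) / λ ^ (k + 1/2)) exp (e W k) = exp (-c1 λ ^ (1/2)) exp (e W k)`, `c1 = log 2 / (8 N)`;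
`exp (-c1 λ ^ (1/2) + (e + 1) W) ≤ 1` for `L ≥ L1` because `λ ^ (1/2) = L ^ (1/(2K))` beats `log L`: so `∏ (1 - ω) + 2 tl ≤ 3 exp (-W k)` and the product over `k` is at most `3 ^ K exp (-W)`.  `(1 + η) ^ N - 1 ≤ 2 ^ N η` for `0 ≤ η ≤ 1`, `∏ ∏ (1 + ω) ≤ exp W`, and `2 ^ N η exp (2 W) ≤ 1` for `L ≥ L1`
(`η = exp (-(log 2) λ / (2 N))`): the second summand is `≤ exp (-W)`.  Together with `bH_prod` the count is `≤ (3C)^N 2 ^ (∑ j) (3 ^ K + 1) exp (-W)` and `exp (-W) ≤ exp C2 * ∏_{i ≠ i₀} (1 + j i) ^ (-(1 + δ))`. -/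

namespace TR

open TW

open Polynomial Finset

open Filter in
private theorem twsva_ev (K : ℕ) (hK : 0 < K) (A B c : ℝ) (hc : 0 < c) :
    ∀ᶠ L : ℕ in atTop, A * Real.log L + B ≤ c * lam K L ^ (1 / 2 : ℝ) := by
  have hK' : (0 : ℝ) < K := by exact_mod_cast hK
  set a : ℝ := (1 / K) * (1 / 2) with ha
  have ha0 : 0 < a := by positivity
  have h1 : (fun x : ℝ => A * Real.log x) =o[atTop] fun x => x ^ a :=
    (isLittleO_log_rpow_atTop ha0).const_mul_left A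
  have h2 : (fun _ : ℝ => B) =o[atTop] fun x : ℝ => x ^ a := by
    apply Asymptotics.isLittleO_const_left.mpr
    right
    exact tendsto_norm_atTop_atTop.comp (tendsto_rpow_atTop ha0)
  have h3 := (h1.add h2).bound hc
  have h4 := (tendsto_natCast_atTop_atTop (R := ℝ)).eventually h3
  filter_upwards [h4, eventually_ge_atTop 1] with L hL hL1
  have hL0 : (0 : ℝ) ≤ L := Nat.cast_nonneg L
  have h5 : lam K L ^ (1 / 2 : ℝ) = (L : ℝ) ^ a := by
    unfold lam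
    rw [← Real.rpow_mul hL0, ha]
  rw [h5]
  have h6 : 0 ≤ (L : ℝ) ^ a := Real.rpow_nonneg hL0 _
  calc A * Real.log L + B ≤ ‖A * Real.log L + B‖ := le_abs_self _
    _ ≤ c * ‖(L : ℝ) ^ a‖ := hL
    _ = c * (L : ℝ) ^ a := by rw [Real.norm_of_nonneg h6]

private theorem twsva_pow (η : ℝ) (h0 : 0 ≤ η) (h1 : η ≤ 1) (N : ℕ) : (1 + η) ^ N - 1 ≤ (2 ^ N - 1) * η := by
  induction N with
  | zero => simp
  | succ N ih =>
    have h2 : (1 : ℝ) ≤ 2 ^ N := one_le_pow₀ (by norm_num)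
    have h3 : (1 + η) ^ (N + 1) - 1 = ((1 + η) ^ N - 1) * (1 + η) + η := by ring
    rw [h3]
    have h4 : ((1 + η) ^ N - 1) * (1 + η) ≤ ((2 ^ N - 1) * η) * (1 + η) :=
      mul_le_mul_of_nonneg_right ih (by linarith)
    have h5 : ((2 ^ N - 1) * η) * (1 + η) ≤ ((2 ^ N - 1) * η) * 2 :=
      mul_le_mul_of_nonneg_left (by linarith) (mul_nonneg (by linarith) h0)
    have h6 : ((2 : ℝ) ^ (N + 1) - 1) * η = ((2 ^ N - 1) * η) * 2 + η := by ring
    linarith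

private theorem twsva_prod_le (P : Finset ℕ) (ω : ℕ → ℝ) (h : ∀ p ∈ P, 0 ≤ ω p ∧ ω p ≤ 1) :
    ∏ p ∈ P, (1 - ω p) ≤ Real.exp (-∑ p ∈ P, ω p) := by
  rw [← Finset.sum_neg_distrib, Real.exp_sum]
  apply Finset.prod_le_prod
  · intro p hp
    linarith [(h p hp).2]
  · intro p hp
    have := Real.add_one_le_exp (-ω p)
    linarith

private theorem twsva_prod_le' (P : Finset ℕ) (ω : ℕ → ℝ) (h : ∀ p ∈ P, 0 ≤ ω p) :
    ∏ p ∈ P, (1 + ω p) ≤ Real.exp (∑ p ∈ P, ω p) := by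
  rw [Real.exp_sum]
  apply Finset.prod_le_prod
  · intro p hp
    linarith [h p hp]
  · intro p hp
    have := Real.add_one_le_exp (ω p)
    linarith

private theorem twsva_tl_nonneg (D : ℝ) (P : Finset ℕ) (ω : ℕ → ℝ) (h : ∀ p ∈ P, 0 ≤ ω p) : 0 ≤ tl D P ω := by
  unfold tl
  apply Finset.sum_nonneg
  intro T hT
  apply Finset.prod_nonneg
  intro p hp
  exact h p (Finset.mem_powerset.mp (Finset.mem_filter.mp hT).1 hp)

/-- one range -/
private theorem twsva_one (K : ℕ) (L : ℝ) (hL : 1 ≤ L) (c1 : ℝ) (hc1 : 0 ≤ c1) (k : ℕ) (P : Finset ℕ)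
    (hP : ∀ p ∈ P, 1 ≤ p ∧ (p : ℝ) ≤ zz K L k) (ω : ℕ → ℝ) (hω : ∀ p ∈ P, 0 ≤ ω p ∧ ω p ≤ 1)
    (hb : (Real.exp 1 + 1) * ∑ p ∈ P, ω p ≤ c1 * lam K L ^ (1 / 2 : ℝ)) :
    ∏ p ∈ P, (1 - ω p) + 2 * tl (Dd c1 K L k) P ω ≤ 3 * Real.exp (-∑ p ∈ P, ω p) := by
  have hlam : 0 < lam K L := Real.rpow_pos_of_pos (by linarith) _
  have hD : 1 ≤ Dd c1 K L k := by
    unfold Dd
    exact Real.one_le_exp (by positivity)
  have hz : 1 < zz K L k := by
    unfold zz
    exact Real.one_lt_exp_iff.mpr (Real.rpow_pos_of_pos hlam _)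
  have h1 := tail (Dd c1 K L k) (zz K L k) hD hz P hP ω (fun p hp => (hω p hp).1)
  have h2 : Real.log (Dd c1 K L k) / Real.log (zz K L k) = c1 * lam K L ^ (1 / 2 : ℝ) := by
    unfold Dd zz
    rw [Real.log_exp, Real.log_exp]
    have h3 : lam K L ^ (k + 1) = lam K L ^ ((k : ℝ) + 1 / 2) * lam K L ^ (1 / 2 : ℝ) := by
      rw [← Real.rpow_add hlam, ← Real.rpow_natCast]
      congr 1
      push_cast
      ring
    rw [h3]
    have h4 : lam K L ^ ((k : ℝ) + 1 / 2) ≠ 0 := (Real.rpow_pos_of_pos hlam _).ne'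
    field_simp
  rw [h2, ← Real.exp_add] at h1
  have h3 := twsva_prod_le P ω hω
  have h4 : Real.exp (-(c1 * lam K L ^ (1 / 2 : ℝ)) + Real.exp 1 * ∑ p ∈ P, ω p) ≤
      Real.exp (-∑ p ∈ P, ω p) := by
    apply Real.exp_le_exp.mpr
    nlinarith
  linarith

open Classical in
theorem sv_large {ι : Type} [Fintype ι] [DecidableEq ι] {g : ι → ℤ[X]} (hg : Fam g) (hK : OddK g) (hH : HasT g) (M : ℕ) (hM : M ≠ 0) (C : ℝ) (hC : 1 ≤ C) :
    ∃ (C' δ : ℝ) (L1 : ℕ), 0 < δ ∧ 0 < C' ∧ ∀ (j : ι → ℕ) (i₀ i₁ : ι), i₁ ≠ i₀ → (∀ i, i ≠ i₀ → j i ≤ j i₁) → j i₁ ≤ j i₀ →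
      L1 ≤ j i₁ →
      (Nat.card {x : Co g → ℤ // Bx g C j x ∧ Loc g M x} : ℝ) ≤
        C' * 2 ^ (∑ i, j i) * ∏ i ∈ univ.erase i₀, ((1 + j i : ℝ)) ^ (-(1 + δ)) := by
  obtain ⟨M1, hM1, hgood⟩ := good_exists hg
  obtain ⟨S, n, hS⟩ := PT.split_set g hg.irr
  obtain ⟨T, cT, CT, hcT, hCT, hPT, hInc⟩ := hH
  obtain ⟨C1, hC1, hom⟩ := omega_one hg hK S (fun p hp i => hS.split p hp i) T hPT
  clear hK
  obtain ⟨K, δ, C2, L0, hK, hδ, hC2, hW⟩ := W_bounds hg S n hS T cT CT hcT hCT hInc (M * M1) (mul_ne_zero hM hM1) C1 hC1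
  set N : ℕ := ∑ i, (g i).natDegree with hN
  have hN6 : 6 ≤ N := hg.six
  have hN0 : (0 : ℝ) < N := by
    have : 0 < N := by omega
    exact_mod_cast this
  have hlog2 : 0 < Real.log 2 := Real.log_pos (by norm_num)
  set c1 : ℝ := Real.log 2 / (8 * N) with hc1
  have hc1p : 0 < c1 := by positivity
  -- the largeness conditions
  have hev : ∀ᶠ L : ℕ in Filter.atTop, (0 * Real.log L + 2 ≤ 1 * lam K L ^ (1 / 2 : ℝ) ∧
      0 * Real.log L + 1 / c1 ≤ 1 * lam K L ^ (1 / 2 : ℝ)) ∧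
      (((Real.exp 1 + 1) * N) * Real.log L + (Real.exp 1 + 1) * C2 ≤ c1 * lam K L ^ (1 / 2 : ℝ) ∧
      (2 * N) * Real.log L + (N * Real.log 2 + 2 * C2) ≤ (Real.log 2 / (2 * N)) * lam K L ^ (1 / 2 : ℝ)) ∧
      (L0 ≤ (L : ℝ) ∧ 1 ≤ L) := by
    refine ((twsva_ev K hK 0 2 1 one_pos).and (twsva_ev K hK 0 (1 / c1) 1 one_pos)).and
      (((twsva_ev K hK _ _ c1 hc1p).and (twsva_ev K hK _ _ _ (by positivity))).and
        (((tendsto_natCast_atTop_atTop (R := ℝ)).eventually (Filter.eventually_ge_atTop L0)).and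
          (Filter.eventually_ge_atTop 1)))
  obtain ⟨L1, hL1⟩ := Filter.eventually_atTop.mp hev
  refine ⟨(3 * C) ^ N * (3 ^ K + 1) * Real.exp C2, δ, L1, hδ, by positivity, ?_⟩
  intro j i₀ i₁ hne hmax hle hLj
  obtain ⟨⟨e1, e2⟩, ⟨e3, e4⟩, e5, e6⟩ := hL1 (j i₁) hLj
  set L : ℕ := j i₁ with hLdef
  have hL1' : (1 : ℝ) ≤ (L : ℝ) := by exact_mod_cast e6
  have hL0' : (0 : ℝ) < (L : ℝ) := by linarith
  have hlampos : 0 < lam K L := Real.rpow_pos_of_pos hL0' _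
  have hsq : lam K L ^ (1 / 2 : ℝ) * lam K L ^ (1 / 2 : ℝ) = lam K L := by
    rw [← Real.rpow_add hlampos]
    norm_num
  rw [zero_mul, zero_add, one_mul] at e1 e2
  have hlam2 : 2 ≤ lam K L := by nlinarith
  have hhalf : lam K L ^ (1 / 2 : ℝ) ≤ lam K L := by nlinarith
  have hlamc : lam K L ^ (-(1 / 2) : ℝ) ≤ Real.log 2 / (8 * N) := by
    rw [Real.rpow_neg hlampos.le, ← hc1]
    have h1 : 0 < lam K L ^ (1 / 2 : ℝ) := by positivity
    rw [inv_le_comm₀ h1 hc1p, ← one_div]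
    exact e2
  have hlt0 : lv K L (j i₀) = K := lv_top K hK L hL1' (j i₀) (by exact_mod_cast hle)
  have hlt1 : lv K L (j i₁) = K := lv_top K hK L hL1' (j i₁) le_rfl
  have hPk : ∀ k p, p ∈ Pk (M * M1) K L k → p.Prime ∧ ¬ p ∣ M * M1 ∧ 1 ≤ p ∧ (p : ℝ) ≤ zz K L k := by
    intro k p hp
    unfold Pk at hp
    rw [Finset.mem_filter, Finset.mem_Icc] at hp
    refine ⟨hp.2.1, hp.2.2.1, hp.1.1, ?_⟩
    have h0 : 0 ≤ zz K L k := (Real.exp_pos _).le
    exact (Nat.le_floor_iff h0).mp hp.1.2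
  have hgp : ∀ k p, p ∈ Pk (M * M1) K L k → GoodP g p := by
    intro k p hp
    have h := hPk k p hp
    exact hgood p h.1 (fun h' => h.2.1 (dvd_mul_of_dvd_right h' M))
  have hcard : ∀ k, k < K → 2 ≤ (univ.filter fun i => k + 1 ≤ lv K L (j i)).card := by
    intro k hk
    have h0 : i₀ ∈ univ.filter fun i => k + 1 ≤ lv K L (j i) := by
      rw [Finset.mem_filter]
      exact ⟨Finset.mem_univ _, by omega⟩
    have h1 : i₁ ∈ univ.filter fun i => k + 1 ≤ lv K L (j i) := by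
      rw [Finset.mem_filter]
      exact ⟨Finset.mem_univ _, by omega⟩
    have h : 1 < (univ.filter fun i => k + 1 ≤ lv K L (j i)).card :=
      Finset.one_lt_card.mpr ⟨i₀, h0, i₁, h1, hne.symm⟩
    omega
  -- the choice of the forbidden residues
  have hex : ∀ p : ℕ, ∃ F : Set (Co g → ZMod p) × ℝ, ∀ k, k < K → p ∈ Pk (M * M1) K L k →
      ((∀ w ∈ F.1, ¬ Al g p w) ∧ 0 ≤ F.2 ∧ F.2 ≤ 1 / 2 ∧
        F.2 ≤ (N : ℝ) / (p : ℝ) ∧
        ((rts g (univ.filter fun i => k + 1 ≤ lv K L (j i)) p : ℝ) - 1 + gn g S T (univ.filter fun i => k + 1 ≤ lv K L (j i)) p) / p - C1 / (p : ℝ) ^ 2 ≤ F.2 ∧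
        ∀ y : Co g → ZMod p, (Nat.card {w : Co g → ZMod p // w ∈ F.1 ∧
          ∀ c : Co g, c.1 ∉ (univ.filter fun i => k + 1 ≤ lv K L (j i)) → w c = y c} : ℝ) =
          F.2 * (p : ℝ) ^ (univ.filter fun c : Co g => c.1 ∈ (univ.filter fun i => k + 1 ≤ lv K L (j i))).card) := by
    intro p
    by_cases h : ∃ k, k < K ∧ p ∈ Pk (M * M1) K L k
    · obtain ⟨k, hk, hp⟩ := h
      obtain ⟨Ω, ω, h1⟩ := hom p (hgp k p hp) (univ.filter fun i => k + 1 ≤ lv K L (j i)) (hcard k hk)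
      refine ⟨(Ω, ω), ?_⟩
      intro k' hk' hp'
      have hkk : k = k' := by
        by_contra hne'
        exact (Finset.disjoint_left.mp (Pk_disj (M * M1) K L hL1' k k' hne')) hp hp'
      subst hkk
      exact h1
    · refine ⟨(∅, 0), ?_⟩
      intro k hk hp
      exact absurd ⟨k, hk, hp⟩ h
  choose F hF using hex
  have hω0 : ∀ k, k < K → ∀ p ∈ Pk (M * M1) K L k, 0 ≤ (F p).2 ∧ (F p).2 ≤ 1 := by
    intro k hk p hp
    obtain ⟨-, h1, h2, -⟩ := hF p k hk hp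
    exact ⟨h1, by linarith⟩
  obtain ⟨hWl, hWu⟩ := hW j i₀ i₁ L hne (by exact_mod_cast e5) hmax hle le_rfl (fun p => (F p).2) (by
    intro k hk p hp
    obtain ⟨-, -, -, h4, h5, -⟩ := hF p k hk hp
    exact ⟨h5, h4⟩)
  set W : ℝ := ∑ k ∈ range K, ∑ p ∈ Pk (M * M1) K L k, (F p).2 with hWdef
  have hWk0 : ∀ k, k < K → 0 ≤ ∑ p ∈ Pk (M * M1) K L k, (F p).2 := by
    intro k hk
    exact Finset.sum_nonneg fun p hp => (hω0 k hk p hp).1
  have hWk : ∀ k, k < K → ∑ p ∈ Pk (M * M1) K L k, (F p).2 ≤ W := by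
    intro k hk
    exact Finset.single_le_sum (f := fun k => ∑ p ∈ Pk (M * M1) K L k, (F p).2)
      (fun k' hk' => hWk0 k' (Finset.mem_range.mp hk')) (Finset.mem_range.mpr hk)
  have hW0 : 0 ≤ W := Finset.sum_nonneg fun k hk => hWk0 k (Finset.mem_range.mp hk)
  have hexp1 : 0 < Real.exp 1 + 1 := by positivity
  -- the sieve
  set η : ℝ := (2 : ℝ) ^ (-(lam K L / (2 * N))) with hη
  have hη0 : 0 ≤ η := by positivity
  have hη1 : η ≤ 1 := by
    rw [hη]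
    apply Real.rpow_le_one_of_one_le_of_nonpos (by norm_num)
    have : 0 ≤ lam K L / (2 * N) := by positivity
    linarith
  have hmul := multi (κ := Co g) K (fun k => Pk (M * M1) K L k) (fun k p hp => (hPk k p hp).1)
    (fun k k' hkk => Pk_disj (M * M1) K L hL1' k k' (fun h => hkk (Fin.ext h)))
    (fun c => lv K L (j c.1)) (fun p => (F p).1) (fun p => (F p).2)
    (fun k p hp => hω0 k k.2 p hp) (by
      intro k p hp y
      obtain ⟨-, -, -, -, -, h6⟩ := hF p k k.2 hp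
      have h7 := h6 y
      simp only [Finset.mem_filter, Finset.mem_univ, true_and, not_le] at h7
      exact h7)
    (ba g C j) (bH g C j) (fun k => Dd c1 K L k) (fun k => zz K L k)
    (fun k => by
      unfold Dd
      exact Real.one_le_exp (by positivity))
    (fun k => by
      unfold zz
      exact Real.one_le_exp (by positivity))
    (fun k p hp => (hPk k p hp).2.2.2) η hη0 (by
      intro c
      by_cases hc : lv K L (j c.1) = 0
      · left; exact hc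
      · right
        have hn1 : 1 ≤ (g c.1).natDegree := by
          have := c.2.2
          omega
        have hnN : (g c.1).natDegree ≤ N :=
          Finset.single_le_sum (f := fun i => (g i).natDegree) (fun i _ => Nat.zero_le _) (Finset.mem_univ c.1)
        have h1 := modulus K N (g c.1).natDegree hK hn1 hnN L hL1' hlam2 hlamc (j c.1) hc
        refine le_trans h1 ?_
        exact mul_le_mul_of_nonneg_left (bH_low g C hC j c) hη0)
  have hsub : (Nat.card {x : Co g → ℤ // Bx g C j x ∧ Loc g M x} : ℝ) ≤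
      Nat.card {x : Co g → ℤ // (∀ c, ba g C j c ≤ x c ∧ x c < ba g C j c + bH g C j c) ∧
        ∀ k : Fin K, ∀ p ∈ Pk (M * M1) K L k, (fun c => ((x c : ℤ) : ZMod p)) ∉ (F p).1} := by
    have hfin : {x : Co g → ℤ | (∀ c, ba g C j c ≤ x c ∧ x c < ba g C j c + bH g C j c) ∧
        ∀ k : Fin K, ∀ p ∈ Pk (M * M1) K L k, (fun c => ((x c : ℤ) : ZMod p)) ∉ (F p).1}.Finite := by
      have h1 : {x : Co g → ℤ | Bx g C j x}.Finite := by
        exact (bx_card hg C hC j).1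
      apply h1.subset
      intro x hx
      exact (bx_iff g C hC j x).mpr hx.1
    have h2 := Nat.card_mono hfin (s := {x : Co g → ℤ | Bx g C j x ∧ Loc g M x}) (by
      intro x hx
      refine ⟨(bx_iff g C hC j x).mp hx.1, ?_⟩
      intro k p hp hxΩ
      obtain ⟨h1, -⟩ := hF p k k.2 hp
      have h3 := hPk k p hp
      exact h1 _ hxΩ (hx.2 p h3.1 (fun h' => h3.2.1 (dvd_mul_of_dvd_left h' M1))))
    exact_mod_cast h2
  refine le_trans hsub (le_trans hmul ?_)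
  have hcardκ : Fintype.card (Co g) = N := by
    rw [Fintype.card_sigma]
    simp [hN]
  rw [hcardκ]
  -- the main term
  have hmain : ∏ k : Fin K, (∏ p ∈ Pk (M * M1) K L k, (1 - (F p).2) + 2 * tl (Dd c1 K L k) (Pk (M * M1) K L k) (fun p => (F p).2)) ≤
      3 ^ K * Real.exp (-W) := by
    have h1 : ∏ k : Fin K, (∏ p ∈ Pk (M * M1) K L k, (1 - (F p).2) + 2 * tl (Dd c1 K L k) (Pk (M * M1) K L k) (fun p => (F p).2)) ≤
        ∏ k : Fin K, (3 * Real.exp (-∑ p ∈ Pk (M * M1) K L k, (F p).2)) := by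
      apply Finset.prod_le_prod
      · intro k _
        have h2 : 0 ≤ ∏ p ∈ Pk (M * M1) K L k, (1 - (F p).2) :=
          Finset.prod_nonneg fun p hp => by linarith [(hω0 k k.2 p hp).2]
        have h3 := twsva_tl_nonneg (Dd c1 K L k) (Pk (M * M1) K L k) (fun p => (F p).2)
          (fun p hp => (hω0 k k.2 p hp).1)
        linarith
      · intro k _
        apply twsva_one K L hL1' c1 hc1p.le k (Pk (M * M1) K L k) (fun p hp => (hPk k p hp).2.2) (fun p => (F p).2)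
          (fun p hp => hω0 k k.2 p hp)
        have h4 : (Real.exp 1 + 1) * ∑ p ∈ Pk (M * M1) K L k, (F p).2 ≤ (Real.exp 1 + 1) * (N * Real.log L + C2) :=
          mul_le_mul_of_nonneg_left (le_trans (hWk k k.2) hWu) hexp1.le
        linarith
    refine le_trans h1 (le_of_eq ?_)
    rw [Finset.prod_mul_distrib, Finset.prod_const, Finset.card_univ, Fintype.card_fin, ← Real.exp_sum,
      Finset.sum_neg_distrib, hWdef, Finset.sum_range]
  -- the error term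
  have herr : ((1 + η) ^ N - 1) * ∏ k : Fin K, ∏ p ∈ Pk (M * M1) K L k, (1 + (F p).2) ≤ Real.exp (-W) := by
    have h1 : ∏ k : Fin K, ∏ p ∈ Pk (M * M1) K L k, (1 + (F p).2) ≤ Real.exp W := by
      rw [hWdef, Finset.sum_range, Real.exp_sum]
      apply Finset.prod_le_prod
      · intro k _
        exact Finset.prod_nonneg fun p hp => by linarith [(hω0 k k.2 p hp).1]
      · intro k _
        exact twsva_prod_le' _ (fun p => (F p).2) (fun p hp => (hω0 k k.2 p hp).1)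
    have h2 : (1 + η) ^ N - 1 ≤ 2 ^ N * η := by
      have h3 := twsva_pow η hη0 hη1 N
      nlinarith
    have h4 : 0 ≤ (1 + η) ^ N - 1 := by
      have : (1 : ℝ) ≤ (1 + η) ^ N := one_le_pow₀ (by linarith)
      linarith
    have h5 : 2 ^ N * η * Real.exp W ≤ Real.exp (-W) := by
      have h6 : (2 : ℝ) ^ N = Real.exp (N * Real.log 2) := by
        rw [mul_comm, Real.exp_mul, Real.exp_log (by norm_num), Real.rpow_natCast]
      have h7 : η = Real.exp (-(Real.log 2 * (lam K L / (2 * N)))) := by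
        rw [hη, Real.rpow_def_of_pos (by norm_num)]
        congr 1
        ring
      rw [h6, h7, ← Real.exp_add, ← Real.exp_add]
      apply Real.exp_le_exp.mpr
      have h8 : (Real.log 2 / (2 * N)) * lam K L ^ (1 / 2 : ℝ) ≤ (Real.log 2 / (2 * N)) * lam K L :=
        mul_le_mul_of_nonneg_left hhalf (by positivity)
      have h9 : Real.log 2 * (lam K L / (2 * N)) = (Real.log 2 / (2 * N)) * lam K L := by ring
      rw [h9]
      nlinarith
    have h10 : 0 ≤ ∏ k : Fin K, ∏ p ∈ Pk (M * M1) K L k, (1 + (F p).2) :=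
      Finset.prod_nonneg fun k _ => Finset.prod_nonneg fun p hp => by linarith [(hω0 k k.2 p hp).1]
    calc ((1 + η) ^ N - 1) * ∏ k : Fin K, ∏ p ∈ Pk (M * M1) K L k, (1 + (F p).2)
        ≤ (2 ^ N * η) * Real.exp W := mul_le_mul h2 h1 h10 (by positivity)
      _ ≤ Real.exp (-W) := h5
  have hH := bH_prod hg C hC j
  have hH0 : 0 ≤ ∏ c, (bH g C j c : ℝ) := Finset.prod_nonneg fun c _ => Nat.cast_nonneg _
  have hexpW : Real.exp (-W) ≤ Real.exp C2 * ∏ i ∈ univ.erase i₀, ((1 + j i : ℝ)) ^ (-(1 + δ)) := by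
    have h1 : ∏ i ∈ univ.erase i₀, ((1 + j i : ℝ)) ^ (-(1 + δ)) =
        Real.exp (-((1 + δ) * ∑ i ∈ univ.erase i₀, Real.log (1 + j i))) := by
      rw [Finset.mul_sum, ← Finset.sum_neg_distrib, Real.exp_sum]
      apply Finset.prod_congr rfl
      intro i _
      have h2 : (0 : ℝ) < 1 + j i := by positivity
      rw [Real.rpow_def_of_pos h2]
      congr 1
      ring
    rw [h1, ← Real.exp_add]
    apply Real.exp_le_exp.mpr
    linarith
  have hP0 : 0 ≤ ∏ i ∈ univ.erase i₀, ((1 + j i : ℝ)) ^ (-(1 + δ)) :=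
    Finset.prod_nonneg fun i _ => by positivity
  calc (∏ c, (bH g C j c : ℝ)) * (∏ k : Fin K, (∏ p ∈ Pk (M * M1) K L k, (1 - (F p).2) +
        2 * tl (Dd c1 K L k) (Pk (M * M1) K L k) (fun p => (F p).2)) +
        ((1 + η) ^ N - 1) * ∏ k : Fin K, ∏ p ∈ Pk (M * M1) K L k, (1 + (F p).2))
      ≤ (∏ c, (bH g C j c : ℝ)) * (3 ^ K * Real.exp (-W) + Real.exp (-W)) :=
        mul_le_mul_of_nonneg_left (add_le_add hmain herr) hH0
    _ ≤ ((3 * C) ^ N * 2 ^ (∑ i, j i)) * (3 ^ K * Real.exp (-W) + Real.exp (-W)) :=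
        mul_le_mul_of_nonneg_right hH (by positivity)
    _ = ((3 * C) ^ N * 2 ^ (∑ i, j i)) * (3 ^ K + 1) * Real.exp (-W) := by ring
    _ ≤ ((3 * C) ^ N * 2 ^ (∑ i, j i)) * (3 ^ K + 1) *
        (Real.exp C2 * ∏ i ∈ univ.erase i₀, ((1 + j i : ℝ)) ^ (-(1 + δ))) :=
        mul_le_mul_of_nonneg_left hexpW (by positivity)
    _ = (3 * C) ^ N * (3 ^ K + 1) * Real.exp C2 * 2 ^ (∑ i, j i) *
        ∏ i ∈ univ.erase i₀, ((1 + j i : ℝ)) ^ (-(1 + δ)) := by ring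

end TR
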